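import Pool.Agent.Y640.CLA.GT

/-!
# Bounded forward orbits of `C^{1+α}`-perturbations of `(p, w) ↦ (f p, b(p)⁻¹ w)`
-/

open scoped ContDiff Topology
open Set Filter

namespace Pool.Agent.Y640.CLA

/-- a continuous positive function below the infimum over balls of radius `2` -/
theorem exists_delta {E : Type*} [NormedAddCommGroup E] [NormedSpace ℝ E] [FiniteDimensional ℝ E]
    (B : E → ℝ) (hB : Continuous B) (hB0 : ∀ p, 0 < B p) :
    ∃ δ : E → ℝ, Continuous δ ∧ (∀ p, 0 < δ p) ∧ ∀ p q, ‖p - q‖ ≤ 2 → δ p ≤ B q := by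
  have hprop : ProperSpace E := FiniteDimensional.proper_real E
  set t : E → Set ℝ := fun p => {c | 0 < c ∧ ∀ q, ‖p - q‖ ≤ 2 → c ≤ B q} with ht
  have hconv : ∀ p, Convex ℝ (t p) := by
    intro p x hx y hy a b ha hb hab
    refine ⟨?_, fun q hq => ?_⟩
    · have h1 := hx.1
      have h2 := hy.1
      rw [smul_eq_mul, smul_eq_mul]
      rcases ha.eq_or_lt with h | h
      · rw [← h] at hab ⊢
        rw [zero_add] at hab
        rw [hab]; linarith
      · have := mul_pos h h1
        have := mul_nonneg hb h2.le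
        linarith
    · have h1 := hx.2 q hq
      have h2 := hy.2 q hq
      rw [smul_eq_mul, smul_eq_mul]
      calc a * x + b * y ≤ a * B q + b * B q := by gcongr
        _ = B q := by rw [← add_mul, hab, one_mul]
  obtain ⟨g, hg⟩ := exists_continuous_forall_mem_convex_of_local_const hconv (fun p => by
    obtain ⟨q, -, hq⟩ := (isCompact_closedBall p 3).exists_isMinOn
      ⟨p, Metric.mem_closedBall_self (by norm_num)⟩ hB.continuousOn
    refine ⟨B q, ?_⟩
    filter_upwards [Metric.ball_mem_nhds p one_pos] with y hy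
    refine ⟨hB0 q, fun r hr => hq ?_⟩
    rw [Metric.mem_ball] at hy
    rw [Metric.mem_closedBall]
    have h1 : dist r y ≤ 2 := by rw [dist_comm, dist_eq_norm]; exact hr
    have := dist_triangle r y p
    linarith)
  exact ⟨g, g.continuous, fun p => (hg p).1, fun p q hq => (hg p).2 q hq⟩

section
variable {E W : Type*} [NormedAddCommGroup E] [NormedSpace ℝ E] [NormedAddCommGroup W]
  [NormedSpace ℝ W]

/-- smooth `b` with all local bounds -/
theorem exists_loc [FiniteDimensional ℝ E] (f : E → E) (hf : ContDiff ℝ ∞ f) :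
    ∃ b : E → ℝ, ContDiff ℝ ∞ b ∧ (∀ p, 0 < b p) ∧ (∀ p, b p ≤ 1 / 4) ∧
      ∃ A β : E → ℝ, ∀ p, Loc f b (A p) (β p) p := by
  have hprop : ProperSpace E := FiniteDimensional.proper_real E
  have hn : ∀ i : ℕ, (i : WithTop ℕ∞) ≤ ∞ := fun i => by exact_mod_cast (le_top : (i : ℕ∞) ≤ ⊤)
  set A₀ : E → ℝ := fun p => 2 + ‖iteratedFDeriv ℝ 1 f p‖ + ‖iteratedFDeriv ℝ 2 f p‖ with hA₀
  have hAc : Continuous A₀ := by
    have h1 := hf.continuous_iteratedFDeriv (m := 1) (hn 1)
    have h2 := hf.continuous_iteratedFDeriv (m := 2) (hn 2)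
    exact (continuous_const.add h1.norm).add h2.norm
  have hA2 : ∀ p, 2 ≤ A₀ p := fun p => by
    simp only [hA₀]
    have := norm_nonneg (iteratedFDeriv ℝ 1 f p)
    have := norm_nonneg (iteratedFDeriv ℝ 2 f p)
    linarith
  obtain ⟨δ, hδ, hδ0, hδB⟩ := exists_delta (fun p => 1 / (40 * A₀ p ^ 2))
    (continuous_const.div (continuous_const.mul (hAc.pow 2)) (fun p => by
      have := hA2 p
      positivity)) (fun p => by
      have := hA2 p
      positivity)
  obtain ⟨b, hb, hb0, hbb⟩ := Pool.Agent.H718R2.G.exists_small δ hδ hδ0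
  have hmax : ∀ p : E, ∃ r ∈ Metric.closedBall p 1, ∀ q ∈ Metric.closedBall p 1, A₀ q ≤ A₀ r := by
    intro p
    obtain ⟨r, hr, hr'⟩ := (isCompact_closedBall p 1).exists_isMaxOn
      ⟨p, Metric.mem_closedBall_self (by norm_num)⟩ hAc.continuousOn
    exact ⟨r, hr, fun q hq => hr' hq⟩
  choose r hr hrmax using hmax
  have hin : ∀ p q : E, ‖p - q‖ ≤ 1 → q ∈ Metric.closedBall p 1 := by
    intro p q h
    rw [Metric.mem_closedBall, dist_comm, dist_eq_norm]; exact h
  have hδr : ∀ p q : E, ‖p - q‖ ≤ 1 → δ q ≤ 1 / (40 * A₀ (r p) ^ 2) := by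
    intro p q h
    apply hδB
    have h1 := hr p
    rw [Metric.mem_closedBall, dist_comm, dist_eq_norm] at h1
    have : q - r p = (p - r p) - (p - q) := by abel
    rw [this]
    exact (norm_sub_le _ _).trans (by linarith)
  have hdf : Differentiable ℝ f := hf.differentiable (by simp)
  have hdb : Differentiable ℝ b := hb.differentiable (by simp)
  have hddf : Differentiable ℝ (fderiv ℝ f) :=
    (hf.fderiv_right (m := ∞) (by simp)).differentiable (by simp)
  have hddb : Differentiable ℝ (fderiv ℝ b) :=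
    (hb.fderiv_right (m := ∞) (by simp)).differentiable (by simp)
  have hfd2 : ∀ q, ‖fderiv ℝ (fderiv ℝ f) q‖ ≤ A₀ q := by
    intro q
    rw [← norm_iteratedFDeriv_one, norm_iteratedFDeriv_fderiv]
    simp only [hA₀]
    have := norm_nonneg (iteratedFDeriv ℝ 1 f q)
    linarith
  have hbd2 : ∀ q, ‖fderiv ℝ (fderiv ℝ b) q‖ ≤ δ q := by
    intro q
    rw [← norm_iteratedFDeriv_one, norm_iteratedFDeriv_fderiv]
    exact hbb q 2 le_rfl
  have hb00 : ∀ q, |b q| ≤ δ q := by
    intro q
    have := hbb q 0 (by norm_num)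
    rwa [norm_iteratedFDeriv_zero] at this
  have hballs : ∀ p y : E, y ∈ Metric.closedBall p 1 → ‖p - y‖ ≤ 1 := by
    intro p y hy
    rwa [Metric.mem_closedBall, dist_comm, dist_eq_norm] at hy
  refine ⟨b, hb, hb0, fun p => ?_, fun p => A₀ (r p), fun p => 1 / (40 * A₀ (r p) ^ 2), fun p => ?_⟩
  · refine (le_abs_self _).trans ((hb00 p).trans ((hδr p p (by simp)).trans ?_))
    rw [div_le_div_iff₀ (by have := hA2 (r p); positivity) (by norm_num)]
    nlinarith [hA2 (r p)]
  · have hA := hA2 (r p)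
    refine ⟨by linarith, by positivity, ?_, ?_, ?_, ?_, ?_, ?_⟩
    · have : 40 * A₀ (r p) ^ 2 * (1 / (40 * A₀ (r p) ^ 2)) = 1 := by
        field_simp
      exact this.le
    · intro q hq
      have h1 := hrmax p q (hin p q hq)
      have h2 : ‖fderiv ℝ f q‖ + 1 ≤ A₀ q := by
        rw [← norm_iteratedFDeriv_one]
        simp only [hA₀]
        have := norm_nonneg (iteratedFDeriv ℝ 2 f q)
        linarith
      linarith
    · intro q hq
      refine (convex_closedBall p 1).norm_image_sub_le_of_norm_fderiv_le (𝕜 := ℝ)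
        (fun y _ => hddf y) (fun y hy => (hfd2 y).trans (hrmax p y hy)) (hin p q hq)
        (Metric.mem_closedBall_self zero_le_one)
    · intro q hq
      exact (hb00 q).trans (hδr p q hq)
    · intro q hq
      rw [← norm_iteratedFDeriv_one]
      exact (hbb q 1 (by norm_num)).trans (hδr p q hq)
    · intro q hq
      refine (convex_closedBall p 1).norm_image_sub_le_of_norm_fderiv_le (𝕜 := ℝ)
        (fun y _ => hddb y) (fun y hy => (hbd2 y).trans (hδr p y (hballs p y hy))) (hin p q hq)
        (Metric.mem_closedBall_self zero_le_one)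

/-- the graph transform -/
def gtA (f : E → E) (b : E → ℝ) (u : E × W → E × W) (h : E → W) : E → W :=
  fun p => b p • (h (f p + (u (p, h p)).1) - (u (p, h p)).2)

/-- iteration of the graph transform -/
def hsA (f : E → E) (b : E → ℝ) (u : E × W → E × W) : ℕ → E → W
  | 0 => fun _ => 0
  | N + 1 => gtA f b u (hsA f b u N)

/-- bounded forward orbits are orbits, in the first coordinate, of a `C^{1+α}`-perturbation of `f` -/
theorem stabiliseA [FiniteDimensional ℝ E] [FiniteDimensional ℝ W] {α : ℝ} (hα : 0 < α) (hα1 : α ≤ 1)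
    (f : E → E) (hf : ContDiff ℝ ∞ f) (ε : E → ℝ) (hε : Continuous ε) (hε' : ∀ p, 0 < ε p) :
    ∃ (b : E → ℝ) (ε' : E → ℝ), ContDiff ℝ ∞ b ∧ (∀ p, 0 < b p) ∧ Continuous ε' ∧ (∀ p, 0 < ε' p) ∧
      ∀ g : E × W → E × W,
        SmA α (fun z => ε' z.1) (fun z => g z - (f z.1, (b z.1)⁻¹ • z.2)) →
        ∃ w : E → E, SmA α ε w ∧ ∀ z : E × W, (∃ Δ : ℝ, ∀ j, ‖(g^[j] z).2‖ ≤ Δ) →
            ∀ j, (g^[j + 1] z).1 = f (g^[j] z).1 + w (g^[j] z).1 := by
  have hcE : CompleteSpace E := FiniteDimensional.complete ℝ E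
  obtain ⟨b, hb, hb0, hb4, A, β, hloc⟩ := exists_loc f hf
  refine ⟨b, fun p => min (ε p) 1 / 16, hb, hb0, (hε.min continuous_const).div_const _,
    fun p => by have := hε' p; positivity, ?_⟩
  intro g hu'
  have hdf : Differentiable ℝ f := hf.differentiable (by simp)
  have hdb : Differentiable ℝ b := hb.differentiable (by simp)
  set u : E × W → E × W := fun z => g z - (f z.1, (b z.1)⁻¹ • z.2) with hudef
  have hu16 : SmA α (fun _ => 1 / 16) u := hu'.mono (fun z => by
    have := min_le_right (ε z.1) 1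
    simp only
    linarith)
  have hul : ∀ z z', ‖u z - u z'‖ ≤ 1 / 8 * ‖z - z'‖ := fun z z' =>
    hu16.lip (fun _ => by norm_num) z z'
  have hul2 : ∀ (p : E) (a c : W), ‖u (p, a) - u (p, c)‖ ≤ 1 / 8 * ‖a - c‖ := by
    intro p a c
    refine (hul _ _).trans ?_
    have : ‖(p, a) - (p, c)‖ = ‖a - c‖ := by
      rw [Prod.mk_sub_mk, sub_self, Prod.norm_mk, norm_zero, max_eq_right (norm_nonneg _)]
    rw [this]
  have hspec : ∀ N, HA α (hsA f b u N) := by
    intro N
    induction N with
    | zero =>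
      have e : hsA f b u 0 = fun _ => (0 : W) := rfl
      rw [e]
      refine ⟨differentiable_const _, fun p => by simp, fun p => ?_, fun p q => ?_⟩
      · simp
      · simp only [fderiv_fun_const, Pi.zero_apply, sub_self, norm_zero]
        exact pw_nonneg (norm_nonneg _)
    | succ N ih => exact gt_HA hα hα1 hdf hdb hloc hu16 ih
  -- the graph transform contracts
  have hcau : ∀ N p, ‖hsA f b u (N + 1) p - hsA f b u N p‖ ≤ (1 / 2) ^ N := by
    intro N
    induction N with
    | zero =>
      intro p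
      have e0 : hsA f b u 0 p = 0 := rfl
      rw [e0, sub_zero, pow_zero]
      exact ((hspec 1).b0 p).trans (by norm_num)
    | succ N ih =>
      intro p
      set h := hsA f b u (N + 1) with hh
      set k := hsA f b u N with hk
      have e1 : hsA f b u (N + 1 + 1) p = gtA f b u h p := rfl
      have e2 : h p = gtA f b u k p := rfl
      have key : hsA f b u (N + 1 + 1) p - h p = b p •
          ((h (f p + (u (p, h p)).1) - k (f p + (u (p, h p)).1)) +
            (k (f p + (u (p, h p)).1) - k (f p + (u (p, k p)).1)) -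
            ((u (p, h p)).2 - (u (p, k p)).2)) := by
        rw [e1]
        conv_lhs => rw [e2]
        unfold gtA
        rw [← smul_sub]
        congr 1
        abel
      rw [key, norm_smul, Real.norm_of_nonneg (hb0 p).le]
      have a0 := hul2 p (h p) (k p)
      have aih := ih p
      have a1 : ‖(u (p, h p)).1 - (u (p, k p)).1‖ ≤ 1 / 8 * ‖h p - k p‖ := (norm_fst_le _).trans a0
      have a2 : ‖(u (p, h p)).2 - (u (p, k p)).2‖ ≤ 1 / 8 * ‖h p - k p‖ := (norm_snd_le _).trans a0
      have a3 : ‖k (f p + (u (p, h p)).1) - k (f p + (u (p, k p)).1)‖ ≤ 1 / 8 * ‖h p - k p‖ := by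
        refine ((hspec N).lip _ _).trans ?_
        rw [add_sub_add_left_eq_sub]
        have := norm_nonneg ((u (p, h p)).1 - (u (p, k p)).1)
        linarith
      have a4 := ih (f p + (u (p, h p)).1)
      have hD0 : 0 < ((1:ℝ) / 2) ^ N := by positivity
      have a5 : ‖(h (f p + (u (p, h p)).1) - k (f p + (u (p, h p)).1)) +
            (k (f p + (u (p, h p)).1) - k (f p + (u (p, k p)).1)) -
            ((u (p, h p)).2 - (u (p, k p)).2)‖ ≤ 2 * (1 / 2) ^ N := by
        refine (norm_sub_le _ _).trans ?_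
        have := norm_add_le (h (f p + (u (p, h p)).1) - k (f p + (u (p, h p)).1))
          (k (f p + (u (p, h p)).1) - k (f p + (u (p, k p)).1))
        linarith
      calc b p * _ ≤ 1 / 4 * (2 * (1 / 2) ^ N) := by
            have := hb4 p
            have := (hb0 p).le
            gcongr
        _ = (1 / 2) ^ (N + 1) := by ring
  set v : ℕ → E → E := fun N p => (u (p, hsA f b u N p)).1 with hvdef
  have hvb : ∀ N, SmA α (fun p => 2 * (min (ε p) 1 / 16)) (v N) := fun N =>
    (graph_SmA (δ := fun p => min (ε p) 1 / 16) hu' (hspec N)).clm (ContinuousLinearMap.fst ℝ E W)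
      (ContinuousLinearMap.norm_fst_le ℝ E W)
  obtain ⟨w, hw, hvw⟩ := lim_A hα (fun p => by
      have := min_le_right (ε p) 1
      linarith) v hvb (A := 1 / 8) (by norm_num) (by
      intro N p
      have h1 : ‖v (N + 1) p - v N p‖ ≤ ‖u (p, hsA f b u (N + 1) p) - u (p, hsA f b u N p)‖ :=
        norm_fst_le (u (p, hsA f b u (N + 1) p) - u (p, hsA f b u N p))
      refine h1.trans ((hul2 _ _ _).trans ?_)
      exact mul_le_mul_of_nonneg_left (hcau N p) (by norm_num))
  refine ⟨w, hw.mono (fun p => by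
    have := min_le_left (ε p) 1
    have := hε' p
    linarith), ?_⟩
  rintro z ⟨Δ, hΔ⟩ j
  set Z : ℕ → E × W := fun j => g^[j] z with hZdef
  have hZs : ∀ j, Z (j + 1) = g (Z j) := fun j => Function.iterate_succ_apply' g j z
  have e1 : ∀ j, (Z (j + 1)).1 = f (Z j).1 + (u ((Z j).1, (Z j).2)).1 := by
    intro j
    rw [hZs]
    simp [hudef]
  have e2 : ∀ j, (Z j).2 = b (Z j).1 • ((Z (j + 1)).2 - (u ((Z j).1, (Z j).2)).2) := by
    intro j
    rw [hZs]
    simp only [hudef, Prod.snd_sub, sub_sub_cancel]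
    rw [smul_smul, mul_inv_cancel₀ (hb0 _).ne', one_smul]
  have hΔ0 : 0 ≤ Δ := (norm_nonneg _).trans (hΔ 0)
  have hcon : ∀ N : ℕ, ∀ j, ‖(Z j).2 - hsA f b u N (Z j).1‖ ≤ Δ * (1 / 2) ^ N := by
    intro N
    induction N with
    | zero =>
      intro j
      have : hsA f b u 0 (Z j).1 = 0 := rfl
      rw [this, sub_zero, pow_zero, mul_one]
      exact hΔ j
    | succ N ih =>
      intro j
      set h := hsA f b u N with hh
      set p := (Z j).1 with hp
      set p' := (Z (j + 1)).1 with hp'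
      set w₀ := (Z j).2 with hw₀
      set w₁ := (Z (j + 1)).2 with hw₁
      set D : ℝ := Δ * (1 / 2) ^ N with hD
      have hD0 : 0 ≤ D := by positivity
      have i1 : ‖w₀ - h p‖ ≤ D := ih j
      have i2 : ‖w₁ - h p'‖ ≤ D := ih (j + 1)
      have f1 : p' = f p + (u (p, w₀)).1 := e1 j
      have f2 : w₀ = b p • (w₁ - (u (p, w₀)).2) := e2 j
      have a0 : ‖u (p, w₀) - u (p, h p)‖ ≤ 1 / 8 * D :=
        (hul2 _ _ _).trans (mul_le_mul_of_nonneg_left i1 (by norm_num))
      have a1 : ‖(u (p, w₀)).1 - (u (p, h p)).1‖ ≤ 1 / 8 * D := (norm_fst_le _).trans a0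
      have a2 : ‖(u (p, w₀)).2 - (u (p, h p)).2‖ ≤ 1 / 8 * D := (norm_snd_le _).trans a0
      have a3 : ‖h p' - h (f p + (u (p, h p)).1)‖ ≤ 1 / 8 * D := by
        refine ((hspec N).lip _ _).trans ?_
        rw [f1, add_sub_add_left_eq_sub]
        have := norm_nonneg ((u (p, w₀)).1 - (u (p, h p)).1)
        linarith
      have key : w₀ - hsA f b u (N + 1) p = b p • ((w₁ - h p') + (h p' - h (f p + (u (p, h p)).1)) -
          ((u (p, w₀)).2 - (u (p, h p)).2)) := by
        have e0 : hsA f b u (N + 1) p = gtA f b u h p := rfl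
        rw [e0]
        conv_lhs => rw [f2]
        unfold gtA
        rw [← smul_sub]
        congr 1
        abel
      change ‖w₀ - hsA f b u (N + 1) p‖ ≤ _
      rw [key, norm_smul, Real.norm_of_nonneg (hb0 p).le]
      have a5 : ‖(w₁ - h p') + (h p' - h (f p + (u (p, h p)).1)) -
          ((u (p, w₀)).2 - (u (p, h p)).2)‖ ≤ 2 * D := by
        refine (norm_sub_le _ _).trans ?_
        have := norm_add_le (w₁ - h p') (h p' - h (f p + (u (p, h p)).1))
        linarith
      calc b p * _ ≤ 1 / 4 * (2 * D) := by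
            have := hb4 p
            have := (hb0 p).le
            gcongr
        _ = Δ * (1 / 2) ^ (N + 1) := by rw [hD]; ring
  have hlim : Tendsto (fun N => hsA f b u N (Z j).1) atTop (𝓝 (Z j).2) := by
    rw [tendsto_iff_norm_sub_tendsto_zero]
    have ht : Tendsto (fun N : ℕ => Δ * (1 / 2 : ℝ) ^ N) atTop (𝓝 (Δ * 0)) :=
      (tendsto_pow_atTop_nhds_zero_of_lt_one (by norm_num) (by norm_num)).const_mul Δ
    rw [mul_zero] at ht
    refine squeeze_zero (fun _ => norm_nonneg _) (fun N => ?_) ht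
    rw [norm_sub_rev]
    exact hcon N j
  have hlim2 : Tendsto (fun N => v N (Z j).1) atTop (𝓝 (u ((Z j).1, (Z j).2)).1) := by
    have hc : Continuous fun y : W => (u ((Z j).1, y)).1 :=
      (hu'.diff.continuous.comp (by fun_prop)).fst
    exact (hc.tendsto _).comp hlim
  have hww' := tendsto_nhds_unique (hvw (Z j).1) hlim2
  change (Z (j + 1)).1 = f (Z j).1 + w (Z j).1
  rw [hww']
  exact e1 j

end

end Pool.Agent.Y640.CLA
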