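import Pool.Agent.H718R2.K6c
import Pool.Agent.Y640.CLA.GT2

/-!
# Cutting off a `C^{1+α}`-small map defined on a half-space
-/

open scoped ContDiff Topology
open Set Filter
open Pool.Agent.H718R2

namespace Pool.Agent.Y640.CLA

/-- `G` is `C^{1+α}`-close to `F` on the set `s`, at scale `ρ` -/
structure CloseOn {X : Type*} [NormedAddCommGroup X] [NormedSpace ℝ X] (α ρ : ℝ) (s : Set X)
    (ε : X → ℝ) (F G : X → X) : Prop where
  diff : ∀ z ∈ s, DifferentiableAt ℝ G z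
  c0 : ∀ z ∈ s, ‖G z - F z‖ < ε z
  c1 : ∀ z ∈ s, ‖fderiv ℝ G z - fderiv ℝ F z‖ < ε z
  hol : ∀ z ∈ s, ∀ z' ∈ s, ‖z - z'‖ ≤ ρ →
    ‖(fderiv ℝ G z - fderiv ℝ F z) - (fderiv ℝ G z' - fderiv ℝ F z')‖ ≤ ε z * ‖z - z'‖ ^ α

/-- cut-off of a small map -/
theorem cut_SmA {X : Type*} [NormedAddCommGroup X] [NormedSpace ℝ X] {α ρ C c : ℝ} (hα : 0 < α)
    (hα1 : α ≤ 1) (hρ : 0 < ρ) (hρ1 : ρ ≤ 1) (hC : 0 < C) (hc : 8 * C * c ≤ pw α ρ) (hc0 : 0 ≤ c)
    {ℓ : X →L[ℝ] ℝ} (hℓ : ‖ℓ‖ ≤ 1) {χ : ℝ → ℝ} (hχ : ContDiff ℝ (⊤ : ℕ∞) χ)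
    (hχ2 : ∀ t, t ≤ -2 → χ t = 0) (hχC : ∀ t, ∀ i : ℕ, i ≤ 2 → ‖iteratedFDeriv ℝ i χ t‖ ≤ C)
    {δ ε : X → ℝ} (hδ0 : ∀ p, 0 < δ p) (hδ : ∀ p q, ‖p - q‖ ≤ 2 → ε p ≤ c * δ q) {F G : X → X}
    (hF : Differentiable ℝ F) (h : CloseOn α ρ {z : X | -(11 / 2) < ℓ z} ε F G) :
    SmA α δ (fun z => χ (ℓ z) • (G z - F z)) := by
  set s : Set X := {z : X | -(11 / 2) < ℓ z} with hs
  have hconv : Convex ℝ s := by
    have hlin : IsLinearMap ℝ (fun z : X => ℓ z) := ⟨fun _ _ => map_add _ _ _, fun _ _ => map_smul _ _ _⟩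
    exact convex_halfSpace_gt hlin _
  have hℓz : ∀ z z' : X, |ℓ z - ℓ z'| ≤ ‖z - z'‖ := by
    intro z z'
    rw [← map_sub]
    refine (ℓ.le_opNorm _).trans ?_
    calc ‖ℓ‖ * ‖z - z'‖ ≤ 1 * ‖z - z'‖ := by gcongr
      _ = _ := one_mul _
  have hχd : Differentiable ℝ χ := hχ.differentiable (by simp)
  have hχdd : Differentiable ℝ (fderiv ℝ χ) :=
    (hχ.fderiv_right (m := (⊤ : ℕ∞)) (by simp)).differentiable (by simp)
  have hχ0 : ∀ t, ‖χ t‖ ≤ C := fun t => by
    have := hχC t 0 (by norm_num)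
    rwa [norm_iteratedFDeriv_zero] at this
  have hχ1 : ∀ t, ‖fderiv ℝ χ t‖ ≤ C := fun t => by
    rw [← norm_iteratedFDeriv_one]
    exact hχC t 1 (by norm_num)
  have hχl : ∀ a b : ℝ, ‖χ a - χ b‖ ≤ C * ‖a - b‖ := fun a b =>
    Convex.norm_image_sub_le_of_norm_fderiv_le (𝕜 := ℝ) (s := univ) (fun z _ => hχd z)
      (fun z _ => hχ1 z) convex_univ (mem_univ _) (mem_univ _)
  have hχl2 : ∀ a b : ℝ, ‖fderiv ℝ χ a - fderiv ℝ χ b‖ ≤ C * ‖a - b‖ := fun a b =>
    Convex.norm_image_sub_le_of_norm_fderiv_le (𝕜 := ℝ) (s := univ) (fun z _ => hχdd z)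
      (fun z _ => by
        rw [← norm_iteratedFDeriv_one, norm_iteratedFDeriv_fderiv]
        exact hχC z 2 le_rfl) convex_univ (mem_univ _) (mem_univ _)
  -- the cut-off on `X`
  set Χ : X → ℝ := fun z => χ (ℓ z) with hΧ
  set DΧ : X → X →L[ℝ] ℝ := fun z => (fderiv ℝ χ (ℓ z)).comp ℓ with hDΧ
  have hΧd : ∀ z, HasFDerivAt Χ (DΧ z) z := fun z =>
    (hχd (ℓ z)).hasFDerivAt.comp z ℓ.hasFDerivAt
  have hcompn : ∀ T : ℝ →L[ℝ] ℝ, ‖T.comp ℓ‖ ≤ ‖T‖ := fun T => by
    refine (T.opNorm_comp_le ℓ).trans ?_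
    calc ‖T‖ * ‖ℓ‖ ≤ ‖T‖ * 1 := by gcongr
      _ = ‖T‖ := mul_one _
  have hDΧn : ∀ z, ‖DΧ z‖ ≤ C := fun z => (hcompn _).trans (hχ1 _)
  have hΧl : ∀ z z', ‖Χ z - Χ z'‖ ≤ C * ‖z - z'‖ := fun z z' =>
    (hχl _ _).trans (mul_le_mul_of_nonneg_left (hℓz z z') hC.le)
  have hDΧl : ∀ z z', ‖DΧ z - DΧ z'‖ ≤ C * ‖z - z'‖ := fun z z' => by
    simp only [hDΧ]
    rw [← ContinuousLinearMap.sub_comp]
    exact (hcompn _).trans ((hχl2 _ _).trans (mul_le_mul_of_nonneg_left (hℓz z z') hC.le))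
  -- the difference
  set V : X → X := fun z => G z - F z with hV
  set DV : X → X →L[ℝ] X := fun z => fderiv ℝ G z - fderiv ℝ F z with hDV
  have hVd : ∀ z ∈ s, HasFDerivAt V (DV z) z := fun z hz =>
    (h.diff z hz).hasFDerivAt.sub (hF z).hasFDerivAt
  set u : X → X := fun z => Χ z • V z with hu
  set Du : X → X →L[ℝ] X := fun z => Χ z • DV z + (DΧ z).smulRight (V z) with hDu
  have hud : ∀ z ∈ s, HasFDerivAt u (Du z) z := fun z hz => (hΧd z).smul (hVd z hz)
  have hu0 : ∀ z, ℓ z < -2 → u =ᶠ[𝓝 z] fun _ => 0 := by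
    intro z hz
    have ho : IsOpen {z : X | ℓ z < -2} := isOpen_lt ℓ.continuous continuous_const
    filter_upwards [ho.mem_nhds hz] with y hy
    simp only [hu, hΧ]
    rw [hχ2 _ (le_of_lt hy), zero_smul]
  have hud0 : ∀ z, ℓ z < -2 → HasFDerivAt u (0 : X →L[ℝ] X) z := fun z hz =>
    (hasFDerivAt_const (0 : X) z).congr_of_eventuallyEq (hu0 z hz)
  have hns : ∀ z, z ∉ s → ℓ z < -2 := by
    intro z hz
    have : ¬ (-(11 / 2) < ℓ z) := hz
    linarith [not_lt.1 this]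
  have hud' : Differentiable ℝ u := by
    intro z
    by_cases hz : z ∈ s
    · exact (hud z hz).differentiableAt
    · exact (hud0 z (hns z hz)).differentiableAt
  have hself : ∀ p : X, ‖p - p‖ ≤ 2 := fun p => by simp
  have hpρ : pw α ρ ≤ 1 := pw_le_one hα hρ.le hρ1
  have hc8 : 8 * C * c ≤ 1 := hc.trans hpρ
  have hCc : 0 ≤ C * c := by positivity
  have hDub : ∀ z ∈ s, ∀ p, ‖z - p‖ ≤ 2 → ‖Du z‖ ≤ 2 * (C * (c * δ p)) := by
    intro z hz p hp
    refine (norm_add_le _ _).trans ?_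
    rw [norm_smul, ContinuousLinearMap.norm_smulRight_apply]
    have h1 := (h.c1 z hz).le.trans (hδ z p hp)
    have h2 := (h.c0 z hz).le.trans (hδ z p hp)
    have h3 : ‖Χ z‖ * ‖DV z‖ ≤ C * (c * δ p) := mul_le_mul (hχ0 _) h1 (norm_nonneg _) hC.le
    have h4 : ‖DΧ z‖ * ‖V z‖ ≤ C * (c * δ p) := mul_le_mul (hDΧn z) h2 (norm_nonneg _) hC.le
    linarith
  have hfd : ∀ z p, ‖z - p‖ ≤ 2 → ‖fderiv ℝ u z‖ ≤ 2 * (C * (c * δ p)) := by
    intro z p hp
    by_cases hz : z ∈ s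
    · rw [(hud z hz).fderiv]; exact hDub z hz p hp
    · rw [(hud0 z (hns z hz)).fderiv, norm_zero]
      have := hδ0 p
      positivity
  have hbig : ∀ p, 2 * (C * (c * δ p)) ≤ 1 / 4 * δ p := by
    intro p
    have h1 : 8 * C * c * δ p ≤ 1 * δ p := mul_le_mul_of_nonneg_right hc8 (hδ0 p).le
    have h2 : 2 * (C * (c * δ p)) = 1 / 4 * (8 * C * c * δ p) := by ring
    rw [h2]; linarith
  refine ⟨hud', fun z => ?_, fun z => ?_, fun z z' hzz => ?_⟩
  · change ‖u z‖ ≤ δ z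
    by_cases hz : z ∈ s
    · change ‖Χ z • V z‖ ≤ δ z
      rw [norm_smul]
      have h2 := (h.c0 z hz).le.trans (hδ z z (hself z))
      have h4 : ‖Χ z‖ * ‖V z‖ ≤ C * (c * δ z) := mul_le_mul (hχ0 _) h2 (norm_nonneg _) hC.le
      have := hbig z
      have := hδ0 z
      have : 0 ≤ C * (c * δ z) := by positivity
      linarith
    · rw [(hu0 z (hns z hz)).self_of_nhds, norm_zero]
      exact (hδ0 z).le
  · have := hfd z z (hself z)
    have := hbig z
    have := hδ0 z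
    change ‖fderiv ℝ u z‖ ≤ δ z
    linarith
  · change ‖fderiv ℝ u z - fderiv ℝ u z'‖ ≤ δ z * pw α ‖z - z'‖
    set t := ‖z - z'‖ with ht
    have t0 : 0 ≤ t := norm_nonneg _
    have P0 : 0 ≤ pw α t := pw_nonneg t0
    have hδz := hδ0 z
    rcases lt_or_ge ρ t with hgt | hle
    · refine (norm_sub_le _ _).trans ?_
      have a1 := hfd z z (hself z)
      have a2 := hfd z' z (by rw [norm_sub_rev]; linarith)
      have a3 : pw α ρ ≤ pw α t := pw_mono hα hρ.le hgt.le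
      have a4 : 8 * C * c * δ z ≤ pw α ρ * δ z := mul_le_mul_of_nonneg_right hc hδz.le
      have a5 : pw α ρ * δ z ≤ pw α t * δ z := mul_le_mul_of_nonneg_right a3 hδz.le
      have a6 : 8 * C * c * δ z = 8 * (C * (c * δ z)) := by ring
      have a7 : 0 ≤ C * (c * δ z) := by positivity
      have a8 : δ z * pw α t = pw α t * δ z := mul_comm _ _
      linarith
    · by_cases hz : z ∈ s ∧ z' ∈ s
      · obtain ⟨hz, hz'⟩ := hz
        rw [(hud z hz).fderiv, (hud z' hz').fderiv]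
        set η := c * δ z with hη
        have η0 : 0 ≤ η := by positivity
        have htP : t ≤ pw α t := le_pw hα hα1 t0 hzz
        have b1 : ‖DV z - DV z'‖ ≤ η * pw α t := by
          refine (h.hol z hz z' hz' hle).trans ?_
          exact mul_le_mul_of_nonneg_right (hδ z z (hself z)) P0
        have b2 : ∀ y ∈ s, ‖y - z‖ ≤ 1 → ‖DV y‖ ≤ η := fun y hy hyz =>
          (h.c1 y hy).le.trans (hδ y z (by linarith))
        have b3 : ‖V z - V z'‖ ≤ η * t := by
          refine (hconv.inter (convex_closedBall z 1)).norm_image_sub_le_of_norm_hasFDerivWithin_le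
            (𝕜 := ℝ) (f' := DV) (fun y hy => (hVd y hy.1).hasFDerivWithinAt)
            (fun y hy => b2 y hy.1 (by
              have := hy.2
              rwa [Metric.mem_closedBall, dist_eq_norm] at this)) ⟨hz', ?_⟩
            ⟨hz, Metric.mem_closedBall_self zero_le_one⟩
          rw [Metric.mem_closedBall, dist_eq_norm, norm_sub_rev]
          exact hzz
        have b4 : ‖V z'‖ ≤ η := (h.c0 z' hz').le.trans (hδ z' z (by rw [norm_sub_rev]; linarith))
        have b5 : ‖DV z'‖ ≤ η := b2 z' hz' (by rw [norm_sub_rev]; exact hzz)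
        have e : Du z - Du z' = Χ z • (DV z - DV z') + (Χ z - Χ z') • DV z' +
            ((DΧ z).smulRight (V z - V z') + (DΧ z - DΧ z').smulRight (V z')) := by
          simp only [hDu]
          ext v
          simp only [sub_apply, add_apply, smul_apply, ContinuousLinearMap.smulRight_apply, smul_sub,
            sub_smul]
          abel
        rw [e]
        have d1 : ‖Χ z • (DV z - DV z')‖ ≤ C * (η * pw α t) := by
          rw [norm_smul]
          exact mul_le_mul (hχ0 _) b1 (norm_nonneg _) hC.le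
        have d2 : ‖(Χ z - Χ z') • DV z'‖ ≤ C * t * η := by
          rw [norm_smul]
          exact mul_le_mul (hΧl z z') b5 (norm_nonneg _) (by positivity)
        have d3 : ‖(DΧ z).smulRight (V z - V z')‖ ≤ C * (η * t) := by
          rw [ContinuousLinearMap.norm_smulRight_apply]
          exact mul_le_mul (hDΧn z) b3 (norm_nonneg _) hC.le
        have d4 : ‖(DΧ z - DΧ z').smulRight (V z')‖ ≤ C * t * η := by
          rw [ContinuousLinearMap.norm_smulRight_apply]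
          exact mul_le_mul (hDΧl z z') b4 (norm_nonneg _) (by positivity)
        have d5 := norm_add_le (Χ z • (DV z - DV z')) ((Χ z - Χ z') • DV z')
        have d6 := norm_add_le ((DΧ z).smulRight (V z - V z')) ((DΧ z - DΧ z').smulRight (V z'))
        have d7 := norm_add_le (Χ z • (DV z - DV z') + (Χ z - Χ z') • DV z')
          ((DΧ z).smulRight (V z - V z') + (DΧ z - DΧ z').smulRight (V z'))
        have g0 : C * (η * t) ≤ C * (η * pw α t) := by gcongr
        have g1 : C * t * η = C * (η * t) := by ring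
        have g2 : 8 * C * c * (δ z * pw α t) ≤ 1 * (δ z * pw α t) :=
          mul_le_mul_of_nonneg_right hc8 (by positivity)
        have g3 : 8 * C * c * (δ z * pw α t) = 8 * (C * (η * pw α t)) := by rw [hη]; ring
        have g4 : 0 ≤ C * (η * pw α t) := by positivity
        linarith
      · have hboth : ℓ z < -2 ∧ ℓ z' < -2 := by
          have h1 := abs_le.1 ((hℓz z z').trans hzz)
          rw [not_and_or] at hz
          rcases hz with hz | hz
          · have : ¬ (-(11 / 2) < ℓ z) := hz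
            constructor <;> linarith [not_lt.1 this, h1.1, h1.2]
          · have : ¬ (-(11 / 2) < ℓ z') := hz
            constructor <;> linarith [not_lt.1 this, h1.1, h1.2]
        rw [(hud0 z hboth.1).fderiv, (hud0 z' hboth.2).fderiv, sub_zero, norm_zero]
        positivity

end Pool.Agent.Y640.CLA
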