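import Pool.Agent.Y640.CLA.SysA
import Pool.Agent.Y640.CLA.Cut

/-!
# Theorem N on `E × W` for compact sets and `C^{1+α}`-small perturbations
-/

open scoped Topology
open Set Filter
open Pool.Agent.H718R2

namespace Pool.Agent.Y640.CLA

/-- small maps are allowed perturbations -/
theorem pertA_of_SmA {α θ : ℝ} (hα : 0 < α) (h : 0 < θ) (h1 : θ ≤ 1) {w : E → E}
    (hw : SmA α (fun p => E2.epsf θ p / 2) w) : PertA α θ w := by
  refine ⟨hw.diff, ?_, ?_, ?_⟩
  · intro p m hm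
    have h2 := E2.epsf_le h h1 p m hm
    have h3 := E2.epsf_pos h p
    have h4 := hw.b0 p
    linarith
  · intro p m hm
    have h2 := E2.epsf_le h h1 p m hm
    have h3 := E2.epsf_pos h p
    have h4 := hw.b1 p
    linarith
  · intro p p' m hm hm'
    have h2 := E2.epsf_le h h1 p m hm
    have h2' := E2.epsf_le h h1 p' m hm'
    have h3 := E2.epsf_pos h p
    have hP := pw_nonneg (α := α) (norm_nonneg (p - p'))
    have hθm : 0 < θ ^ (12 * (m + 1)) := pow_pos h _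
    rcases lt_or_ge 1 ‖p - p'‖ with hgt | hle
    · have h4 := hw.b1 p
      have h5 := hw.b1 p'
      have h6 : 1 ≤ pw α ‖p - p'‖ := Real.one_le_rpow hgt.le hα.le
      have h7 : θ ^ (12 * (m + 1)) * 1 ≤ θ ^ (12 * (m + 1)) * pw α ‖p - p'‖ :=
        mul_le_mul_of_nonneg_left h6 hθm.le
      have h8 := norm_sub_le (fderiv ℝ w p) (fderiv ℝ w p')
      linarith
    · have h4 := hw.b2 p p' hle
      have h5 : E2.epsf θ p / 2 * pw α ‖p - p'‖ ≤ θ ^ (12 * (m + 1)) * pw α ‖p - p'‖ :=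
        mul_le_mul_of_nonneg_right (by linarith) hP
      linarith

/-- Theorem N on `E × W`, for compact sets and `C^{1+α}`-small perturbations -/
theorem prod_mainA (W : Type) [NormedAddCommGroup W] [NormedSpace ℝ W] [FiniteDimensional ℝ W]
    {α : ℝ} (hα : 0 < α) (hα1 : α ≤ 1) {ρ : ℝ} (hρ : 0 < ρ) (hρ1 : ρ ≤ 1) :
    ∃ (F : (E × W) ≃ₜ (E × W)) (ε : E × W → ℝ), ContDiff ℝ (⊤ : ℕ∞) F ∧
      ContDiff ℝ (⊤ : ℕ∞) F.symm ∧ (∀ z : E × W, z.1.2.2 ≤ -5 → F z = z) ∧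
      (∀ δ : ℝ, 0 < δ → ∃ k : ℕ, 1 ≤ k ∧ ‖F^[k] (0 : E × W)‖ < δ) ∧ Continuous ε ∧ (∀ z, 0 < ε z) ∧
      ∀ G : E × W → E × W, CloseOn α ρ {z : E × W | -(11 / 2) < z.1.2.2} ε F G →
        ∀ O : Set (E × W), IsCompact O → (∃ z ∈ O, -(1 / 4) ≤ z.1.2.2) →
          ¬ (∀ z ∈ O, -5 ≤ z.1.2.2 → G z ∈ O) := by
  obtain ⟨θ, f, f₀, hθ, hθ1, hf, hf₀, hf₀', hff, hf5, horb, hrec, hper, hfwd⟩ := exists_dataA hα hα1
  obtain ⟨b, ε', hb, hb0, hε', hε'0, hst⟩ := stabiliseA (W := W) hα hα1 (f : E → E) hf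
    (fun p => E2.epsf θ p / 2) ((E2.epsf_cont hθ).div_const _)
    (fun p => half_pos (E2.epsf_pos hθ p))
  obtain ⟨χ₅, hχs, hχ0, hχ1, hχn, hχl⟩ := exists_cut5
  obtain ⟨χ, C, hχ2s, hχ2, hχ3, hC, hχC⟩ := exists_cut
  -- the fibre factor
  set c : E → ℝ := fun p => 1 + χ₅ p.2.2 * ((b p)⁻¹ - 1) with hc
  have hcs : ContDiff ℝ (⊤ : ℕ∞) c := by
    apply contDiff_const.add
    apply (hχs.comp (by fun_prop)).mul
    exact (hb.inv (fun p => (hb0 p).ne')).sub contDiff_const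
  have hcpos : ∀ p, 0 < c p := by
    intro p
    have h1 := hχn p.2.2
    have h2 := hχl p.2.2
    have h3 : 0 < (b p)⁻¹ := inv_pos.mpr (hb0 p)
    have e : c p = (1 - χ₅ p.2.2) + χ₅ p.2.2 * (b p)⁻¹ := by simp only [hc]; ring
    rw [e]
    rcases h1.eq_or_lt with h | h
    · rw [← h]; norm_num
    · have : 0 < χ₅ p.2.2 * (b p)⁻¹ := mul_pos h h3
      linarith
  set F : (E × W) ≃ₜ (E × W) := fibH f₀ c hcs.continuous (fun p => (hcpos p).ne') with hF
  have hFe : ∀ z, F z = fib f₀ c z := fun z => rfl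
  have hFfun : (F : E × W → E × W) = fib f₀ c := rfl
  set fh : E × W → E × W := fun z => (f z.1, (b z.1)⁻¹ • z.2) with hfh
  have hfhs : ContDiff ℝ (⊤ : ℕ∞) fh :=
    (hf.comp contDiff_fst).prodMk (((hb.inv (fun p => (hb0 p).ne')).comp contDiff_fst).smul contDiff_snd)
  have hFfh : ∀ z : E × W, -2 ≤ z.1.2.2 → F z = fh z := by
    intro z hz
    rw [hFe]
    unfold fib
    rw [hff _ hz]
    simp only [hc, hfh]
    rw [hχ1 _ (by linarith)]
    congr 2
    ring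
  have hFs : ContDiff ℝ (⊤ : ℕ∞) F := fib_smooth hf₀ hcs
  have hFs' : ContDiff ℝ (⊤ : ℕ∞) F.symm := by
    have : (F.symm : E × W → E × W) = fib f₀.symm (fun p => (c (f₀.symm p))⁻¹) := rfl
    rw [this]
    exact fib_smooth hf₀' ((hcs.comp hf₀').inv (fun p => (hcpos _).ne'))
  -- the size
  set δ₁ : E × W → ℝ := fun z => min (ε' z.1) (E2.epsf θ z.1) with hδ₁
  have hδ₁c : Continuous δ₁ := (hε'.comp continuous_fst).min ((E2.epsf_cont hθ).comp continuous_fst)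
  have hδ₁0 : ∀ z, 0 < δ₁ z := fun z => lt_min (hε'0 _) (E2.epsf_pos hθ _)
  have hpρ : 0 < pw α ρ := Real.rpow_pos_of_pos hρ α
  set c₀ : ℝ := pw α ρ / (8 * C) with hc₀
  have hc₀0 : 0 < c₀ := by positivity
  obtain ⟨ε, hε, hε0, hεδ⟩ := exists_delta (fun z => c₀ * δ₁ z) (continuous_const.mul hδ₁c)
    (fun z => mul_pos hc₀0 (hδ₁0 z))
  set ℓ : (E × W) →L[ℝ] ℝ := (ContinuousLinearMap.snd ℝ ℝ ℝ).comp
        ((ContinuousLinearMap.snd ℝ ℝ (ℝ × ℝ)).comp (ContinuousLinearMap.fst ℝ E W)) with hℓ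
  have hℓe : ∀ z, ℓ z = z.1.2.2 := fun z => rfl
  have hℓn : ‖ℓ‖ ≤ 1 := by
    apply ContinuousLinearMap.opNorm_le_bound _ zero_le_one
    intro z
    rw [one_mul]
    exact (n3 z.1).trans (norm_fst_le z)
  refine ⟨F, ε, hFs, hFs', ?_, ?_, hε, hε0, ?_⟩
  · intro z hz
    rw [hFe]
    unfold fib
    rw [hf5 _ hz]
    simp only [hc]
    rw [hχ0 _ hz]
    simp
  · intro δ hδ
    obtain ⟨n, hn, h⟩ := hrec δ hδ
    refine ⟨n, hn, ?_⟩
    rw [hFfun, fib_iter horb (fun p hp => hff p hp) n, Prod.norm_def]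
    simp only [norm_zero]
    rw [max_eq_left (norm_nonneg _)]
    exact h
  · intro G hGc O hO ⟨y₀, hy₀, hy₀'⟩ hinv
    -- the globalised perturbation
    have hFd : Differentiable ℝ (F : E × W → E × W) := hFs.differentiable (by simp)
    have huS : SmA α δ₁ (fun z => χ (ℓ z) • (G z - F z)) :=
      cut_SmA hα hα1 hρ hρ1 hC (by rw [hc₀]; field_simp; exact le_rfl) hc₀0.le hℓn hχ2s hχ2 hχC
        hδ₁0 hεδ hFd hGc
    set u : E × W → E × W := fun z => χ (ℓ z) • (G z - F z) with hu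
    set F' : E × W → E × W := fun z => fh z + u z with hF'
    obtain ⟨w, hw, hno⟩ := hst F' (by
      have e : (fun z => F' z - (f z.1, (b z.1)⁻¹ • z.2)) = u := by
        funext z
        simp only [hF', hfh]
        abel
      rw [e]
      exact huS.mono (fun z => min_le_left _ _))
    -- the forward orbit of the highest point
    obtain ⟨z₀, hz₀, hmax'⟩ := hO.exists_isMaxOn ⟨y₀, hy₀⟩
      (f := fun z : E × W => z.1.2.2) (by fun_prop)
    have hmax : ∀ z ∈ O, z.1.2.2 ≤ z₀.1.2.2 := fun z hz => hmax' hz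
    obtain ⟨zm, _, hB'⟩ := hO.exists_isMaxOn ⟨y₀, hy₀⟩
      (f := fun z : E × W => z.1.2.1) (by fun_prop)
    have hB : ∀ z ∈ O, z.1.2.1 ≤ zm.1.2.1 := fun z hz => hB' hz
    have hstep : ∀ z ∈ O, -1 ≤ z.1.2.2 → F' z ∈ O := by
      intro z hz hz1
      have h1 : F' z = G z := by
        simp only [hF', hu]
        rw [hχ3 _ (by rw [hℓe]; exact hz1), one_smul, ← hFfh z (by linarith)]
        abel
      rw [h1]
      exact hinv z hz (by linarith)
    have hall := hfwd (fun i => (F'^[i] z₀).1) (fun i => F'^[i] z₀ ∈ O) (by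
        intro i
        rw [Function.iterate_succ_apply']
        set y := F'^[i] z₀
        have h1 : (F' y).1 - f y.1 = (u y).1 := by
          simp only [hF', hfh, Prod.fst_add, add_sub_cancel_left]
        rw [h1]
        exact ((norm_fst_le _).trans (huS.b0 y)).trans (min_le_right _ _))
      hz₀ (by
        intro i hi h1
        rw [Function.iterate_succ_apply']
        exact hstep _ hi h1)
      (by intro i hi; exact hmax _ hi)
      (by have := hmax y₀ hy₀; exact hy₀'.trans this)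
      ⟨zm.1.2.1, fun i hi => hB _ hi⟩
    -- the orbit is an orbit of a map of `E` which is `C^{1+α}`-close to `f`
    obtain ⟨Δ, hΔ⟩ := hO.isBounded.exists_norm_le
    have horb2 := hno z₀ ⟨Δ, fun j => (norm_snd_le _).trans (hΔ _ (hall j).1)⟩
    refine hper w (pertA_of_SmA hα hθ hθ1 hw)
      (Set.range fun j => (F'^[j] z₀).1) ?_ (F'^[0] z₀).1 ⟨0, rfl⟩ ?_ ⟨zm.1.2.1, ?_⟩
    · rintro _ ⟨j, rfl⟩
      exact ⟨j + 1, horb2 j⟩
    · rintro _ ⟨j, rfl⟩
      exact hmax _ (hall j).1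
    · rintro _ ⟨j, rfl⟩
      exact hB _ (hall j).1

end Pool.Agent.Y640.CLA
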