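import Pool.Agent.H718R2.G0

/-!
# Theorem N for `C^{1+α}`-small perturbations and compact sets: statement
-/

open scoped Topology ContDiff
open Set

namespace Pool.Agent.Y640.CLA

open Pool.Agent.H718R2

/-- `H` is `C^{1+α}`-close to `F` on the open half-space `{v | 1/2 < v 0}`, with size `ε`. -/
structure CloseA {n : ℕ} [NeZero n] (α : ℝ) (ε : G.V n → ℝ) (F H : G.V n → G.V n) : Prop where
  diff : ∀ v : G.V n, 1 / 2 < v 0 → DifferentiableAt ℝ H v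
  c0 : ∀ v : G.V n, 1 / 2 < v 0 → ‖H v - F v‖ < ε v
  c1 : ∀ v : G.V n, 1 / 2 < v 0 → ‖fderiv ℝ H v - fderiv ℝ F v‖ < ε v
  hol : ∀ v w : G.V n, 1 / 2 < v 0 → 1 / 2 < w 0 → ‖v - w‖ ≤ 1 →
    ‖(fderiv ℝ H v - fderiv ℝ F v) - (fderiv ℝ H w - fderiv ℝ F w)‖ ≤ ε v * ‖v - w‖ ^ α

/-- A smooth diffeomorphism `F` of `ℝⁿ`, the identity on `{v 0 ≤ 1}`, with a recurrent point `a`, such
that for every map `H` that is `C^{1+α}`-close to `F` on `{1/2 < v 0}`, no compact set which is closed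
under `H` as long as the first coordinate is `≥ 1` meets `{v | 23/4 < v 0}`. -/
def NonClosingA (α : ℝ) (n : ℕ) [NeZero n] : Prop :=
  ∃ (F : G.V n ≃ₜ G.V n) (a : G.V n) (ε : G.V n → ℝ), 6 ≤ a 0 ∧
    ContDiff ℝ ∞ F ∧ ContDiff ℝ ∞ F.symm ∧ (∀ v : G.V n, v 0 ≤ 1 → F v = v) ∧
    (∀ δ : ℝ, 0 < δ → ∃ k : ℕ, 1 ≤ k ∧ ‖F^[k] a - a‖ < δ) ∧ Continuous ε ∧ (∀ v, 0 < ε v) ∧
    ∀ H : G.V n → G.V n, CloseA α ε F H →
      ∀ O : Set (G.V n), IsCompact O → (∃ v ∈ O, 23 / 4 < v 0) → ¬ (∀ v ∈ O, 1 ≤ v 0 → H v ∈ O)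

end Pool.Agent.Y640.CLA
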