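import Pool.Agent.H718R2.K6d
import Pool.Agent.Y640.CLA.Stm
import Pool.Agent.Y640.CLA.ProdA

/-!
# Theorem N in `ℝⁿ`, `n ≥ 3`, for compact sets and `C^{1+α}`-small perturbations
-/

open scoped Topology ContDiff
open Set
open Pool.Agent.H718R2

namespace Pool.Agent.Y640.CLA

/-- Theorem N for compact sets and `C^{1+α}`-small perturbations -/
theorem nonClosingA {α : ℝ} (hα : 0 < α) (hα1 : α ≤ 1) (n : ℕ) [NeZero n] (hn : 3 ≤ n) :
    NonClosingA α n := by
  obtain ⟨m, rfl⟩ := Nat.exists_eq_add_of_le' hn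
  set L := LC m with hL
  set ν : ℝ := ‖(L.symm : E × G.V m →L[ℝ] G.V (m + 3))‖ with hν
  have hν0 : 0 ≤ ν := norm_nonneg _
  set ρ : ℝ := 1 / (1 + ν) with hρ
  have hρ0 : 0 < ρ := by positivity
  have hρ1 : ρ ≤ 1 := by
    rw [hρ, div_le_one (by positivity)]; linarith
  obtain ⟨Fh, ε, hF, hF', hF5, hrec, hε, hε0, hmain⟩ := prod_mainA (G.V m) hα hα1 hρ0 hρ1
  set c0 : E × G.V m := ((0, 0, 6), 0) with hc0
  -- the affine change of coordinates
  set T : G.V (m + 3) ≃ₜ E × G.V m := L.toHomeomorph.trans (Homeomorph.addRight (-c0)) with hT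
  have hTe : ∀ v, T v = L v - c0 := fun v => by
    simp [hT, sub_eq_add_neg]
  have hTs : ∀ z, T.symm z = L.symm (z + c0) := fun z => by
    rw [Homeomorph.symm_apply_eq, hTe]; simp
  have hTξ : ∀ v, (T v).1.2.2 = v 0 - 6 := by
    intro v
    rw [hTe]
    change (L v).1.2.2 - 6 = _
    rw [hL, LC_xi]
  have hTξ' : ∀ z, T.symm z 0 = z.1.2.2 + 6 := by
    intro z
    have := hTξ (T.symm z)
    rw [Homeomorph.apply_symm_apply] at this
    linarith
  have hTc : ContDiff ℝ (⊤ : ℕ∞) T := by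
    have : (T : G.V (m + 3) → E × G.V m) = fun v => L v - c0 := funext hTe
    rw [this]
    exact L.contDiff.sub contDiff_const
  have hTc' : ContDiff ℝ (⊤ : ℕ∞) T.symm := by
    have : (T.symm : E × G.V m → G.V (m + 3)) = fun z => L.symm (z + c0) := funext hTs
    rw [this]
    exact L.symm.contDiff.comp (contDiff_id.add contDiff_const)
  set F : G.V (m + 3) ≃ₜ G.V (m + 3) := (T.trans Fh).trans T.symm with hFdef
  have hFe : ∀ v, F v = T.symm (Fh (T v)) := fun v => rfl
  have hFi : ∀ k v, F^[k] v = T.symm (Fh^[k] (T v)) := by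
    intro k
    induction k with
    | zero => intro v; simp
    | succ k ih =>
      intro v
      rw [Function.iterate_succ_apply, ih, Function.iterate_succ_apply, hFe,
        Homeomorph.apply_symm_apply]
  have hFsm : ContDiff ℝ (⊤ : ℕ∞) F := hTc'.comp (hF.comp hTc)
  have hFd : Differentiable ℝ (F : G.V (m + 3) → G.V (m + 3)) := hFsm.differentiable (by simp)
  have hFhd : Differentiable ℝ (Fh : E × G.V m → E × G.V m) := hF.differentiable (by simp)
  set lam : ℝ := ‖(L : G.V (m + 3) →L[ℝ] E × G.V m)‖ with hlam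
  have hlam0 : 0 ≤ lam := norm_nonneg _
  set K : ℝ := 1 + lam * (1 + ν) ^ 2 with hK
  have hK1 : 1 ≤ K := by
    have : 0 ≤ lam * (1 + ν) ^ 2 := by positivity
    linarith
  have hK2 : lam * ν ≤ K := by
    have : lam * ν ≤ lam * (1 + ν) ^ 2 := mul_le_mul_of_nonneg_left (by nlinarith) hlam0
    linarith
  have hK4 : lam ≤ K := by
    have : lam * 1 ≤ lam * (1 + ν) ^ 2 := mul_le_mul_of_nonneg_left (by nlinarith) hlam0
    linarith
  have hK3 : lam * ν * (1 + ν) ≤ K := by
    have : lam * (ν * (1 + ν)) ≤ lam * (1 + ν) ^ 2 := mul_le_mul_of_nonneg_left (by nlinarith) hlam0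
    linarith
  refine ⟨F, T.symm 0, fun v => ε (T v) / K, ?_, ?_, ?_, ?_, ?_, ?_, ?_, ?_⟩
  · rw [hTξ']; simp
  · exact hFsm
  · exact hTc'.comp (hF'.comp hTc)
  · intro v hv
    rw [hFe, hF5 _ (by rw [hTξ]; linarith), Homeomorph.symm_apply_apply]
  · intro δ hδ
    have hcont : Filter.Tendsto T.symm (𝓝 0) (𝓝 (T.symm 0)) := T.symm.continuous.continuousAt
    rw [Metric.tendsto_nhds_nhds] at hcont
    obtain ⟨η, hη, h⟩ := hcont δ hδ
    obtain ⟨k, hk, hk'⟩ := hrec η hη
    refine ⟨k, hk, ?_⟩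
    rw [hFi, Homeomorph.apply_symm_apply, ← dist_eq_norm]
    apply h
    rw [dist_zero_right]
    exact hk'
  · exact (hε.comp T.continuous).div_const _
  · intro v
    have := hε0 (T v)
    positivity
  · rintro g hg O hO ⟨v₀, hv₀, hv₀'⟩ hinv
    set Gh : E × G.V m → E × G.V m := fun z => L (g (L.symm (z + c0))) - c0 with hGh
    have hGhT : ∀ z, Gh z = T (g (T.symm z)) := by
      intro z
      rw [hTe, hTs]
    have hhalf : ∀ z ∈ {z : E × G.V m | -(11 / 2) < z.1.2.2}, 1 / 2 < L.symm (z + c0) 0 := by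
      intro z hz
      have hz' : -(11 / 2) < z.1.2.2 := hz
      rw [← hTs, hTξ']; linarith
    -- derivatives
    have hTaff : ∀ z : E × G.V m, HasFDerivAt (fun z => L.symm (z + c0))
        (L.symm : E × G.V m →L[ℝ] G.V (m + 3)) z := fun z => by
      have h1 : HasFDerivAt (fun z : E × G.V m => z + c0) (ContinuousLinearMap.id ℝ (E × G.V m)) z :=
        (hasFDerivAt_id z).add_const c0
      exact (L.symm.hasFDerivAt (x := z + c0)).comp z h1
    have hconj : ∀ (φ : G.V (m + 3) → G.V (m + 3)) (z : E × G.V m),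
        DifferentiableAt ℝ φ (L.symm (z + c0)) →
        HasFDerivAt (fun z => L (φ (L.symm (z + c0))) - c0)
          ((L : G.V (m + 3) →L[ℝ] E × G.V m).comp ((fderiv ℝ φ (L.symm (z + c0))).comp
            (L.symm : E × G.V m →L[ℝ] G.V (m + 3)))) z := by
      intro φ z hφ
      exact ((L.hasFDerivAt).comp z (hφ.hasFDerivAt.comp z (hTaff z))).sub_const c0
    have hFhe : ∀ z, Fh z = L (F (L.symm (z + c0))) - c0 := by
      intro z
      rw [hFe, ← hTs, Homeomorph.apply_symm_apply, ← hTe, Homeomorph.apply_symm_apply]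
    have hFhf : (Fh : E × G.V m → E × G.V m) = fun z => L (F (L.symm (z + c0))) - c0 := funext hFhe
    have hdG : ∀ z ∈ {z : E × G.V m | -(11 / 2) < z.1.2.2}, fderiv ℝ Gh z - fderiv ℝ Fh z =
        (L : G.V (m + 3) →L[ℝ] E × G.V m).comp ((fderiv ℝ g (L.symm (z + c0)) -
          fderiv ℝ F (L.symm (z + c0))).comp (L.symm : E × G.V m →L[ℝ] G.V (m + 3))) := by
      intro z hz
      have h1 := (hconj g z (hg.diff _ (hhalf z hz))).fderiv
      have h2 : fderiv ℝ Fh z = (L : G.V (m + 3) →L[ℝ] E × G.V m).comp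
          ((fderiv ℝ F (L.symm (z + c0))).comp (L.symm : E × G.V m →L[ℝ] G.V (m + 3))) := by
        rw [hFhf]
        exact (hconj F z (hFd _)).fderiv
      rw [h2]
      change fderiv ℝ (fun z => L (g (L.symm (z + c0))) - c0) z - _ = _
      rw [h1]
      apply ContinuousLinearMap.ext
      intro v
      simp
    have hnorm : ∀ A : G.V (m + 3) →L[ℝ] G.V (m + 3),
        ‖(L : G.V (m + 3) →L[ℝ] E × G.V m).comp (A.comp
          (L.symm : E × G.V m →L[ℝ] G.V (m + 3)))‖ ≤ lam * ν * ‖A‖ := by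
      intro A
      refine (ContinuousLinearMap.opNorm_comp_le _ _).trans ?_
      have := ContinuousLinearMap.opNorm_comp_le A (L.symm : E × G.V m →L[ℝ] G.V (m + 3))
      calc lam * _ ≤ lam * (‖A‖ * ν) := mul_le_mul_of_nonneg_left this hlam0
        _ = _ := by ring
    have hTv : ∀ z : E × G.V m, T (L.symm (z + c0)) = z := fun z => by
      rw [← hTs, Homeomorph.apply_symm_apply]
    refine hmain Gh ⟨?_, ?_, ?_, ?_⟩ (T '' O) (hO.image T.continuous) ⟨T v₀, ⟨v₀, hv₀, rfl⟩, by
      rw [hTξ]; linarith⟩ ?_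
    · intro z hz
      exact (hconj g z (hg.diff _ (hhalf z hz))).differentiableAt
    · intro z hz
      have h1 := hg.c0 _ (hhalf z hz)
      simp only [hTv] at h1
      rw [hFhe z]
      have e : Gh z - (L (F (L.symm (z + c0))) - c0) =
          (L : G.V (m + 3) →L[ℝ] E × G.V m) (g (L.symm (z + c0)) - F (L.symm (z + c0))) := by
        simp only [hGh, map_sub, ContinuousLinearEquiv.coe_coe]
        abel
      rw [e]
      refine ((L : G.V (m + 3) →L[ℝ] E × G.V m).le_opNorm _).trans_lt ?_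
      have h2 := norm_nonneg (g (L.symm (z + c0)) - F (L.symm (z + c0)))
      calc lam * ‖g (L.symm (z + c0)) - F (L.symm (z + c0))‖
          ≤ K * ‖g (L.symm (z + c0)) - F (L.symm (z + c0))‖ := mul_le_mul_of_nonneg_right hK4 h2
        _ < K * (ε z / K) := mul_lt_mul_of_pos_left h1 (by linarith)
        _ = ε z := by field_simp
    · intro z hz
      have h1 := hg.c1 _ (hhalf z hz)
      simp only [hTv] at h1
      rw [hdG z hz]
      refine (hnorm _).trans_lt ?_
      have h2 := norm_nonneg (fderiv ℝ g (L.symm (z + c0)) - fderiv ℝ F (L.symm (z + c0)))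
      calc lam * ν * ‖fderiv ℝ g (L.symm (z + c0)) - fderiv ℝ F (L.symm (z + c0))‖
          ≤ K * ‖fderiv ℝ g (L.symm (z + c0)) - fderiv ℝ F (L.symm (z + c0))‖ :=
            mul_le_mul_of_nonneg_right hK2 h2
        _ < K * (ε z / K) := mul_lt_mul_of_pos_left h1 (by linarith)
        _ = ε z := by field_simp
    · intro z hz z' hz' hzz
      have hd : L.symm (z + c0) - L.symm (z' + c0) = L.symm (z - z') := by
        rw [← map_sub]; congr 1; abel
      have hdn : ‖L.symm (z + c0) - L.symm (z' + c0)‖ ≤ ν * ‖z - z'‖ := by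
        rw [hd]
        exact (L.symm : E × G.V m →L[ℝ] G.V (m + 3)).le_opNorm _
      have hd1 : ‖L.symm (z + c0) - L.symm (z' + c0)‖ ≤ 1 := by
        refine hdn.trans ?_
        calc ν * ‖z - z'‖ ≤ ν * ρ := mul_le_mul_of_nonneg_left hzz hν0
          _ = ν / (1 + ν) := by rw [hρ]; ring
          _ ≤ 1 := by rw [div_le_one (by positivity)]; linarith
      have h1 := hg.hol _ _ (hhalf z hz) (hhalf z' hz') hd1
      simp only [hTv] at h1
      rw [hdG z hz, hdG z' hz']
      have e : (L : G.V (m + 3) →L[ℝ] E × G.V m).comp ((fderiv ℝ g (L.symm (z + c0)) -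
          fderiv ℝ F (L.symm (z + c0))).comp (L.symm : E × G.V m →L[ℝ] G.V (m + 3))) -
          (L : G.V (m + 3) →L[ℝ] E × G.V m).comp ((fderiv ℝ g (L.symm (z' + c0)) -
          fderiv ℝ F (L.symm (z' + c0))).comp (L.symm : E × G.V m →L[ℝ] G.V (m + 3))) =
          (L : G.V (m + 3) →L[ℝ] E × G.V m).comp (((fderiv ℝ g (L.symm (z + c0)) -
          fderiv ℝ F (L.symm (z + c0))) - (fderiv ℝ g (L.symm (z' + c0)) -
          fderiv ℝ F (L.symm (z' + c0)))).comp (L.symm : E × G.V m →L[ℝ] G.V (m + 3))) := by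
        apply ContinuousLinearMap.ext
        intro v
        simp
      rw [e]
      refine (hnorm _).trans ?_
      have hεz := hε0 z
      have hp0 : 0 ≤ pw α ‖z - z'‖ := pw_nonneg (norm_nonneg _)
      have h2 : ‖L.symm (z + c0) - L.symm (z' + c0)‖ ^ α ≤ (1 + ν) * pw α ‖z - z'‖ := by
        have h3 : ‖L.symm (z + c0) - L.symm (z' + c0)‖ ≤ (1 + ν) * ‖z - z'‖ := by
          have := norm_nonneg (z - z')
          linarith
        exact (pw_mono hα (norm_nonneg _) h3).trans (pw_scale hα1 (by linarith) (norm_nonneg _))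
      have h4 : lam * ν * ‖(fderiv ℝ g (L.symm (z + c0)) -
          fderiv ℝ F (L.symm (z + c0))) - (fderiv ℝ g (L.symm (z' + c0)) -
          fderiv ℝ F (L.symm (z' + c0)))‖ ≤ lam * ν * (ε z / K * ((1 + ν) * pw α ‖z - z'‖)) := by
        apply mul_le_mul_of_nonneg_left _ (by positivity)
        exact h1.trans (mul_le_mul_of_nonneg_left h2 (by positivity))
      refine h4.trans ?_
      calc lam * ν * (ε z / K * ((1 + ν) * pw α ‖z - z'‖))
          = (lam * ν * (1 + ν)) * (ε z / K * pw α ‖z - z'‖) := by ring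
        _ ≤ K * (ε z / K * pw α ‖z - z'‖) := mul_le_mul_of_nonneg_right hK3 (by positivity)
        _ = ε z * pw α ‖z - z'‖ := by field_simp
    · rintro _ ⟨v, hv, rfl⟩ hz
      rw [hTξ] at hz
      refine ⟨g v, hinv v hv (by linarith), ?_⟩
      rw [hGhT, Homeomorph.symm_apply_apply]

end Pool.Agent.Y640.CLA
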