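import Pool.Agent.Y640.CLA.Defs
import Pool.Agent.H718R2.B

open Pool.Agent.H718R2 Pool.Agent.H718R2.ModB

namespace Pool.Agent.Y640.CLA

namespace ModB

section

variable {α κ θ L : ℝ} {ω : E → ℝ} {Φ : E → E} {y z : ℕ → E}

lemma P_diff (hκ : 0 < κ) (hκ' : κ ≤ 1 / 10 ^ 12) (hL : 8 ≤ L) (hθ1 : θ ≤ 1 / 10 ^ 36)
    (hθ0 : 0 < θ) (hΦ : Ret α κ θ L Φ) (h : Cycle θ L ω Φ y z) (l : ℕ) (hl : l ≤ 7) :
    ‖P y l - P y 0‖ ≤ 5.1 ∧ ‖Φ (P y l) - Φ (P y 0)‖ ≤ 5.1 * κ ^ 9 := by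
  have hm := P_mem hL hθ1 hθ0 h l hl
  have hm0 := P_mem hL hθ1 hθ0 h 0 (by norm_num)
  have hmv : ‖Φ (P y l) - Φ (P y 0)‖ ≤ κ ^ 9 * ‖P y l - P y 0‖ :=
    (box_convex L).norm_image_sub_le_of_norm_fderiv_le (fun p _ => hΦ.diff p) hΦ.slope hm0 hm
  have hκ9 : κ ^ 9 ≤ 1 / 1000 := by
    calc κ ^ 9 ≤ (1 / 10 ^ 12) ^ 9 := by gcongr
      _ ≤ _ := by norm_num
  have hκ90 : 0 < κ ^ 9 := by positivity
  have hN : ‖P y l - P y 0‖ ≤ 5.1 := by
    by_contra hcon
    push Not at hcon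
    obtain ⟨h1, h2⟩ := small_xs hθ1 hθ0 h l hl
    obtain ⟨h1', h2'⟩ := small_xs hθ1 hθ0 h 0 (by norm_num)
    obtain ⟨q1, q2, q3⟩ := q_abs l
    have s := sg_abs l
    have e1 : |(P y l - P y 0).1| ≤ 4.1 := by
      have : (P y l - P y 0).1 = (q l).1 + sg l * (y l).1 - (y 0).1 := by
        simp [P, R, q, sg]
      rw [this]
      refine (abs_sub _ _).trans ?_
      have := abs_add_le (q l).1 (sg l * (y l).1)
      rw [abs_mul, s] at this
      linarith
    have e2 : |(P y l - P y 0).2.1| ≤ 4.1 := by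
      have : (P y l - P y 0).2.1 = (q l).2.1 + sg l * (y l).2.1 - (y 0).2.1 := by
        simp [P, R, q, sg]
      rw [this]
      refine (abs_sub _ _).trans ?_
      have := abs_add_le (q l).2.1 (sg l * (y l).2.1)
      rw [abs_mul, s] at this
      linarith
    have e3 : |(P y l - P y 0).2.2| ≤ 5 + κ ^ 9 * ‖P y l - P y 0‖ := by
      have h3 := z3 h l hl
      have h30 := z3 h 0 (by norm_num)
      have : (P y l - P y 0).2.2 = (q l).2.2 + (z l).2.2 - (z 0).2.2 -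
          (Φ (P y l) - Φ (P y 0)).2.2 := by
        have e : (P y l - P y 0).2.2 = (q l).2.2 + (y l).2.2 - (y 0).2.2 := by
          simp [P, R, q]
        rw [e, h3, h30]
        simp only [Prod.snd_sub]
        ring
      rw [this]
      have a1 := h.zξ l hl
      have a2 := h.zξ 0 (by norm_num)
      have a3 := (c3 (Φ (P y l) - Φ (P y 0))).trans hmv
      have b1 := abs_sub ((q l).2.2 + (z l).2.2 - (z 0).2.2) ((Φ (P y l) - Φ (P y 0)).2.2)
      have b2 := abs_sub ((q l).2.2 + (z l).2.2) ((z 0).2.2)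
      have b3 := abs_add_le (q l).2.2 (z l).2.2
      linarith
    have : ‖P y l - P y 0‖ ≤ 5 + κ ^ 9 * ‖P y l - P y 0‖ := by
      have h0 : 0 ≤ κ ^ 9 * ‖P y l - P y 0‖ := by positivity
      exact norm_le3 (by linarith) (by linarith) e3
    have h9 : κ ^ 9 * ‖P y l - P y 0‖ ≤ 1 / 1000 * ‖P y l - P y 0‖ := by gcongr
    linarith
  refine ⟨hN, hmv.trans ?_⟩
  nlinarith

lemma phase1 (hκ : 0 < κ) (hκ' : κ ≤ 1 / 10 ^ 12) (hθ : θ = κ ^ 24) (hL : 8 ≤ L)
    (hω : Wind κ θ ω) (hΦ : Ret α κ θ L Φ) (h : Cycle θ L ω Φ y z) :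
    (∑ l ∈ Finset.range 8, ω (z l)) ≤ 50 * κ ^ 9 ∧ ∀ l, l ≤ 7 → ‖z l‖ ≤ κ ^ 3 := by
  have hκ1 : κ ≤ 1 := hκ'.trans (by norm_num)
  have hθ0 : 0 < θ := by rw [hθ]; positivity
  have hκ3 : κ ^ 3 ≤ 1 / 10 ^ 36 := by
    calc κ ^ 3 ≤ (1 / 10 ^ 12) ^ 3 := by gcongr
      _ = 1 / 10 ^ 36 := by norm_num
  have hθ3 : θ ≤ κ ^ 3 := by
    rw [hθ]
    exact pow_le_pow_of_le_one hκ.le hκ1 (by norm_num)
  have hθs : θ ≤ 1 / 10 ^ 36 := hθ3.trans hκ3
  have hκ90 : 0 < κ ^ 9 := by positivity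
  have hθ9 : θ ≤ κ ^ 9 / 100 := by
    rw [hθ, show κ ^ 24 = κ ^ 15 * κ ^ 9 by ring]
    have : κ ^ 15 ≤ 1 / 100 := by
      calc κ ^ 15 ≤ κ ^ 3 := pow_le_pow_of_le_one hκ.le hκ1 (by norm_num)
        _ ≤ _ := hκ3.trans (by norm_num)
    nlinarith
  have he : θ ^ 10 ≤ θ := by
    calc θ ^ 10 ≤ θ ^ 1 := pow_le_pow_of_le_one hθ0.le (hθs.trans (by norm_num)) (by norm_num)
      _ = θ := pow_one θ
  have hT : (∑ l ∈ Finset.range 8, ω (z l)) ≤ 50 * κ ^ 9 := by
    have h1 := xsum h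
    have hs0 : ∑ l ∈ Finset.range 8, sg l = 0 := by
      simp [Finset.sum_range_succ, sg]
    have h2 : (∑ l ∈ Finset.range 8, sg l * (Φ (P y l)).1) =
        ∑ l ∈ Finset.range 8, sg l * (Φ (P y l) - Φ (P y 0)).1 := by
      simp only [Prod.fst_sub, mul_sub, Finset.sum_sub_distrib, ← Finset.sum_mul, hs0]
      ring
    have h3 : |∑ l ∈ Finset.range 8, sg l * (Φ (P y l) - Φ (P y 0)).1| ≤ 8 * (5.1 * κ ^ 9) := by
      refine (Finset.abs_sum_le_sum_abs _ _).trans ?_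
      calc _ ≤ ∑ l ∈ Finset.range 8, (5.1 * κ ^ 9) := by
            apply Finset.sum_le_sum
            intro l hl
            rw [Finset.mem_range] at hl
            rw [abs_mul, sg_abs, one_mul]
            exact (c1 _).trans (P_diff hκ hκ' hL hθs hθ0 hΦ h l (by omega)).2
        _ = _ := by simp
    rw [h2] at h1
    have h4 := abs_le.mp h1
    have h5 := abs_le.mp h3
    have h6 := abs_le.mp h.y8
    have h7 := abs_le.mp h.y0x
    linarith
  refine ⟨hT, fun l hl => ?_⟩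
  have hωl : ω (z l) ≤ 50 * κ ^ 9 := by
    refine le_trans ?_ hT
    exact Finset.single_le_sum (f := fun l => ω (z l)) (fun i _ => hω.nonneg _)
      (Finset.mem_range.mpr (by omega))
  by_cases h1 : ‖z l‖ < 15 * θ
  · have : 15 * θ ≤ κ ^ 3 := by
      rw [hθ, show κ ^ 24 = κ ^ 21 * κ ^ 3 by ring]
      have : κ ^ 21 ≤ 1 / 100 := by
        calc κ ^ 21 ≤ κ ^ 3 := pow_le_pow_of_le_one hκ.le hκ1 (by norm_num)
          _ ≤ _ := hκ3.trans (by norm_num)
      have : 0 < κ ^ 3 := by positivity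
      nlinarith
    linarith
  · push Not at h1
    have hκ8 : κ ^ 8 ≤ 1 / 1000 := by
      calc κ ^ 8 ≤ κ ^ 3 := pow_le_pow_of_le_one hκ.le hκ1 (by norm_num)
        _ ≤ _ := hκ3.trans (by norm_num)
    by_cases h2 : 1 ≤ ‖z l‖
    · exfalso
      have h3 := hω.low' (z l) h2
      have h4 : κ / 4 ≤ 50 * κ ^ 9 := h3.trans hωl
      rw [show 50 * κ ^ 9 = κ * (50 * κ ^ 8) by ring] at h4
      nlinarith
    · push Not at h2
      have h3 := (hω.low (z l) h1 h2.le).trans hωl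
      have h4 : κ * ‖z l‖ ^ 2 ≤ κ * (200 * κ ^ 8) := by
        rw [show κ * (200 * κ ^ 8) = 4 * (50 * κ ^ 9) by ring]
        linarith
      have h5 : ‖z l‖ ^ 2 ≤ 200 * κ ^ 8 := le_of_mul_le_mul_left h4 hκ
      have h6 : ‖z l‖ ^ 2 ≤ (κ ^ 3) ^ 2 := by
        calc ‖z l‖ ^ 2 ≤ 200 * κ ^ 8 := h5
          _ = (200 * κ ^ 2) * κ ^ 6 := by ring
          _ ≤ 1 * κ ^ 6 := by
              gcongr
              have : κ ^ 2 ≤ (1 / 10 ^ 12) ^ 2 := by gcongr
              linarith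
          _ = (κ ^ 3) ^ 2 := by ring
      exact (pow_le_pow_iff_left₀ (norm_nonneg _) (by positivity) (by norm_num)).mp h6

end

end ModB

open ModB in

/-- Module B -/
theorem modB {α κ θ L : ℝ} (hκ : 0 < κ) (hκ' : κ ≤ 1 / 10 ^ 12) (hθ : θ = κ ^ 24) (hL : 8 ≤ L)
    {ω : E → ℝ} (hω : Wind κ θ ω) {Φ : E → E} (hΦ : Ret α κ θ L Φ) {y z : ℕ → E}
    (h : Cycle θ L ω Φ y z) :
    ‖Φ 0‖ ≤ 16 * κ ^ 11 ∧ ‖fderiv ℝ Φ 0‖ ≤ 24 * κ ^ 11 ∧ ‖y 0‖ ≤ 40 * κ ^ 11 := by
  classical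
  obtain ⟨hT50, hz⟩ := phase1 hκ hκ' hθ hL hω hΦ h
  have hκ1 : κ ≤ 1 := hκ'.trans (by norm_num)
  have hθ0 : 0 < θ := by rw [hθ]; positivity
  have hκ3 : κ ^ 3 ≤ 1 / 10 ^ 36 := by
    calc κ ^ 3 ≤ (1 / 10 ^ 12) ^ 3 := by gcongr
      _ = 1 / 10 ^ 36 := by norm_num
  have hθ3 : θ ≤ κ ^ 3 := by
    rw [hθ]
    exact pow_le_pow_of_le_one hκ.le hκ1 (by norm_num)
  have hθs : θ ≤ 1 / 10 ^ 36 := hθ3.trans hκ3
  have hκ9 : κ ^ 9 ≤ κ ^ 3 := pow_le_pow_of_le_one hκ.le hκ1 (by norm_num)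
  have hκ90 : 0 < κ ^ 9 := by positivity
  set e : ℝ := θ ^ 10 with he
  set eA : ℝ := 25 / 10 ^ 9 * θ with heA
  have heθ : e ≤ θ := by
    calc θ ^ 10 ≤ θ ^ 1 := pow_le_pow_of_le_one hθ0.le (hθs.trans (by norm_num)) (by norm_num)
      _ = θ := pow_one θ
  have he0 : 0 ≤ e := by positivity
  have heA0 : 0 ≤ eA := by positivity
  set T : ℝ := ∑ l ∈ Finset.range 8, ω (z l) with hTd
  have hT0 : 0 ≤ T := Finset.sum_nonneg fun l _ => hω.nonneg _
  have hωT : ∀ l, l ≤ 7 → ω (z l) ≤ T := fun l hl =>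
    Finset.single_le_sum (f := fun l => ω (z l)) (fun i _ => hω.nonneg _)
      (Finset.mem_range.mpr (by omega))
  have hTs : T ≤ 1 / 10 ^ 20 := by linarith
  -- the maximal displacement
  obtain ⟨l0, hl0, hmax⟩ := Finset.exists_max_image (Finset.range 8) (fun l => ‖z l‖)
    ⟨0, by simp⟩
  rw [Finset.mem_range] at hl0
  set D : ℝ := ‖z l0‖ with hDd
  have hD : ∀ l, l ≤ 7 → ‖z l‖ ≤ D := fun l hl => hmax l (Finset.mem_range.mpr (by omega))
  have hD0 : 0 ≤ D := norm_nonneg _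
  have hDκ : D ≤ κ ^ 3 := hz l0 (by omega)
  have hTD : T ≤ 8 / 10 ^ 11 * D ^ 2 := by
    calc T ≤ ∑ l ∈ Finset.range 8, 1 / 10 ^ 11 * D ^ 2 := by
          apply Finset.sum_le_sum
          intro l hl
          rw [Finset.mem_range] at hl
          refine (hω.up2 _).trans ?_
          have := hD l (by omega)
          gcongr
      _ = 8 / 10 ^ 11 * D ^ 2 := by simp; ring
  have hlow : 15 * θ ≤ D → κ / 4 * D ^ 2 ≤ T := fun h1 =>
    (hω.low _ h1 (by linarith)).trans (hωT l0 (by omega))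
  -- exact transport
  have hnext : ∀ l, l ≤ 7 → |(y (l + 1)).1 - ((z l).1 + ω (z l))| ≤ e ∧
      |(y (l + 1)).2.1 - (z l).2.1| ≤ e ∧ |(y (l + 1)).2.2 - (z l).2.2| ≤ e := by
    intro l hl
    have h1 := hz l hl
    have h2 := hωT l hl
    have h3 := hω.nonneg (z l)
    refine ⟨h.nx l hl, h.gentle l hl ?_ ?_ ?_⟩
    · refine (abs_add_le _ _).trans ?_
      rw [abs_of_nonneg h3]
      have := c1 (z l)
      linarith
    · have := c2 (z l)
      linarith
    · have := c3 (z l)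
      linarith
  have hynext : ∀ l, l ≤ 7 → ‖y (l + 1)‖ ≤ D + T + e := by
    intro l hl
    obtain ⟨n1, n2, n3⟩ := hnext l hl
    have h2 := hωT l hl
    have h3 := hω.nonneg (z l)
    have h4 := hD l hl
    have k1 := c1 (z l)
    have k2 := c2 (z l)
    have k3 := c3 (z l)
    refine norm_le3 ?_ ?_ ?_
    · have : (y (l + 1)).1 = ((y (l + 1)).1 - ((z l).1 + ω (z l))) + (z l).1 + ω (z l) := by ring
      rw [this]
      have b1 := abs_add_le (((y (l + 1)).1 - ((z l).1 + ω (z l))) + (z l).1) (ω (z l))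
      have b2 := abs_add_le ((y (l + 1)).1 - ((z l).1 + ω (z l))) (z l).1
      rw [abs_of_nonneg h3] at b1
      linarith
    · have : (y (l + 1)).2.1 = ((y (l + 1)).2.1 - (z l).2.1) + (z l).2.1 := by ring
      rw [this]
      refine (abs_add_le _ _).trans ?_
      linarith
    · have : (y (l + 1)).2.2 = ((y (l + 1)).2.2 - (z l).2.2) + (z l).2.2 := by ring
      rw [this]
      refine (abs_add_le _ _).trans ?_
      linarith
  have hyl : ∀ l, 1 ≤ l → l ≤ 7 → ‖y l‖ ≤ D + T + e := by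
    intro l hl1 hl
    obtain ⟨k, rfl⟩ : ∃ k, l = k + 1 := ⟨l - 1, by omega⟩
    exact hynext k (by omega)
  have hzy : ∀ l, l ≤ 7 → z l - y l = R (sg l) (Φ (P y l)) := by
    intro l hl
    rw [h.hz l hl]
    unfold H718R2.pass P
    abel
  have hΦP : ∀ l, l ≤ 7 → ‖Φ (P y l)‖ = ‖z l - y l‖ := by
    intro l hl
    rw [hzy l hl, H718R2.ModB.R_norm]
  have hy0small : ‖y 0‖ ≤ 1 / 1000 := by
    have h1 := (P_diff hκ hκ' hL hθs hθ0 hΦ h 1 (by norm_num)).2
    have h2 := hΦP 1 (by norm_num)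
    have h3 : ‖z 1 - y 1‖ ≤ D + (D + T + e) :=
      (norm_sub_le _ _).trans (add_le_add (hD 1 (by norm_num)) (hyl 1 le_rfl (by norm_num)))
    have h4 : ‖Φ (P y 0)‖ ≤ ‖Φ (P y 1)‖ + ‖Φ (P y 1) - Φ (P y 0)‖ := by
      have : Φ (P y 0) = Φ (P y 1) - (Φ (P y 1) - Φ (P y 0)) := by abel
      calc ‖Φ (P y 0)‖ = ‖Φ (P y 1) - (Φ (P y 1) - Φ (P y 0))‖ := by rw [← this]
        _ ≤ _ := norm_sub_le _ _
    have h5 : ‖y 0‖ ≤ ‖z 0‖ + ‖Φ (P y 0)‖ := by
      have e1 := hΦP 0 (by norm_num)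
      rw [e1]
      have : y 0 = z 0 - (z 0 - y 0) := by abel
      calc ‖y 0‖ = ‖z 0 - (z 0 - y 0)‖ := by rw [← this]
        _ ≤ _ := norm_sub_le _ _
    have h6 := hD 0 (by norm_num)
    linarith
  have hysmall : ∀ l, l ≤ 7 → ‖y l‖ ≤ 1 / 1000 := by
    intro l hl
    rcases Nat.eq_zero_or_pos l with h0 | h0
    · rw [h0]; exact hy0small
    · have := hyl l h0 hl
      linarith
  -- Taylor
  set a : E := Φ 0 with ha
  set B : E →L[ℝ] E := fderiv ℝ Φ 0 with hB
  have h0mem : (0 : E) ∈ Box L := by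
    refine ⟨?_, ?_, ?_⟩ <;> simp <;> linarith
  have hBnorm : ‖B‖ ≤ κ ^ 9 := hΦ.slope 0 h0mem
  have hball : ∀ p : E, ‖p‖ ≤ 5 → p ∈ Box L := by
    intro p hp
    have k1 := c1 p
    have k2 := c2 p
    have k3 := c3 p
    exact ⟨by linarith, by linarith, by linarith⟩
  have htaylor : ∀ p : E, ‖p‖ ≤ 5 → ‖Φ p - a - B p‖ ≤ eA := by
    intro p hp
    have h1 : ‖Φ p - Φ 0 - B (p - 0)‖ ≤ (5 / 10 ^ 9 * θ) * ‖p - 0‖ := by
      apply (convex_closedBall (0 : E) 5).norm_image_sub_le_of_norm_fderiv_le'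
        (fun p _ => hΦ.diff p) _ (by simp) (by simpa using hp)
      intro p' hp'
      rw [mem_closedBall_zero_iff] at hp'
      have := hΦ.lip p' (hball p' hp') 0 h0mem
      rw [sub_zero] at this
      refine this.trans ?_
      have hpw : pw α ‖p'‖ ≤ 5 :=
        (pw_mono hΦ.al.1 (norm_nonneg _) hp').trans (pw_le hΦ.al.2 (by norm_num))
      have hθ9 : θ ^ 9 ≤ 1 / 10 ^ 10 * θ := by
        have h8 : θ ^ 8 ≤ (1 / 10 ^ 36) ^ 8 := pow_le_pow_left₀ hθ0.le hθs 8
        have h9 : θ ^ 9 = θ ^ 8 * θ := by ring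
        rw [h9]
        exact mul_le_mul_of_nonneg_right (h8.trans (by norm_num)) hθ0.le
      have h10 : θ ^ 9 * pw α ‖p'‖ ≤ 1 / 10 ^ 10 * θ * 5 :=
        mul_le_mul hθ9 hpw (pw_nonneg (norm_nonneg _)) (by positivity)
      have h11 : 5 / 10 ^ 10 * θ * ‖p'‖ ≤ 5 / 10 ^ 10 * θ * 5 := by gcongr
      linarith
    rw [sub_zero] at h1
    refine h1.trans ?_
    calc 5 / 10 ^ 9 * θ * ‖p‖ ≤ 5 / 10 ^ 9 * θ * 5 := by gcongr
      _ = eA := by rw [heA]; ring
  have hPn : ∀ l, l ≤ 7 → ‖P y l‖ ≤ 5 := by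
    intro l hl
    refine (norm_add_le _ _).trans ?_
    rw [H718R2.ModB.R_norm]
    have := q_norm l
    have := hysmall l hl
    linarith
  -- the remainder
  set α : ℕ → E := fun l => a + B (q l) with hα
  have hrest : ∀ l, l ≤ 7 → ‖Φ (P y l) - α l - B (R (sg l) (y l))‖ ≤ eA := by
    intro l hl
    have := htaylor (P y l) (hPn l hl)
    have e1 : Φ (P y l) - α l - B (R (sg l) (y l)) = Φ (P y l) - a - B (P y l) := by
      simp only [hα, P, map_add]
      abel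
    rw [e1]
    exact this
  set M : ℝ := 3 * D + 2 * T + 2 * e + eA with hM
  have hM0 : 0 ≤ M := by positivity
  have hαM : ∀ l, 1 ≤ l → l ≤ 7 → ‖α l‖ ≤ M := by
    intro l hl1 hl
    have h1 := hrest l hl
    have h2 := hyl l hl1 hl
    have h3 : ‖B (R (sg l) (y l))‖ ≤ D + T + e := by
      refine (B.le_opNorm _).trans ?_
      rw [H718R2.ModB.R_norm]
      calc ‖B‖ * ‖y l‖ ≤ 1 * (D + T + e) := by
            apply mul_le_mul _ h2 (norm_nonneg _) (by norm_num)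
            linarith
        _ = D + T + e := one_mul _
    have h4 : ‖Φ (P y l)‖ ≤ D + (D + T + e) := by
      rw [hΦP l hl]
      exact (norm_sub_le _ _).trans (add_le_add (hD l hl) h2)
    have e1 : α l = Φ (P y l) - (Φ (P y l) - α l - B (R (sg l) (y l))) -
        B (R (sg l) (y l)) := by abel
    calc ‖α l‖ = ‖Φ (P y l) - (Φ (P y l) - α l - B (R (sg l) (y l))) -
        B (R (sg l) (y l))‖ := by rw [← e1]
      _ ≤ ‖Φ (P y l) - (Φ (P y l) - α l - B (R (sg l) (y l)))‖ + ‖B (R (sg l) (y l))‖ :=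
          norm_sub_le _ _
      _ ≤ (‖Φ (P y l)‖ + ‖Φ (P y l) - α l - B (R (sg l) (y l))‖) + ‖B (R (sg l) (y l))‖ := by
          gcongr
          exact norm_sub_le _ _
      _ ≤ M := by
          rw [hM]
          linarith
  set bx : E := B (1, 0, 0) with hbx
  set bs : E := B (0, 1, 0) with hbs
  set bξ : E := B (0, 0, 1) with hbξ
  have hbsM : ‖bs‖ ≤ M / 2 := by
    have e1 : (4 : ℝ) • bs = α 6 - α 1 := by
      simp only [hα, hbs]
      rw [← map_smul]
      have : (4 : ℝ) • ((0, 1, 0) : E) = q 6 - q 1 := by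
        simp [q]
        norm_num
      rw [this, map_sub]
      abel
    have e2 : ‖(4 : ℝ) • bs‖ ≤ M + M := by
      rw [e1]
      exact (norm_sub_le _ _).trans (add_le_add (hαM 6 (by norm_num) (by norm_num))
        (hαM 1 (by norm_num) (by norm_num)))
    rw [norm_smul] at e2
    norm_num at e2
    linarith
  have hbxM : ‖bx‖ ≤ 3 * M := by
    have e1 : bx = α 3 - α 1 + (2 : ℝ) • bs := by
      simp only [hα, hbs, hbx]
      rw [← map_smul]
      have : ((1, 0, 0) : E) = q 3 - q 1 + (2 : ℝ) • ((0, 1, 0) : E) := by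
        simp [q]
        norm_num
      rw [this, map_add, map_sub]
      abel
    rw [e1]
    refine (norm_add_le _ _).trans ?_
    have e2 : ‖α 3 - α 1‖ ≤ M + M := (norm_sub_le _ _).trans (add_le_add
      (hαM 3 (by norm_num) (by norm_num)) (hαM 1 (by norm_num) (by norm_num)))
    have e3 : ‖(2 : ℝ) • bs‖ = 2 * ‖bs‖ := by rw [norm_smul]; norm_num
    rw [e3]
    linarith
  have hbξM : ‖bξ‖ ≤ 5 / 2 * M := by
    have e1 : bξ = bs - (α 2 - α 3) := by
      simp only [hα, hbs, hbξ]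
      have : ((0, 0, 1) : E) = ((0, 1, 0) : E) - (q 2 - q 3) := by
        simp [q]
        norm_num
      rw [this, map_sub, map_sub]
      abel
    rw [e1]
    refine (norm_sub_le _ _).trans ?_
    have e2 : ‖α 2 - α 3‖ ≤ M + M := (norm_sub_le _ _).trans (add_le_add
      (hαM 2 (by norm_num) (by norm_num)) (hαM 3 (by norm_num) (by norm_num)))
    linarith
  have hB6 : ‖B‖ ≤ 6 * M := by
    apply ContinuousLinearMap.opNorm_le_bound _ (by positivity)
    intro v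
    rw [lin B v]
    have k1 := c1 v
    have k2 := c2 v
    have k3 := c3 v
    calc ‖v.1 • bx + v.2.1 • bs + v.2.2 • bξ‖ ≤ ‖v.1 • bx‖ + ‖v.2.1 • bs‖ + ‖v.2.2 • bξ‖ :=
          norm_add₃_le
      _ = |v.1| * ‖bx‖ + |v.2.1| * ‖bs‖ + |v.2.2| * ‖bξ‖ := by
          rw [norm_smul, norm_smul, norm_smul]; rfl
      _ ≤ ‖v‖ * (3 * M) + ‖v‖ * (M / 2) + ‖v‖ * (5 / 2 * M) := by gcongr
      _ = 6 * M * ‖v‖ := by ring
  have ha4 : ‖a‖ ≤ 4 * M := by
    have e1 : a = α 1 + bs - bξ := by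
      simp only [hα, hbs, hbξ]
      have : q 1 = ((0, 0, 1) : E) - ((0, 1, 0) : E) := by
        simp [q]
      rw [this, map_sub]
      abel
    rw [e1]
    refine (norm_sub_le _ _).trans ?_
    have e2 := norm_add_le (α 1) bs
    have e3 := hαM 1 (by norm_num) (by norm_num)
    linarith
  have hDM : D ≤ M := by rw [hM]; linarith
  have hy12 : ∀ l, l ≤ 7 → ‖y l‖ ≤ 12 * M := by
    intro l hl
    rcases Nat.eq_zero_or_pos l with h0 | h0
    · rw [h0]
      have h1 := hrest 0 (by norm_num)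
      have h2 : ‖B (R (sg 0) (y 0))‖ ≤ 6 * M * (1 / 1000) := by
        refine (B.le_opNorm _).trans ?_
        rw [H718R2.ModB.R_norm]
        gcongr
      have h3 : α 0 = a := by
        simp only [hα]
        have : q 0 = 0 := rfl
        rw [this, map_zero, add_zero]
      rw [h3] at h1
      have h4 : ‖Φ (P y 0)‖ ≤ eA + 4 * M + 6 * M * (1 / 1000) := by
        have e1 : Φ (P y 0) = (Φ (P y 0) - a - B (R (sg 0) (y 0))) + a +
          B (R (sg 0) (y 0)) := by abel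
        rw [e1]
        refine norm_add₃_le.trans ?_
        linarith
      have h5 : ‖y 0‖ ≤ ‖z 0‖ + ‖Φ (P y 0)‖ := by
        have e1 := hΦP 0 (by norm_num)
        rw [e1]
        have : y 0 = z 0 - (z 0 - y 0) := by abel
        calc ‖y 0‖ = ‖z 0 - (z 0 - y 0)‖ := by rw [← this]
          _ ≤ _ := norm_sub_le _ _
      have h6 := hD 0 (by norm_num)
      have h7 : eA ≤ M := by rw [hM]; linarith
      linarith
    · have h1 := hyl l h0 hl
      have h2 : D + T + e ≤ M := by rw [hM]; linarith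
      linarith
  -- one step
  have hδ : ∀ l, l ≤ 7 → ‖Φ (P y l) - α l‖ ≤ 72 * M ^ 2 + eA := by
    intro l hl
    have h1 := hrest l hl
    have h2 : ‖B (R (sg l) (y l))‖ ≤ 6 * M * (12 * M) := by
      refine (B.le_opNorm _).trans ?_
      rw [H718R2.ModB.R_norm]
      have := hy12 l hl
      gcongr
    have e1 : Φ (P y l) - α l = (Φ (P y l) - α l - B (R (sg l) (y l))) +
      B (R (sg l) (y l)) := by abel
    rw [e1]
    refine (norm_add_le _ _).trans ?_
    nlinarith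
  set gx : ℕ → ℝ := fun j => (y (j + 1)).1 - (y j).1 - sg j * (α j).1 with hgx
  set gs : ℕ → ℝ := fun j => (y (j + 1)).2.1 - (y j).2.1 - sg j * (α j).2.1 with hgs
  set gξ : ℕ → ℝ := fun j => (y (j + 1)).2.2 - (y j).2.2 - (α j).2.2 with hgξ
  have hgxb : ∀ j, j ≤ 7 → |gx j| ≤ 72 * M ^ 2 + eA + e + ω (z j) := by
    intro j hj
    obtain ⟨n1, n2, n3⟩ := hnext j hj
    have h1 := z1 h j hj
    have h2 := hδ j hj
    have h3 := hω.nonneg (z j)
    have e1 : gx j = ((y (j + 1)).1 - ((z j).1 + ω (z j))) + ω (z j) +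
        sg j * (Φ (P y j) - α j).1 := by
      simp only [hgx, Prod.fst_sub]
      rw [h1]
      ring
    rw [e1]
    have k1 := c1 (Φ (P y j) - α j)
    have b1 := abs_add_le (((y (j + 1)).1 - ((z j).1 + ω (z j))) + ω (z j))
      (sg j * (Φ (P y j) - α j).1)
    have b2 := abs_add_le ((y (j + 1)).1 - ((z j).1 + ω (z j))) (ω (z j))
    rw [abs_mul, sg_abs, one_mul] at b1
    rw [abs_of_nonneg h3] at b2
    linarith
  have hgsb : ∀ j, j ≤ 7 → |gs j| ≤ 72 * M ^ 2 + eA + e + ω (z j) := by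
    intro j hj
    obtain ⟨n1, n2, n3⟩ := hnext j hj
    have h1 := z2 h j hj
    have h2 := hδ j hj
    have h3 := hω.nonneg (z j)
    have e1 : gs j = ((y (j + 1)).2.1 - (z j).2.1) +
        sg j * (Φ (P y j) - α j).2.1 := by
      simp only [hgs, Prod.fst_sub, Prod.snd_sub]
      rw [h1]
      ring
    rw [e1]
    have k1 := c2 (Φ (P y j) - α j)
    have b1 := abs_add_le ((y (j + 1)).2.1 - (z j).2.1) (sg j * (Φ (P y j) - α j).2.1)
    rw [abs_mul, sg_abs, one_mul] at b1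
    linarith
  have hgξb : ∀ j, j ≤ 7 → |gξ j| ≤ 72 * M ^ 2 + eA + e + ω (z j) := by
    intro j hj
    obtain ⟨n1, n2, n3⟩ := hnext j hj
    have h1 := z3 h j hj
    have h2 := hδ j hj
    have h3 := hω.nonneg (z j)
    have e1 : gξ j = ((y (j + 1)).2.2 - (z j).2.2) + (Φ (P y j) - α j).2.2 := by
      simp only [hgξ, Prod.snd_sub]
      rw [h1]
      ring
    rw [e1]
    have k1 := c3 (Φ (P y j) - α j)
    have b1 := abs_add_le ((y (j + 1)).2.2 - (z j).2.2) ((Φ (P y j) - α j).2.2)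
    linarith
  set dev : ℝ := 504 * M ^ 2 + 7 * eA + T + 7 * e with hdev
  have hsum : ∀ g : ℕ → ℝ, (∀ j, j ≤ 7 → |g j| ≤ 72 * M ^ 2 + eA + e + ω (z j)) →
      ∑ j ∈ Finset.range 7, |g j| ≤ dev := by
    intro g hg
    calc ∑ j ∈ Finset.range 7, |g j| ≤
          ∑ j ∈ Finset.range 7, (72 * M ^ 2 + eA + e + ω (z j)) := by
          apply Finset.sum_le_sum
          intro j hj
          rw [Finset.mem_range] at hj
          exact hg j (by omega)
      _ = 7 * (72 * M ^ 2 + eA + e) + ∑ j ∈ Finset.range 7, ω (z j) := by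
          rw [Finset.sum_add_distrib]
          simp
          ring
      _ ≤ 7 * (72 * M ^ 2 + eA + e) + T := by
          rw [hTd, Finset.sum_range_succ _ 7]
          have := hω.nonneg (z 7)
          linarith
      _ = dev := by rw [hdev]; ring
  have hαx : ∀ l, (α l).1 = a.1 + (q l).1 * bx.1 + (q l).2.1 * bs.1 + (q l).2.2 * bξ.1 := by
    intro l
    simp only [hα]
    rw [lin B (q l)]
    simp only [Prod.fst_add, Prod.smul_fst, smul_eq_mul]
    ring
  have hαs : ∀ l, (α l).2.1 = a.2.1 + (q l).1 * bx.2.1 + (q l).2.1 * bs.2.1 +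
      (q l).2.2 * bξ.2.1 := by
    intro l
    simp only [hα]
    rw [lin B (q l)]
    simp only [Prod.fst_add, Prod.snd_add, Prod.smul_fst, Prod.smul_snd, smul_eq_mul]
    ring
  have hαξ : ∀ l, (α l).2.2 = a.2.2 + (q l).1 * bx.2.2 + (q l).2.1 * bs.2.2 +
      (q l).2.2 * bξ.2.2 := by
    intro l
    simp only [hα]
    rw [lin B (q l)]
    simp only [Prod.snd_add, Prod.smul_snd, smul_eq_mul]
    ring
  clear_value bx bs bξ a α
  have hw : ∀ g : ℕ → ℝ, |∑ j ∈ Finset.range 7, (7 - (j : ℝ)) * g j| ≤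
      7 * ∑ j ∈ Finset.range 7, |g j| := by
    intro g
    refine (Finset.abs_sum_le_sum_abs _ _).trans ?_
    rw [Finset.mul_sum]
    apply Finset.sum_le_sum
    intro j hj
    rw [Finset.mem_range] at hj
    rw [abs_mul]
    apply mul_le_mul_of_nonneg_right _ (abs_nonneg _)
    have : (j : ℝ) ≤ 6 := by exact_mod_cast (by omega : j ≤ 6)
    have : (0 : ℝ) ≤ j := by positivity
    rw [abs_le]
    constructor <;> linarith
  have hS1 : |∑ l ∈ Finset.range 8, (y l).1| ≤ 48 * θ + 7 * dev := by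
    have e1 : ∑ l ∈ Finset.range 8, (y l).1 = 8 * (y 0).1 +
        ∑ j ∈ Finset.range 7, (7 - (j : ℝ)) * gx j := by
      simp only [Finset.sum_range_succ, Finset.sum_range_zero, hgx, hαx, sg, q]
      push_cast
      ring
    rw [e1]
    refine (abs_add_le _ _).trans ?_
    have h1 := hw gx
    have h2 := hsum gx hgxb
    have h3 := h.y0x
    rw [abs_mul]
    norm_num
    linarith
  have hS2 : |∑ l ∈ Finset.range 8, (y l).2.1| ≤ 48 * θ + 7 * dev := by
    have e1 : ∑ l ∈ Finset.range 8, (y l).2.1 = 8 * (y 0).2.1 +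
        ∑ j ∈ Finset.range 7, (7 - (j : ℝ)) * gs j := by
      simp only [Finset.sum_range_succ, Finset.sum_range_zero, hgs, hαs, sg, q]
      push_cast
      ring
    rw [e1]
    refine (abs_add_le _ _).trans ?_
    have h1 := hw gs
    have h2 := hsum gs hgsb
    have h3 := h.y0y
    rw [abs_mul]
    norm_num
    linarith
  have hS3 : |∑ l ∈ Finset.range 8, sg l * (y l).2.2| ≤ dev := by
    have e1 : ∑ l ∈ Finset.range 8, sg l * (y l).2.2 = -gξ 0 + gξ 2 - gξ 4 + gξ 6 := by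
      simp only [Finset.sum_range_succ, Finset.sum_range_zero, hgξ, hαξ, sg, q]
      ring
    have h2 := hsum gξ hgξb
    rw [e1]
    simp only [Finset.sum_range_succ, Finset.sum_range_zero] at h2
    have b1 := abs_le.mp (le_refl |gξ 0|)
    have b2 := abs_le.mp (le_refl |gξ 2|)
    have b3 := abs_le.mp (le_refl |gξ 4|)
    have b4 := abs_le.mp (le_refl |gξ 6|)
    have b5 := abs_nonneg (gξ 1)
    have b6 := abs_nonneg (gξ 3)
    have b7 := abs_nonneg (gξ 5)
    rw [abs_le]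
    constructor <;> linarith
  -- the main sum
  have hdev0 : 0 ≤ dev := by positivity
  have hmain : |∑ l ∈ Finset.range 8, sg l * (Φ (P y l)).1| ≤
      3 * M * (48 * θ + 7 * dev) + M / 2 * (48 * θ + 7 * dev) + 5 / 2 * M * dev + 8 * eA := by
    have e1 : ∑ l ∈ Finset.range 8, sg l * (Φ (P y l)).1 =
        (∑ l ∈ Finset.range 8, sg l * (α l).1) +
        (bx.1 * (∑ l ∈ Finset.range 8, (y l).1) + bs.1 * (∑ l ∈ Finset.range 8, (y l).2.1) +
          bξ.1 * (∑ l ∈ Finset.range 8, sg l * (y l).2.2)) +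
        ∑ l ∈ Finset.range 8, sg l * (Φ (P y l) - α l - B (R (sg l) (y l))).1 := by
      rw [Finset.mul_sum, Finset.mul_sum, Finset.mul_sum, ← Finset.sum_add_distrib,
        ← Finset.sum_add_distrib, ← Finset.sum_add_distrib, ← Finset.sum_add_distrib]
      apply Finset.sum_congr rfl
      intro l _
      rw [lin B (R (sg l) (y l)), ← hbx, ← hbs, ← hbξ]
      have hs : sg l * sg l = 1 := by
        have := sg_abs l
        rw [← abs_mul_abs_self, this, one_mul]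
      simp only [Prod.fst_sub, Prod.fst_add, Prod.smul_fst, smul_eq_mul, R]
      linear_combination ((y l).1 * bx.1 + (y l).2.1 * bs.1) * hs
    have e2 : ∑ l ∈ Finset.range 8, sg l * (α l).1 = 0 := by
      simp only [Finset.sum_range_succ, Finset.sum_range_zero, hαx, sg, q]
      ring
    rw [e1, e2, zero_add]
    have h1 : |∑ l ∈ Finset.range 8, sg l * (Φ (P y l) - α l - B (R (sg l) (y l))).1| ≤
        8 * eA := by
      refine (Finset.abs_sum_le_sum_abs _ _).trans ?_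
      calc _ ≤ ∑ l ∈ Finset.range 8, eA := by
            apply Finset.sum_le_sum
            intro l hl
            rw [Finset.mem_range] at hl
            rw [abs_mul, sg_abs, one_mul]
            exact (c1 _).trans (hrest l (by omega))
        _ = 8 * eA := by simp
    refine (abs_add_le _ _).trans (add_le_add ?_ h1)
    refine (abs_add_three _ _ _).trans ?_
    rw [abs_mul, abs_mul, abs_mul]
    have k1 := (c1 bx).trans hbxM
    have k2 := (c1 bs).trans hbsM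
    have k3 := (c1 bξ).trans hbξM
    gcongr
  have hup : T ≤ 11 * θ + 240 * M * θ + 48 * M * (504 * M ^ 2 + 7 * eA + T + 7 * e) +
      8 * eA + 8 * e := by
    have h1 := abs_le.mp (xsum h)
    rw [← hTd] at h1
    have h2 := abs_le.mp hmain
    have h3 := abs_le.mp h.y8
    have h4 := abs_le.mp h.y0x
    rw [← hdev]
    have h5 : 0 ≤ M * θ := by positivity
    have h6 : 0 ≤ M * dev := by positivity
    nlinarith
  have hfin := endgame hκ hκ' hθ he heA hD0 hDκ hT0 hTD hM hlow hup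
  have hκ11 : 0 < κ ^ 11 := by positivity
  refine ⟨?_, ?_, ?_⟩
  · linarith
  · linarith
  · have := hy12 0 (by norm_num)
    linarith

end Pool.Agent.Y640.CLA
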