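import Pool.Agent.Y640.CLA.Defs
import Pool.Agent.H718R2.C

open Pool.Agent.H718R2 Pool.Agent.H718R2.ModC

namespace Pool.Agent.Y640.CLA

namespace ModC

/-- calculus of maps `id + φ` -/
structure Near (α ρ A a b c : ℝ) (φ : E → E) : Prop where
  al : 0 < α ∧ α ≤ 1
  diff : Differentiable ℝ φ
  b0 : ∀ z, ‖z‖ ≤ ρ → ‖φ z‖ ≤ A
  b1 : ∀ z, ‖z‖ ≤ ρ → ‖fderiv ℝ φ z‖ ≤ a
  b2 : ∀ z w, ‖z‖ ≤ ρ → ‖w‖ ≤ ρ →
    ‖fderiv ℝ φ z - fderiv ℝ φ w‖ ≤ b * ‖z - w‖ + c * pw α ‖z - w‖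

theorem Near.mono {α ρ A a b c ρ' A' a' b' c' : ℝ} {φ : E → E} (h : Near α ρ A a b c φ)
    (hρ : ρ' ≤ ρ) (hA : A ≤ A') (ha : a ≤ a') (hb : b ≤ b') (hc : c ≤ c') :
    Near α ρ' A' a' b' c' φ where
  al := h.al
  diff := h.diff
  b0 := fun z hz => (h.b0 z (hz.trans hρ)).trans hA
  b1 := fun z hz => (h.b1 z (hz.trans hρ)).trans ha
  b2 := fun z w hz hw => (h.b2 z w (hz.trans hρ) (hw.trans hρ)).trans
    (add_le_add (mul_le_mul_of_nonneg_right hb (norm_nonneg _))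
      (mul_le_mul_of_nonneg_right hc (pw_nonneg (norm_nonneg _))))

theorem Near.lip {α ρ A a b c : ℝ} {φ : E → E} (h : Near α ρ A a b c φ) {z w : E} (hz : ‖z‖ ≤ ρ)
    (hw : ‖w‖ ≤ ρ) : ‖φ z - φ w‖ ≤ a * ‖z - w‖ := by
  refine Convex.norm_image_sub_le_of_norm_fderiv_le (𝕜 := ℝ) (s := Metric.closedBall (0:E) ρ)
    (fun x _ => h.diff x) (fun x hx => h.b1 x (by simpa using hx)) (convex_closedBall _ _)
    (by simpa using hw) (by simpa using hz)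

theorem Near.step {α ρ A a b c ρ' A' a' b' c' : ℝ} {φ ψ : E → E} (h : Near α ρ A a b c φ)
    (h' : Near α ρ' A' a' b' c' ψ) (hρ : ρ + A ≤ ρ') (ha : 0 ≤ a) (ha' : 0 ≤ a') (hb' : 0 ≤ b')
    (hc' : 0 ≤ c') :
    Near α ρ (A + A') (a + a' * (1 + a)) (b + (b' * (1 + a) ^ 2 + a' * b))
      (c + (c' * (1 + a) ^ 2 + a' * c))
      (fun ζ => φ ζ + ψ (ζ + φ ζ)) := by
  have hd : ∀ z, HasFDerivAt (fun ζ => φ ζ + ψ (ζ + φ ζ))
      (fderiv ℝ φ z + (fderiv ℝ ψ (z + φ z)).comp (ContinuousLinearMap.id ℝ E + fderiv ℝ φ z)) z := by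
    intro z
    have h1 := (h.diff z).hasFDerivAt
    have h2 : HasFDerivAt (fun ζ => ζ + φ ζ) (ContinuousLinearMap.id ℝ E + fderiv ℝ φ z) z :=
      (hasFDerivAt_id z).add h1
    exact h1.add ((h'.diff (z + φ z)).hasFDerivAt.comp z h2)
  have hin : ∀ z, ‖z‖ ≤ ρ → ‖z + φ z‖ ≤ ρ' := fun z hz =>
    (norm_add_le _ _).trans ((add_le_add hz (h.b0 z hz)).trans hρ)
  have hI : ∀ z, ‖z‖ ≤ ρ → ‖ContinuousLinearMap.id ℝ E + fderiv ℝ φ z‖ ≤ 1 + a := fun z hz =>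
    (norm_add_le _ _).trans (add_le_add ContinuousLinearMap.norm_id_le (h.b1 z hz))
  have hL : ∀ z w, ‖z‖ ≤ ρ → ‖w‖ ≤ ρ → ‖(z + φ z) - (w + φ w)‖ ≤ (1 + a) * ‖z - w‖ := by
    intro z w hz hw
    have h1 := h.lip hz hw
    have h2 : (z + φ z) - (w + φ w) = (z - w) + (φ z - φ w) := by abel
    rw [h2]
    calc _ ≤ ‖z - w‖ + ‖φ z - φ w‖ := norm_add_le _ _
      _ ≤ ‖z - w‖ + a * ‖z - w‖ := by gcongr
      _ = _ := by ring
  refine ⟨h.al, fun z => (hd z).differentiableAt, ?_, ?_, ?_⟩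
  · intro z hz
    exact (norm_add_le _ _).trans (add_le_add (h.b0 z hz) (h'.b0 _ (hin z hz)))
  · intro z hz
    rw [(hd z).fderiv]
    refine (norm_add_le _ _).trans (add_le_add (h.b1 z hz) ?_)
    refine (ContinuousLinearMap.opNorm_comp_le _ _).trans ?_
    exact mul_le_mul (h'.b1 _ (hin z hz)) (hI z hz) (norm_nonneg _) ha'
  · intro z w hz hw
    rw [(hd z).fderiv, (hd w).fderiv]
    have e1 : (fderiv ℝ φ z + (fderiv ℝ ψ (z + φ z)).comp (ContinuousLinearMap.id ℝ E + fderiv ℝ φ z))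
        - (fderiv ℝ φ w + (fderiv ℝ ψ (w + φ w)).comp (ContinuousLinearMap.id ℝ E + fderiv ℝ φ w))
        = (fderiv ℝ φ z - fderiv ℝ φ w)
          + ((fderiv ℝ ψ (z + φ z) - fderiv ℝ ψ (w + φ w)).comp
              (ContinuousLinearMap.id ℝ E + fderiv ℝ φ z)
            + (fderiv ℝ ψ (w + φ w)).comp (fderiv ℝ φ z - fderiv ℝ φ w)) := by
      refine ContinuousLinearMap.ext fun v => ?_
      simp only [add_apply, sub_apply,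
        ContinuousLinearMap.comp_apply, ContinuousLinearMap.id_apply, map_add, map_sub]
      abel
    rw [e1]
    have n1 := h.b2 z w hz hw
    have hp0 : 0 ≤ pw α ‖z - w‖ := pw_nonneg (norm_nonneg _)
    have hpL : pw α ‖(z + φ z) - (w + φ w)‖ ≤ (1 + a) * pw α ‖z - w‖ :=
      (pw_mono h.al.1 (norm_nonneg _) (hL z w hz hw)).trans
        (pw_scale h.al.2 (by linarith) (norm_nonneg _))
    have n2 : ‖(fderiv ℝ ψ (z + φ z) - fderiv ℝ ψ (w + φ w)).comp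
              (ContinuousLinearMap.id ℝ E + fderiv ℝ φ z)‖ ≤
              b' * (1 + a) ^ 2 * ‖z - w‖ + c' * (1 + a) ^ 2 * pw α ‖z - w‖ := by
      refine (ContinuousLinearMap.opNorm_comp_le _ _).trans ?_
      have := h'.b2 _ _ (hin z hz) (hin w hw)
      calc _ ≤ (b' * ‖(z + φ z) - (w + φ w)‖ + c' * pw α ‖(z + φ z) - (w + φ w)‖) * (1 + a) :=
            mul_le_mul this (hI z hz) (norm_nonneg _)
              (add_nonneg (by positivity) (mul_nonneg hc' (pw_nonneg (norm_nonneg _))))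
        _ ≤ (b' * ((1 + a) * ‖z - w‖) + c' * ((1 + a) * pw α ‖z - w‖)) * (1 + a) := by
            gcongr
            exact hL z w hz hw
        _ = _ := by ring
    have n3 : ‖(fderiv ℝ ψ (w + φ w)).comp (fderiv ℝ φ z - fderiv ℝ φ w)‖ ≤
        a' * b * ‖z - w‖ + a' * c * pw α ‖z - w‖ := by
      refine (ContinuousLinearMap.opNorm_comp_le _ _).trans ?_
      calc _ ≤ a' * (b * ‖z - w‖ + c * pw α ‖z - w‖) :=
            mul_le_mul (h'.b1 _ (hin w hw)) n1 (norm_nonneg _) ha'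
        _ = _ := by ring
    calc _ ≤ ‖fderiv ℝ φ z - fderiv ℝ φ w‖ + (‖(fderiv ℝ ψ (z + φ z) - fderiv ℝ ψ (w + φ w)).comp
              (ContinuousLinearMap.id ℝ E + fderiv ℝ φ z)‖
            + ‖(fderiv ℝ ψ (w + φ w)).comp (fderiv ℝ φ z - fderiv ℝ φ w)‖) :=
          (norm_add_le _ _).trans (by gcongr; exact norm_add_le _ _)
      _ ≤ (b * ‖z - w‖ + c * pw α ‖z - w‖) +
          ((b' * (1 + a) ^ 2 * ‖z - w‖ + c' * (1 + a) ^ 2 * pw α ‖z - w‖) +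
            (a' * b * ‖z - w‖ + a' * c * pw α ‖z - w‖)) := by gcongr
      _ = _ := by ring

/-- `θ ^ 9` is small -/
theorem θ9 {κ θ : ℝ} (hκ : 0 < κ) (hκ' : κ ≤ 1 / 10 ^ 12) (hθ : θ = κ ^ 24) :
    θ ^ 9 ≤ 1 / 10 ^ 10 * θ ∧ θ ^ 10 ≤ 1 / 1000 * θ ^ 9 ∧ 0 < θ ^ 9 := by
  obtain ⟨h0, h1⟩ := θ_small hκ hκ' hθ
  refine ⟨?_, ?_, pow_pos h0 9⟩
  · have h8 : θ ^ 8 ≤ (1 / 10 ^ 24) ^ 8 := pow_le_pow_left₀ h0.le h1 8
    have h9 : θ ^ 9 = θ ^ 8 * θ := by ring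
    rw [h9]
    exact mul_le_mul_of_nonneg_right (h8.trans (by norm_num)) h0.le
  · have h9 : θ ^ 10 = θ * θ ^ 9 := by ring
    rw [h9]
    exact mul_le_mul_of_nonneg_right (h1.trans (by norm_num)) (pow_pos h0 9).le

/-- bound of the derivative of the return map near the pattern -/
theorem lip5 {α κ θ L : ℝ} (hκ : 0 < κ) (hκ' : κ ≤ 1 / 10 ^ 12) (hθ : θ = κ ^ 24) {Φ : E → E}
    (hΦ : Ret α κ θ L Φ) {x y : E} (hx : x ∈ Box L) (hy : y ∈ Box L) (h : ‖x - y‖ ≤ 5) :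
    ‖fderiv ℝ Φ x - fderiv ℝ Φ y‖ ≤ 1 / 10 ^ 9 * θ * 5 := by
  obtain ⟨h0, h1⟩ := θ_small hκ hκ' hθ
  obtain ⟨h2, -, h3⟩ := θ9 hκ hκ' hθ
  have h4 := hΦ.lip x hx y hy
  have hpw : pw α ‖x - y‖ ≤ 5 :=
    (pw_mono hΦ.al.1 (norm_nonneg _) h).trans (pw_le hΦ.al.2 (by norm_num))
  have h5 : θ ^ 9 * pw α ‖x - y‖ ≤ 1 / 10 ^ 10 * θ * 5 :=
    mul_le_mul h2 hpw (pw_nonneg (norm_nonneg _)) (by positivity)
  have h6 : 5 / 10 ^ 10 * θ * ‖x - y‖ ≤ 5 / 10 ^ 10 * θ * 5 := by gcongr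
  linarith

/-- the linear conjugation of a map by `R` with base point -/
theorem near_pass {α κ θ L : ℝ} (hκ : 0 < κ) (hκ' : κ ≤ 1 / 10 ^ 12) (hθ : θ = κ ^ 24) (hL : 8 ≤ L)
    {Φ : E → E} (hΦ : Ret α κ θ L Φ)
    (h0 : ‖Φ 0‖ ≤ 16 * κ ^ 11) (h1 : ‖fderiv ℝ Φ 0‖ ≤ 24 * κ ^ 11) (l : ℕ) :
    Near α (1 / 10 ^ 4) (141 * κ ^ 11) (25 * κ ^ 11) (1 / 10 ^ 9 * θ) (θ ^ 9)
      (fun y => R (sg l) (Φ (q l + R (sg l) y))) := by
  have hθ0 : 0 < θ := by rw [hθ]; positivity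
  have hθ1 : 1 / 10 ^ 9 * θ * 5 ≤ κ ^ 11 := by
    have h2 : κ ^ 24 = κ ^ 11 * κ ^ 13 := by ring
    have h3 : κ ^ 13 ≤ 1 := pow_le_one₀ hκ.le (hκ'.trans (by norm_num))
    rw [hθ, h2]
    nlinarith [pow_pos hκ 11, pow_pos hκ 13, mul_le_mul_of_nonneg_left h3 (pow_pos hκ 11).le]
  -- the convex set
  set S : Set E := Box 8 ∩ Metric.closedBall 0 (5) with hS
  have hconv : Convex ℝ S := by
    refine Convex.inter ?_ (convex_closedBall _ _)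
    intro x hx y hy a b ha hb hab
    simp only [Box, Set.mem_ofPred_eq] at hx hy ⊢
    have key : ∀ u v c : ℝ, |u| ≤ c → |v| ≤ c → |a * u + b * v| ≤ c := by
      intro u v c hu hv
      calc |a * u + b * v| ≤ |a * u| + |b * v| := abs_add_le _ _
        _ = a * |u| + b * |v| := by rw [abs_mul, abs_mul, abs_of_nonneg ha, abs_of_nonneg hb]
        _ ≤ a * c + b * c := by gcongr
        _ = c := by rw [← add_mul, hab, one_mul]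
    exact ⟨key _ _ _ hx.1 hy.1, key _ _ _ hx.2.1 hy.2.1, key _ _ _ hx.2.2 hy.2.2⟩
  have hSB : ∀ p ∈ S, p ∈ Box L := fun p hp =>
    ⟨hp.1.1, hp.1.2.1, hp.1.2.2.trans hL⟩
  have h0S : (0 : E) ∈ S := by
    constructor
    · simp [Box]
    · simp
  have hslope : ∀ p ∈ S, ‖fderiv ℝ Φ p‖ ≤ 25 * κ ^ 11 := by
    intro p hp
    have h3 : ‖p - 0‖ ≤ 5 := by simpa using hp.2
    have h2 := lip5 hκ hκ' hθ hΦ (hSB p hp) (hSB 0 h0S) h3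
    have h4 : ‖fderiv ℝ Φ p‖ ≤ ‖fderiv ℝ Φ p - fderiv ℝ Φ 0‖ + ‖fderiv ℝ Φ 0‖ := by
      simpa using norm_add_le (fderiv ℝ Φ p - fderiv ℝ Φ 0) (fderiv ℝ Φ 0)
    linarith
  have hval : ∀ p ∈ S, ‖Φ p‖ ≤ 141 * κ ^ 11 := by
    intro p hp
    have h2 : ‖Φ p - Φ 0‖ ≤ 25 * κ ^ 11 * ‖p - 0‖ :=
      Convex.norm_image_sub_le_of_norm_fderiv_le (𝕜 := ℝ) (fun x _ => hΦ.diff x)
        (fun x hx => hslope x hx) hconv h0S hp
    have h3 : ‖p - 0‖ ≤ 5 := by simpa using hp.2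
    have h4 : ‖Φ p‖ ≤ ‖Φ p - Φ 0‖ + ‖Φ 0‖ := by
      simpa using norm_add_le (Φ p - Φ 0) (Φ 0)
    have h5 : 25 * κ ^ 11 * ‖p - 0‖ ≤ 25 * κ ^ 11 * 5 :=
      mul_le_mul_of_nonneg_left h3 (by positivity)
    linarith
  have hmem : ∀ y : E, ‖y‖ ≤ 1 / 10 ^ 4 → q l + R (sg l) y ∈ S := by
    intro y hy
    have h2 := q_norm l
    have h3 : ‖R (sg l) y‖ ≤ 1 / 10 ^ 4 := by rw [norm_R (sg_abs l)]; exact hy
    rw [norm_E_le] at h3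
    have k1 := abs_le.1 h3.1
    have k2 := abs_le.1 h3.2.1
    have k3 := abs_le.1 h3.2.2
    have j1 := abs_le.1 h2.1
    have j2 := abs_le.1 h2.2.1
    have j3 := abs_le.1 h2.2.2
    have i1 : |(q l + R (sg l) y).1| ≤ 2 := by
      rw [Prod.fst_add, abs_le]; constructor <;> [skip; skip] <;> nlinarith
    have i2 : |(q l + R (sg l) y).2.1| ≤ 5 := by
      rw [Prod.snd_add, Prod.fst_add, abs_le]; constructor <;> nlinarith
    have i3 : |(q l + R (sg l) y).2.2| ≤ 2 := by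
      rw [Prod.snd_add, Prod.snd_add, abs_le]; constructor <;> nlinarith
    refine ⟨⟨i1.trans (by norm_num), i2.trans (by norm_num), i3.trans (by norm_num)⟩, ?_⟩
    rw [mem_closedBall_zero_iff, norm_E_le]
    exact ⟨i1.trans (by norm_num), i2, i3.trans (by norm_num)⟩
  have hd : ∀ y, HasFDerivAt (fun y => R (sg l) (Φ (q l + R (sg l) y)))
      ((H718R2.ModC.RL (sg l)).comp ((fderiv ℝ Φ (q l + R (sg l) y)).comp (H718R2.ModC.RL (sg l)))) y := by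
    intro y
    have h2 : HasFDerivAt (fun y => q l + H718R2.ModC.RL (sg l) y) (H718R2.ModC.RL (sg l)) y :=
      (H718R2.ModC.RL (sg l)).hasFDerivAt.const_add _
    have h3 := ((hΦ.diff (q l + H718R2.ModC.RL (sg l) y)).hasFDerivAt).comp y h2
    exact ((H718R2.ModC.RL (sg l)).hasFDerivAt).comp y h3
  have hcomp : ∀ A : E →L[ℝ] E, ‖(H718R2.ModC.RL (sg l)).comp (A.comp (H718R2.ModC.RL (sg l)))‖ ≤ ‖A‖ := by
    intro A
    refine (ContinuousLinearMap.opNorm_comp_le _ _).trans ?_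
    have h2 := ContinuousLinearMap.opNorm_comp_le A (H718R2.ModC.RL (sg l))
    have h3 := norm_RL (sg_abs l)
    calc ‖H718R2.ModC.RL (sg l)‖ * ‖A.comp (H718R2.ModC.RL (sg l))‖ ≤ 1 * (‖A‖ * 1) := by
          gcongr
          exact h2.trans (by gcongr)
      _ = ‖A‖ := by ring
  refine ⟨hΦ.al, fun y => (hd y).differentiableAt, ?_, ?_, ?_⟩
  · intro y hy
    rw [norm_R (sg_abs l)]
    exact hval _ (hmem y hy)
  · intro y hy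
    rw [(hd y).fderiv]
    exact (hcomp _).trans (hslope _ (hmem y hy))
  · intro y w hy hw
    rw [(hd y).fderiv, (hd w).fderiv]
    have e1 : (H718R2.ModC.RL (sg l)).comp ((fderiv ℝ Φ (q l + R (sg l) y)).comp (H718R2.ModC.RL (sg l)))
        - (H718R2.ModC.RL (sg l)).comp ((fderiv ℝ Φ (q l + R (sg l) w)).comp (H718R2.ModC.RL (sg l)))
        = (H718R2.ModC.RL (sg l)).comp ((fderiv ℝ Φ (q l + R (sg l) y)
            - fderiv ℝ Φ (q l + R (sg l) w)).comp (H718R2.ModC.RL (sg l))) := by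
      refine ContinuousLinearMap.ext fun v => ?_
      simp only [sub_apply, ContinuousLinearMap.comp_apply, map_sub]
    rw [e1]
    refine (hcomp _).trans ?_
    have h2 := hΦ.lip _ (hSB _ (hmem y hy)) _ (hSB _ (hmem w hw))
    have h3 : (q l + R (sg l) y) - (q l + R (sg l) w) = R (sg l) (y - w) := by
      rw [← H718R2.ModC.RL_apply, ← H718R2.ModC.RL_apply, ← H718R2.ModC.RL_apply, map_sub]; abel
    rw [h3, norm_R (sg_abs l)] at h2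
    refine h2.trans ?_
    have hn := norm_nonneg (y - w)
    have h4 : 5 / 10 ^ 10 * θ * ‖y - w‖ ≤ 1 / 10 ^ 9 * θ * ‖y - w‖ := by
      apply mul_le_mul_of_nonneg_right _ hn
      apply mul_le_mul_of_nonneg_right _ hθ0.le
      norm_num
    linarith

/-- the gate -/
theorem near_gate {α κ θ : ℝ} (hal : 0 < α ∧ α ≤ 1) {ω : E → ℝ} (hω : Wind κ θ ω) {e : E → E} {c ρ : ℝ} (hc : Small α c e)
    (_ : 0 ≤ ρ) (hρ' : ρ ≤ 1 / 10 ^ 4) :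
    Near α ρ (1 / 10 ^ 11 * ρ ^ 2 + c) (1 / 10 ^ 11 * ρ + c) (1 / 10 ^ 11) c
      (fun z => (ω z, (0:ℝ), (0:ℝ)) + e z) := by
  have hωd : Differentiable ℝ ω := hω.smooth.differentiable (by norm_num)
  have hd : ∀ z, HasFDerivAt (fun z => (ω z, (0:ℝ), (0:ℝ)) + e z)
      ((ContinuousLinearMap.inl ℝ ℝ (ℝ × ℝ)).comp (fderiv ℝ ω z) + fderiv ℝ e z) z := by
    intro z
    have h1 : HasFDerivAt (fun z => (ω z, ((0:ℝ), (0:ℝ))))
        ((ContinuousLinearMap.inl ℝ ℝ (ℝ × ℝ)).comp (fderiv ℝ ω z)) z :=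
      ((ContinuousLinearMap.inl ℝ ℝ (ℝ × ℝ)).hasFDerivAt).comp z (hωd z).hasFDerivAt
    exact h1.add (hc.diff z).hasFDerivAt
  have hcomp : ∀ A : E →L[ℝ] ℝ, ‖(ContinuousLinearMap.inl ℝ ℝ (ℝ × ℝ)).comp A‖ ≤ ‖A‖ := by
    intro A
    refine (ContinuousLinearMap.opNorm_comp_le _ _).trans ?_
    have h3 : ‖ContinuousLinearMap.inl ℝ ℝ (ℝ × ℝ)‖ ≤ 1 := ContinuousLinearMap.norm_inl_le_one _ _ _
    calc _ ≤ 1 * ‖A‖ := by gcongr
      _ = ‖A‖ := one_mul _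
  refine ⟨hal, fun y => (hd y).differentiableAt, ?_, ?_, ?_⟩
  · intro z hz
    refine (norm_add_le _ _).trans (add_le_add ?_ (hc.b0 z (hz.trans hρ')))
    rw [norm_E_le]
    have h2 := hω.up2 z
    have h3 := hω.nonneg z
    have h4 : (1:ℝ) / 10 ^ 11 * ‖z‖ ^ 2 ≤ 1 / 10 ^ 11 * ρ ^ 2 := by gcongr
    refine ⟨?_, ?_, ?_⟩
    · rw [abs_of_nonneg h3]; exact h2.trans h4
    · simp; positivity
    · simp; positivity
  · intro z hz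
    rw [(hd z).fderiv]
    refine (norm_add_le _ _).trans (add_le_add ?_ (hc.b1 z (hz.trans hρ')))
    refine (hcomp _).trans ((hω.d1 z).trans ?_)
    gcongr
  · intro z w hz hw
    rw [(hd z).fderiv, (hd w).fderiv]
    have e1 : ((ContinuousLinearMap.inl ℝ ℝ (ℝ × ℝ)).comp (fderiv ℝ ω z) + fderiv ℝ e z)
        - ((ContinuousLinearMap.inl ℝ ℝ (ℝ × ℝ)).comp (fderiv ℝ ω w) + fderiv ℝ e w)
        = (ContinuousLinearMap.inl ℝ ℝ (ℝ × ℝ)).comp (fderiv ℝ ω z - fderiv ℝ ω w)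
          + (fderiv ℝ e z - fderiv ℝ e w) := by
      refine ContinuousLinearMap.ext fun v => ?_
      simp only [sub_apply, ContinuousLinearMap.comp_apply, map_sub,
        add_apply]
      abel
    rw [e1]
    refine (norm_add_le _ _).trans ?_
    have h2 := hω.d2 z w
    have h3 := hc.b2 z w (hz.trans hρ') (hw.trans hρ')
    have h4 := hcomp (fderiv ℝ ω z - fderiv ℝ ω w)
    linarith

theorem near_phi {α κ θ L : ℝ} (hκ : 0 < κ) (hκ' : κ ≤ 1 / 10 ^ 12) (hθ : θ = κ ^ 24) (hL : 8 ≤ L)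
    {ω : E → ℝ} (hω : Wind κ θ ω) {Φ : E → E} (hΦ : Ret α κ θ L Φ)
    (h0 : ‖Φ 0‖ ≤ 16 * κ ^ 11) (h1 : ‖fderiv ℝ Φ 0‖ ≤ 24 * κ ^ 11)
    {ec : E → E} (hec : Small α (θ ^ 10) ec) {e : ℕ → E → E} (he : ∀ l, l ≤ 7 → Small α (θ ^ 10) (e l))
    (l : ℕ) (hl : l ≤ 8) :
    Near α (κ ^ 10) ((l + 1) * (κ ^ 10 / 100)) ((l + 1) * (κ ^ 9 / 10)) ((l + 1) * (5 / 10 ^ 11))
      ((l + 1) * (11 / 10 * θ ^ 9)) (phi ω Φ ec e l) := by
  obtain ⟨f1, f2, f3, f4, f5, f6, f7⟩ := num_facts hκ hκ' hθ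
  have p9 : 0 < κ ^ 9 := pow_pos hκ 9
  have p10 : 0 < κ ^ 10 := pow_pos hκ 10
  have p11 : 0 < κ ^ 11 := pow_pos hκ 11
  have pt : 0 < θ ^ 10 := pow_pos f6 10
  obtain ⟨g1, g2, g3⟩ := θ9 hκ hκ' hθ
  induction l with
  | zero =>
    have : Near α (κ ^ 10) (θ ^ 10) (θ ^ 10) 0 (θ ^ 10) ec := by
      have hr : κ ^ 10 ≤ 1 / 10 ^ 4 := f7.trans (by norm_num)
      exact ⟨hΦ.al, hec.diff, fun z hz => hec.b0 z (hz.trans hr), fun z hz => hec.b1 z (hz.trans hr),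
        fun z w hz hw => by
          rw [zero_mul, zero_add]
          exact hec.b2 z w (hz.trans hr) (hw.trans hr)⟩
    refine this.mono le_rfl ?_ ?_ ?_ ?_
    · push_cast; linarith
    · push_cast; linarith
    · push_cast; linarith
    · push_cast; linarith
  | succ l ih =>
    have ih := ih (by omega)
    have hl7 : l ≤ 7 := by omega
    have hlr : (l : ℝ) ≤ 7 := by exact_mod_cast hl7
    have hl0 : (0 : ℝ) ≤ l := Nat.cast_nonneg l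
    set A : ℝ := (l + 1) * (κ ^ 10 / 100) with hA
    set a : ℝ := (l + 1) * (κ ^ 9 / 10) with ha
    set b : ℝ := (l + 1) * (5 / 10 ^ 11) with hb
    set c : ℝ := (l + 1) * (11 / 10 * θ ^ 9) with hc
    have A0 : 0 ≤ A := by positivity
    have a0 : 0 ≤ a := by positivity
    have b0 : 0 ≤ b := by positivity
    have c0 : 0 ≤ c := by positivity
    have c1 : c ≤ 88 / 10 * θ ^ 9 := by rw [hc]; nlinarith
    have A1 : A ≤ 8 / 100 * κ ^ 10 := by rw [hA]; nlinarith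
    have a1 : a ≤ 8 / 10 * κ ^ 9 := by rw [ha]; nlinarith
    have b1 : b ≤ 40 / 10 ^ 11 := by rw [hb]; nlinarith
    have a2 : a ≤ 1 / 10 ^ 12 := a1.trans (by linarith)
    have hp := near_pass hκ hκ' hθ hL hΦ h0 h1 l
    have s1 := ih.step hp (by linarith) a0 (by positivity) (by positivity) (by positivity)
    have s1' : Near α (κ ^ 10) (A + κ ^ 10 / 200) (a + κ ^ 9 / 20) (b + 1 / (5 * 10 ^ 11))
        (c + 104 / 100 * θ ^ 9) (fun ζ => phi ω Φ ec e l ζ + R (sg l) (Φ (q l + R (sg l) (ζ + phi ω Φ ec e l ζ)))) := by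
      refine s1.mono le_rfl ?_ ?_ ?_ ?_
      · linarith
      · have : 25 * κ ^ 11 * (1 + a) ≤ 25 * κ ^ 11 * 2 := by gcongr; linarith
        linarith
      · have t1 : (1 + a) ^ 2 ≤ 2 := by nlinarith
        have t2 : 1 / 10 ^ 9 * θ * (1 + a) ^ 2 ≤ 1 / 10 ^ 9 * θ * 2 := by gcongr
        have t3 : 25 * κ ^ 11 * b ≤ 25 * κ ^ 11 * 1 := by gcongr; linarith
        linarith
      · have t1 : (1 + a) ^ 2 ≤ 101 / 100 := by nlinarith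
        have t2 : θ ^ 9 * (1 + a) ^ 2 ≤ θ ^ 9 * (101 / 100) := by gcongr
        have t3 : 25 * κ ^ 11 * c ≤ 1 / 1000 * c := by
          apply mul_le_mul_of_nonneg_right _ c0
          linarith
        linarith
    have hg := near_gate hΦ.al hω (he l hl7) (ρ := 3 * κ ^ 10) (by positivity) (by linarith)
    have a3 : a + κ ^ 9 / 20 ≤ 1 / 10 := by linarith
    have s2 := s1'.step hg (by linarith) (by positivity) (by positivity) (by positivity) (by positivity)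
    refine s2.mono le_rfl ?_ ?_ ?_ ?_
    · push_cast
      have t0 : κ ^ 10 * κ ^ 10 ≤ 1 / 10 ^ 12 * κ ^ 10 := mul_le_mul_of_nonneg_right f7 p10.le
      have t1 : 1 / 10 ^ 11 * (3 * κ ^ 10) ^ 2 ≤ κ ^ 10 / 1000 := by
        have : 1 / 10 ^ 11 * (3 * κ ^ 10) ^ 2 = 9 / 10 ^ 11 * (κ ^ 10 * κ ^ 10) := by ring
        rw [this]; linarith
      have t2 : ((l:ℝ) + 1 + 1) * (κ ^ 10 / 100) = A + κ ^ 10 / 100 := by rw [hA]; ring
      rw [t2]; linarith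
    · push_cast
      have t2 : ((l:ℝ) + 1 + 1) * (κ ^ 9 / 10) = a + κ ^ 9 / 10 := by rw [ha]; ring
      have t3 : (1 / 10 ^ 11 * (3 * κ ^ 10) + θ ^ 10) * (1 + (a + κ ^ 9 / 20))
          ≤ (1 / 10 ^ 11 * (3 * κ ^ 10) + θ ^ 10) * 2 := by gcongr; linarith
      rw [t2]; linarith
    · push_cast
      have t2 : ((l:ℝ) + 1 + 1) * (5 / 10 ^ 11) = b + 5 / 10 ^ 11 := by rw [hb]; ring
      have t1 : (1 + (a + κ ^ 9 / 20)) ^ 2 ≤ 2 := by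
        have : 0 ≤ a + κ ^ 9 / 20 := by positivity
        nlinarith
      have t3 : (1 / 10 ^ 11) * (1 + (a + κ ^ 9 / 20)) ^ 2
          ≤ (1 / 10 ^ 11) * 2 := by gcongr
      have t4 : (1 / 10 ^ 11 * (3 * κ ^ 10) + θ ^ 10) * (b + 1 / (5 * 10 ^ 11))
          ≤ (1 / 10 ^ 11 * (3 * κ ^ 10) + θ ^ 10) * 1 := by gcongr; linarith
      rw [t2]; linarith
    · push_cast
      have t2 : ((l:ℝ) + 1 + 1) * (11 / 10 * θ ^ 9) = c + 11 / 10 * θ ^ 9 := by rw [hc]; ring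
      have t1 : (1 + (a + κ ^ 9 / 20)) ^ 2 ≤ 2 := by
        have : 0 ≤ a + κ ^ 9 / 20 := by positivity
        nlinarith
      have t3 : θ ^ 10 * (1 + (a + κ ^ 9 / 20)) ^ 2 ≤ θ ^ 10 * 2 := by gcongr
      have t4 : (1 / 10 ^ 11 * (3 * κ ^ 10) + θ ^ 10) * (c + 104 / 100 * θ ^ 9)
          ≤ 1 / 1000 * (c + 104 / 100 * θ ^ 9) := by
        apply mul_le_mul_of_nonneg_right _ (by positivity)
        linarith
      rw [t2]; linarith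

/-- quadratic remainder -/
theorem quad {α κ θ L : ℝ} (hκ : 0 < κ) (hκ' : κ ≤ 1 / 10 ^ 12) (hθ : θ = κ ^ 24) (hθ0 : 0 < θ)
    (hL : 8 ≤ L)
    {Φ : E → E} (hΦ : Ret α κ θ L Φ) (l : ℕ) (y : E) (hy : ‖y‖ ≤ 1 / 10 ^ 4) :
    ‖Φ (q l + R (sg l) y) - Φ 0 - fderiv ℝ Φ 0 (q l + R (sg l) y)‖ ≤ 25 / 10 ^ 9 * θ := by
  have h0S : (0 : E) ∈ Box 8 ∩ Metric.closedBall (0 : E) 5 := ⟨by simp [Box], by simp⟩
  have hSB : ∀ p ∈ Box 8 ∩ Metric.closedBall (0 : E) 5, p ∈ Box L := fun p hp =>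
    ⟨hp.1.1, hp.1.2.1, hp.1.2.2.trans hL⟩
  have hp := pt_mem l y hy
  have h1 := Convex.norm_image_sub_le_of_norm_fderiv_le' (𝕜 := ℝ) (f := Φ) (φ := fderiv ℝ Φ 0)
    (C := 1 / 10 ^ 9 * θ * 5) (s := Box 8 ∩ Metric.closedBall (0 : E) 5)
    (fun x _ => hΦ.diff x) (fun x hx => by
      have h3 : ‖x - 0‖ ≤ 5 := by simpa using hx.2
      exact lip5 hκ hκ' hθ hΦ (hSB x hx) (hSB 0 h0S) h3) convex_S h0S hp
  rw [sub_zero] at h1
  have h3 : ‖q l + R (sg l) y‖ ≤ 5 := by simpa using hp.2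
  calc _ ≤ 1 / 10 ^ 9 * θ * 5 * ‖q l + R (sg l) y‖ := h1
    _ ≤ 1 / 10 ^ 9 * θ * 5 * 5 := by gcongr
    _ = _ := by ring

theorem step_est {α κ θ L : ℝ} (hκ : 0 < κ) (hκ' : κ ≤ 1 / 10 ^ 12) (hθ : θ = κ ^ 24) (hL : 8 ≤ L)
    {ω : E → ℝ} (hω : Wind κ θ ω) {Φ : E → E} (hΦ : Ret α κ θ L Φ)
    (h0 : ‖Φ 0‖ ≤ 16 * κ ^ 11) (h1 : ‖fderiv ℝ Φ 0‖ ≤ 24 * κ ^ 11)
    {e : E → E} (he : Small α (θ ^ 10) e) (l : ℕ) (Y : E) (hY : ‖Y‖ ≤ 2 * κ ^ 10) :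
    ∃ d : E, ∃ η : ℝ, ‖d‖ ≤ κ ^ 20 ∧ |η| ≤ θ / 10 ^ 7 ∧
      pass Φ l Y + (ω (pass Φ l Y), 0, 0) + e (pass Φ l Y)
        = Y + R (sg l) (Φ 0 + fderiv ℝ Φ 0 (q l)) + d ∧
      (pass Φ l Y + (ω (pass Φ l Y), 0, 0) + e (pass Φ l Y)).2.1
        = Y.2.1 + sg l * (Φ 0 + fderiv ℝ Φ 0 (q l)).2.1
          + sg l * (fderiv ℝ Φ 0 (R (sg l) Y)).2.1 + η := by
  obtain ⟨f1, f2, f3, f4, f5, f6, f7⟩ := num_facts hκ hκ' hθ
  have p9 : 0 < κ ^ 9 := pow_pos hκ 9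
  have p10 : 0 < κ ^ 10 := pow_pos hκ 10
  have p11 : 0 < κ ^ 11 := pow_pos hκ 11
  have pt : 0 < θ ^ 10 := pow_pos f6 10
  have hY4 : ‖Y‖ ≤ 1 / 10 ^ 4 := hY.trans (by linarith)
  set p := q l + R (sg l) Y with hp
  set rem := Φ p - Φ 0 - fderiv ℝ Φ 0 p with hrem
  set Z := pass Φ l Y with hZ
  have hremn : ‖rem‖ ≤ 25 / 10 ^ 9 * θ := quad hκ hκ' hθ f6 hL hΦ l Y hY4
  have hΦp : ‖R (sg l) (Φ p)‖ ≤ 141 * κ ^ 11 := (near_pass hκ hκ' hθ hL hΦ h0 h1 l).b0 Y hY4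
  have hZn : ‖Z‖ ≤ 3 * κ ^ 10 := by
    have : ‖Z‖ ≤ ‖Y‖ + ‖R (sg l) (Φ p)‖ := norm_add_le _ _
    linarith
  have hZ4 : ‖Z‖ ≤ 1 / 10 ^ 4 := hZn.trans (by linarith)
  have hBY : ‖fderiv ℝ Φ 0 (R (sg l) Y)‖ ≤ 48 * κ ^ 21 := by
    refine ((fderiv ℝ Φ 0).le_opNorm _).trans ?_
    rw [norm_R (sg_abs l)]
    calc _ ≤ (24 * κ ^ 11) * (2 * κ ^ 10) := by gcongr
      _ = _ := by ring
  have heZ := he.b0 Z hZ4
  have hωZ : ‖((ω Z, (0:ℝ), (0:ℝ)) : E)‖ ≤ 1 / 10 ^ 11 * (9 * κ ^ 20) := by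
    rw [norm_E_le]
    have h2 := hω.up2 Z
    have h3 := hω.nonneg Z
    have h4 : (1:ℝ) / 10 ^ 11 * ‖Z‖ ^ 2 ≤ 1 / 10 ^ 11 * (3 * κ ^ 10) ^ 2 := by gcongr
    have h5 : (1:ℝ) / 10 ^ 11 * (3 * κ ^ 10) ^ 2 = 1 / 10 ^ 11 * (9 * κ ^ 20) := by ring
    refine ⟨?_, ?_, ?_⟩
    · rw [abs_of_nonneg h3]; linarith
    · simp; positivity
    · simp; positivity
  have hΦe : Φ p = (Φ 0 + fderiv ℝ Φ 0 (q l)) + (fderiv ℝ Φ 0 (R (sg l) Y) + rem) := by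
    rw [hrem, hp, map_add]; abel
  have hRΦ : R (sg l) (Φ p) = R (sg l) (Φ 0 + fderiv ℝ Φ 0 (q l))
      + (R (sg l) (fderiv ℝ Φ 0 (R (sg l) Y)) + R (sg l) rem) := by
    rw [hΦe, H718R2.ModC.R_add (sg l) (Φ 0 + fderiv ℝ Φ 0 (q l)), H718R2.ModC.R_add (sg l) (fderiv ℝ Φ 0 (R (sg l) Y)) rem]
  have hZe : Z = Y + (R (sg l) (Φ 0 + fderiv ℝ Φ 0 (q l))
      + (R (sg l) (fderiv ℝ Φ 0 (R (sg l) Y)) + R (sg l) rem)) := by
    rw [← hRΦ, hZ, hp]; rfl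
  refine ⟨(R (sg l) (fderiv ℝ Φ 0 (R (sg l) Y)) + R (sg l) rem) + ((ω Z, 0, 0) + e Z),
    (R (sg l) rem).2.1 + (e Z).2.1, ?_, ?_, ?_, ?_⟩
  · have n1 : ‖(R (sg l) (fderiv ℝ Φ 0 (R (sg l) Y)) + R (sg l) rem) + ((ω Z, 0, 0) + e Z)‖
        ≤ (48 * κ ^ 21 + 25 / 10 ^ 9 * θ) + (1 / 10 ^ 11 * (9 * κ ^ 20) + θ ^ 10) := by
      refine (norm_add_le _ _).trans (add_le_add ((norm_add_le _ _).trans (add_le_add ?_ ?_))
        ((norm_add_le _ _).trans (add_le_add hωZ heZ)))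
      · rw [norm_R (sg_abs l)]; exact hBY
      · rw [norm_R (sg_abs l)]; exact hremn
    have p20 : 0 < κ ^ 20 := pow_pos hκ 20
    have g1 : κ ^ 21 ≤ 1 / 10 ^ 12 * κ ^ 20 := by
      have : κ ^ 21 = κ * κ ^ 20 := by ring
      rw [this]; exact mul_le_mul_of_nonneg_right hκ' p20.le
    have g2 : θ ≤ 1 / 10 ^ 12 * κ ^ 20 := by
      have h3 : κ ^ 4 ≤ 1 / 10 ^ 12 :=
        (pow_le_of_le_one hκ.le (hκ'.trans (by norm_num)) (by norm_num)).trans hκ'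
      have : θ = κ ^ 4 * κ ^ 20 := by rw [hθ]; ring
      rw [this]; exact mul_le_mul_of_nonneg_right h3 p20.le
    have g3 : θ ^ 10 ≤ 1 / 10 ^ 12 * κ ^ 20 := by
      have h3 : κ ^ 220 ≤ 1 / 10 ^ 12 :=
        (pow_le_of_le_one hκ.le (hκ'.trans (by norm_num)) (by norm_num)).trans hκ'
      have : θ ^ 10 = κ ^ 220 * κ ^ 20 := by rw [hθ]; ring
      rw [this]; exact mul_le_mul_of_nonneg_right h3 p20.le
    linarith
  · have n1 : |(R (sg l) rem).2.1| ≤ 25 / 10 ^ 9 * θ := by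
      have : ‖R (sg l) rem‖ ≤ 25 / 10 ^ 9 * θ := by rw [norm_R (sg_abs l)]; exact hremn
      exact (norm_E_le.1 this).2.1
    have n2 : |(e Z).2.1| ≤ θ ^ 10 := (norm_E_le.1 heZ).2.1
    have g3 : θ ^ 10 ≤ 1 / 10 ^ 12 * θ := by
      have h3 : κ ^ 216 ≤ 1 / 10 ^ 12 :=
        (pow_le_of_le_one hκ.le (hκ'.trans (by norm_num)) (by norm_num)).trans hκ'
      have : θ ^ 10 = κ ^ 216 * θ := by rw [hθ]; ring
      rw [this]; exact mul_le_mul_of_nonneg_right h3 f6.le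
    have := abs_add_le (R (sg l) rem).2.1 (e Z).2.1
    linarith
  · rw [hZe]; abel
  · have : (Z + (ω Z, 0, 0) + e Z).2.1 = Z.2.1 + (e Z).2.1 := by
      simp [Prod.snd_add, Prod.fst_add]
    rw [this]
    have h5 : Z.2.1 = Y.2.1 + (sg l * (Φ 0 + fderiv ℝ Φ 0 (q l)).2.1
        + (sg l * (fderiv ℝ Φ 0 (R (sg l) Y)).2.1 + (R (sg l) rem).2.1)) := by
      have := congrArg (fun z : E => z.2.1) hZe
      simpa [Prod.snd_add, Prod.fst_add, R] using this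
    rw [h5]; ring

theorem y_est {α κ θ L : ℝ} (hκ : 0 < κ) (hκ' : κ ≤ 1 / 10 ^ 12) (hθ : θ = κ ^ 24) (hL : 8 ≤ L)
    {ω : E → ℝ} (hω : Wind κ θ ω) {Φ : E → E} (hΦ : Ret α κ θ L Φ)
    (h0 : ‖Φ 0‖ ≤ 16 * κ ^ 11) (h1 : ‖fderiv ℝ Φ 0‖ ≤ 24 * κ ^ 11)
    {ec : E → E} (hec : Small α (θ ^ 10) ec) {e : ℕ → E → E} (he : ∀ l, l ≤ 7 → Small α (θ ^ 10) (e l))
    (ζ : E) (hζ : ‖ζ‖ ≤ κ ^ 10) (hζ1 : |ζ.1| ≤ 7 * θ) (hζ2 : |ζ.2.1| ≤ 7 * θ) :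
    |(Yc ω Φ ec e 8 ζ).2.1 - ζ.2.1| ≤ θ / 2000 := by
  obtain ⟨f1, f2, f3, f4, f5, f6, f7⟩ := num_facts hκ hκ' hθ
  have p9 : 0 < κ ^ 9 := pow_pos hκ 9
  have p10 : 0 < κ ^ 10 := pow_pos hκ 10
  have p11 : 0 < κ ^ 11 := pow_pos hκ 11
  have p20 : 0 < κ ^ 20 := pow_pos hκ 20
  have pt : 0 < θ ^ 10 := pow_pos f6 10
  have hYn : ∀ l, l ≤ 8 → ‖Yc ω Φ ec e l ζ‖ ≤ 2 * κ ^ 10 := by
    intro l hl
    have h2 := (near_phi hκ hκ' hθ hL hω hΦ h0 h1 hec he l hl).b0 ζ hζ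
    have hlr : (l : ℝ) ≤ 8 := by exact_mod_cast hl
    rw [Yc_eq]
    have h3 : ((l:ℝ) + 1) * (κ ^ 10 / 100) ≤ κ ^ 10 := by nlinarith
    have := norm_add_le ζ (phi ω Φ ec e l ζ)
    linarith
  set a := Φ 0 with ha
  set B := fderiv ℝ Φ 0 with hB
  have hst := fun l (hl : l ≤ 7) => step_est hκ hκ' hθ hL hω hΦ h0 h1 (he l hl) l
    (Yc ω Φ ec e l ζ) (hYn l (by omega))
  have hst' : ∀ l : ℕ, ∃ d : E, ∃ η : ℝ, l ≤ 7 → ‖d‖ ≤ κ ^ 20 ∧ |η| ≤ θ / 10 ^ 7 ∧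
      Yc ω Φ ec e (l + 1) ζ
        = Yc ω Φ ec e l ζ + R (sg l) (a + B (q l)) + d ∧
      (Yc ω Φ ec e (l + 1) ζ).2.1
        = (Yc ω Φ ec e l ζ).2.1 + sg l * (a + B (q l)).2.1
          + sg l * (B (R (sg l) (Yc ω Φ ec e l ζ))).2.1 + η := by
    intro l
    by_cases hl : l ≤ 7
    · obtain ⟨d, η, h2, h3, h4, h5⟩ := hst l hl
      exact ⟨d, η, fun _ => ⟨h2, h3, h4, h5⟩⟩
    · exact ⟨0, 0, fun h => absurd h hl⟩
  choose d η hdη using hst'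
  set Y : ℕ → E := fun l => Yc ω Φ ec e l ζ with hYdef
  -- matrix entries
  set b11 := (B (1, 0, 0)).1 with hb11
  set b12 := (B (0, 1, 0)).1 with hb12
  set b13 := (B (0, 0, 1)).1 with hb13
  set b21 := (B (1, 0, 0)).2.1 with hb21
  set b22 := (B (0, 1, 0)).2.1 with hb22
  set b23 := (B (0, 0, 1)).2.1 with hb23
  set b31 := (B (1, 0, 0)).2.2 with hb31
  set b32 := (B (0, 1, 0)).2.2 with hb32
  set b33 := (B (0, 0, 1)).2.2 with hb33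
  have hBn : ∀ z : E, ‖z‖ ≤ 1 → |(B z).2.1| ≤ 24 * κ ^ 11 := by
    intro z hz
    have h2 : ‖B z‖ ≤ 24 * κ ^ 11 := by
      refine (B.le_opNorm z).trans ?_
      calc ‖B‖ * ‖z‖ ≤ (24 * κ ^ 11) * 1 := by gcongr
        _ = _ := by ring
    exact (norm_E_le.1 h2).2.1
  have hc21 : |b21| ≤ 24 * κ ^ 11 := hBn _ (by rw [norm_E_le]; norm_num)
  have hc22 : |b22| ≤ 24 * κ ^ 11 := hBn _ (by rw [norm_E_le]; norm_num)
  have hc23 : |b23| ≤ 24 * κ ^ 11 := hBn _ (by rw [norm_E_le]; norm_num)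
  have hx : ∀ l, l ≤ 7 → (Y (l + 1)).1 = (Y l).1
      + sg l * (a.1 + ((q l).1 * b11 + (q l).2.1 * b12 + (q l).2.2 * b13)) + (d l).1 := by
    intro l hl
    have h2 := congrArg (fun z : E => z.1) (hdη l hl).2.2.1
    rw [lin_dec B (q l)] at h2
    simpa [Prod.snd_add, Prod.fst_add, R] using h2
  have hs : ∀ l, l ≤ 7 → (Y (l + 1)).2.1 = (Y l).2.1
      + sg l * (a.2.1 + ((q l).1 * b21 + (q l).2.1 * b22 + (q l).2.2 * b23)) + (d l).2.1 := by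
    intro l hl
    have h2 := congrArg (fun z : E => z.2.1) (hdη l hl).2.2.1
    rw [lin_dec B (q l)] at h2
    simpa [Prod.snd_add, Prod.fst_add, R] using h2
  have ht : ∀ l, l ≤ 7 → (Y (l + 1)).2.2 = (Y l).2.2
      + (a.2.2 + ((q l).1 * b31 + (q l).2.1 * b32 + (q l).2.2 * b33)) + (d l).2.2 := by
    intro l hl
    have h2 := congrArg (fun z : E => z.2.2) (hdη l hl).2.2.1
    rw [lin_dec B (q l)] at h2
    simpa [Prod.snd_add, Prod.fst_add, R] using h2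
  have hy : ∀ l, l ≤ 7 → (Y (l + 1)).2.1 = (Y l).2.1
      + sg l * (a.2.1 + ((q l).1 * b21 + (q l).2.1 * b22 + (q l).2.2 * b23))
      + ((Y l).1 * b21 + (Y l).2.1 * b22 + sg l * (Y l).2.2 * b23) + η l := by
    intro l hl
    have h2 := (hdη l hl).2.2.2
    rw [lin_dec B (q l), lin_dec B (R (sg l) _)] at h2
    have h3 : sg l * sg l = 1 := by
      have := sg_abs l
      rw [← abs_mul_abs_self, this, one_mul]
    simp only [Prod.snd_add, Prod.fst_add, R, Prod.smul_fst, Prod.smul_snd, smul_eq_mul] at h2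
    rw [show Y (l + 1) = Yc ω Φ ec e (l + 1) ζ from rfl, h2, hb21, hb22, hb23]
    linear_combination ((Y l).1 * b21 + (Y l).2.1 * b22) * h3
  have hdx : ∀ l, l ≤ 7 → |(d l).1| ≤ κ ^ 20 := fun l hl => (norm_E_le.1 (hdη l hl).1).1
  have hds : ∀ l, l ≤ 7 → |(d l).2.1| ≤ κ ^ 20 := fun l hl => (norm_E_le.1 (hdη l hl).1).2.1
  have hdt : ∀ l, l ≤ 7 → |(d l).2.2| ≤ κ ^ 20 := fun l hl => (norm_E_le.1 (hdη l hl).1).2.2
  have hη : ∀ l, l ≤ 7 → |η l| ≤ θ / 10 ^ 7 := fun l hl => (hdη l hl).2.1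
  clear_value b11 b12 b13 b21 b22 b23 b31 b32 b33
  have x0 := hx 0 (by norm_num)
  have x1 := hx 1 (by norm_num)
  have x2 := hx 2 (by norm_num)
  have x3 := hx 3 (by norm_num)
  have x4 := hx 4 (by norm_num)
  have x5 := hx 5 (by norm_num)
  have x6 := hx 6 (by norm_num)
  have s0 := hs 0 (by norm_num)
  have s1 := hs 1 (by norm_num)
  have s2 := hs 2 (by norm_num)
  have s3 := hs 3 (by norm_num)
  have s4 := hs 4 (by norm_num)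
  have s5 := hs 5 (by norm_num)
  have s6 := hs 6 (by norm_num)
  have t0 := ht 0 (by norm_num)
  have t1 := ht 1 (by norm_num)
  have t2 := ht 2 (by norm_num)
  have t3 := ht 3 (by norm_num)
  have t4 := ht 4 (by norm_num)
  have t5 := ht 5 (by norm_num)
  have t6 := ht 6 (by norm_num)
  have y0 := hy 0 (by norm_num)
  have y1 := hy 1 (by norm_num)
  have y2 := hy 2 (by norm_num)
  have y3 := hy 3 (by norm_num)
  have y4 := hy 4 (by norm_num)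
  have y5 := hy 5 (by norm_num)
  have y6 := hy 6 (by norm_num)
  have y7 := hy 7 (by norm_num)
  simp only [q, sg, Nat.reduceAdd, zero_add] at x0 x1 x2 x3 x4 x5 x6 s0 s1 s2 s3 s4 s5 s6 t0 t1 t2 t3 t4 t5 t6 y0 y1 y2 y3 y4 y5 y6 y7
  have SX : (Y 0).1 + (Y 1).1 + (Y 2).1 + (Y 3).1 + (Y 4).1 + (Y 5).1 + (Y 6).1 + (Y 7).1
      = 8 * (Y 0).1 + (7 * (d 0).1 + 6 * (d 1).1 + 5 * (d 2).1 + 4 * (d 3).1 + 3 * (d 4).1
        + 2 * (d 5).1 + (d 6).1) := by linarith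
  have SS : (Y 0).2.1 + (Y 1).2.1 + (Y 2).2.1 + (Y 3).2.1 + (Y 4).2.1 + (Y 5).2.1 + (Y 6).2.1
      + (Y 7).2.1
      = 8 * (Y 0).2.1 + (7 * (d 0).2.1 + 6 * (d 1).2.1 + 5 * (d 2).2.1 + 4 * (d 3).2.1
        + 3 * (d 4).2.1 + 2 * (d 5).2.1 + (d 6).2.1) := by linarith
  have ST : (Y 0).2.2 - (Y 1).2.2 - (Y 2).2.2 + (Y 3).2.2 + (Y 4).2.2 - (Y 5).2.2 - (Y 6).2.2
      + (Y 7).2.2
      = -(d 0).2.2 + (d 2).2.2 - (d 4).2.2 + (d 6).2.2 := by linarith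
  have SY : (Y 8).2.1 - (Y 0).2.1
      = ((Y 0).1 + (Y 1).1 + (Y 2).1 + (Y 3).1 + (Y 4).1 + (Y 5).1 + (Y 6).1 + (Y 7).1) * b21
      + ((Y 0).2.1 + (Y 1).2.1 + (Y 2).2.1 + (Y 3).2.1 + (Y 4).2.1 + (Y 5).2.1 + (Y 6).2.1
      + (Y 7).2.1) * b22
      + ((Y 0).2.2 - (Y 1).2.2 - (Y 2).2.2 + (Y 3).2.2 + (Y 4).2.2 - (Y 5).2.2 - (Y 6).2.2
      + (Y 7).2.2) * b23 + (η 0 + η 1 + η 2 + η 3 + η 4 + η 5 + η 6 + η 7) := by
    linear_combination y0 + y1 + y2 + y3 + y4 + y5 + y6 + y7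
  have hec1 := norm_E_le.1 (hec.b0 ζ (hζ.trans (by linarith)))
  have hY0 : Y 0 = ζ + ec ζ := rfl
  have hY01 : |(Y 0).1| ≤ 8 * θ := by
    rw [hY0, Prod.fst_add]
    have g3 : θ ^ 10 ≤ θ := by
      have := pow_le_of_le_one f6.le (f5.trans (by norm_num)) (n := 10) (by norm_num)
      exact this
    have := abs_add_le ζ.1 (ec ζ).1
    linarith [hec1.1]
  have hY02 : |(Y 0).2.1| ≤ 8 * θ := by
    rw [hY0, Prod.snd_add, Prod.fst_add]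
    have g3 : θ ^ 10 ≤ θ := by
      have := pow_le_of_le_one f6.le (f5.trans (by norm_num)) (n := 10) (by norm_num)
      exact this
    have := abs_add_le ζ.2.1 (ec ζ).2.1
    linarith [hec1.2.1]
  have BX : |(Y 0).1 + (Y 1).1 + (Y 2).1 + (Y 3).1 + (Y 4).1 + (Y 5).1 + (Y 6).1 + (Y 7).1|
      ≤ 64 * θ + 28 * κ ^ 20 := by
    rw [SX]
    have := abs_le.1 hY01
    have e0 := abs_le.1 (hdx 0 (by norm_num))
    have e1 := abs_le.1 (hdx 1 (by norm_num))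
    have e2 := abs_le.1 (hdx 2 (by norm_num))
    have e3 := abs_le.1 (hdx 3 (by norm_num))
    have e4 := abs_le.1 (hdx 4 (by norm_num))
    have e5 := abs_le.1 (hdx 5 (by norm_num))
    have e6 := abs_le.1 (hdx 6 (by norm_num))
    rw [abs_le]; constructor <;> linarith [this.1, this.2, e0.1, e0.2, e1.1, e1.2, e2.1, e2.2,
      e3.1, e3.2, e4.1, e4.2, e5.1, e5.2, e6.1, e6.2]
  have BS : |(Y 0).2.1 + (Y 1).2.1 + (Y 2).2.1 + (Y 3).2.1 + (Y 4).2.1 + (Y 5).2.1 + (Y 6).2.1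
      + (Y 7).2.1| ≤ 64 * θ + 28 * κ ^ 20 := by
    rw [SS]
    have := abs_le.1 hY02
    have e0 := abs_le.1 (hds 0 (by norm_num))
    have e1 := abs_le.1 (hds 1 (by norm_num))
    have e2 := abs_le.1 (hds 2 (by norm_num))
    have e3 := abs_le.1 (hds 3 (by norm_num))
    have e4 := abs_le.1 (hds 4 (by norm_num))
    have e5 := abs_le.1 (hds 5 (by norm_num))
    have e6 := abs_le.1 (hds 6 (by norm_num))
    rw [abs_le]; constructor <;> linarith [this.1, this.2, e0.1, e0.2, e1.1, e1.2, e2.1, e2.2,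
      e3.1, e3.2, e4.1, e4.2, e5.1, e5.2, e6.1, e6.2]
  have BT : |(Y 0).2.2 - (Y 1).2.2 - (Y 2).2.2 + (Y 3).2.2 + (Y 4).2.2 - (Y 5).2.2 - (Y 6).2.2
      + (Y 7).2.2| ≤ 64 * θ + 28 * κ ^ 20 := by
    rw [ST]
    have e0 := abs_le.1 (hdt 0 (by norm_num))
    have e2 := abs_le.1 (hdt 2 (by norm_num))
    have e4 := abs_le.1 (hdt 4 (by norm_num))
    have e6 := abs_le.1 (hdt 6 (by norm_num))
    rw [abs_le]; constructor <;> linarith [e0.1, e0.2, e2.1, e2.2, e4.1, e4.2, e6.1, e6.2]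
  have Bη : |η 0 + η 1 + η 2 + η 3 + η 4 + η 5 + η 6 + η 7| ≤ 8 * (θ / 10 ^ 7) := by
    have e0 := abs_le.1 (hη 0 (by norm_num))
    have e1 := abs_le.1 (hη 1 (by norm_num))
    have e2 := abs_le.1 (hη 2 (by norm_num))
    have e3 := abs_le.1 (hη 3 (by norm_num))
    have e4 := abs_le.1 (hη 4 (by norm_num))
    have e5 := abs_le.1 (hη 5 (by norm_num))
    have e6 := abs_le.1 (hη 6 (by norm_num))
    have e7 := abs_le.1 (hη 7 (by norm_num))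
    rw [abs_le]; constructor <;> linarith [e0.1, e0.2, e1.1, e1.2, e2.1, e2.2,
      e3.1, e3.2, e4.1, e4.2, e5.1, e5.2, e6.1, e6.2, e7.1, e7.2]
  -- final bound
  have hM : (64 * θ + 28 * κ ^ 20) * (24 * κ ^ 11) ≤ θ / 10 ^ 8 := by
    have g1 : κ ^ 11 ≤ 1 / 10 ^ 12 :=
      (pow_le_of_le_one hκ.le (hκ'.trans (by norm_num)) (by norm_num)).trans hκ'
    have g2 : κ ^ 31 ≤ 1 / 10 ^ 12 * θ := by
      have h3 : κ ^ 7 ≤ 1 / 10 ^ 12 :=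
        (pow_le_of_le_one hκ.le (hκ'.trans (by norm_num)) (by norm_num)).trans hκ'
      have : κ ^ 31 = κ ^ 7 * θ := by rw [hθ]; ring
      rw [this]; exact mul_le_mul_of_nonneg_right h3 f6.le
    have g3 : θ * κ ^ 11 ≤ θ * (1 / 10 ^ 12) := mul_le_mul_of_nonneg_left g1 f6.le
    have : (64 * θ + 28 * κ ^ 20) * (24 * κ ^ 11) = 1536 * (θ * κ ^ 11) + 672 * κ ^ 31 := by ring
    rw [this]; linarith
  have q1 := mul_le_mul BX hc21 (abs_nonneg _) (by positivity)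
  have q2 := mul_le_mul BS hc22 (abs_nonneg _) (by positivity)
  have q3 := mul_le_mul BT hc23 (abs_nonneg _) (by positivity)
  rw [← abs_mul] at q1 q2 q3
  have g3 : θ ^ 10 ≤ 1 / 10 ^ 12 * θ := by
    have h3 : κ ^ 216 ≤ 1 / 10 ^ 12 :=
      (pow_le_of_le_one hκ.le (hκ'.trans (by norm_num)) (by norm_num)).trans hκ'
    have : θ ^ 10 = κ ^ 216 * θ := by rw [hθ]; ring
    rw [this]; exact mul_le_mul_of_nonneg_right h3 f6.le
  have hfin : (Yc ω Φ ec e 8 ζ).2.1 - ζ.2.1 = ((Y 8).2.1 - (Y 0).2.1) + (ec ζ).2.1 := by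
    rw [hY0, Prod.snd_add, Prod.fst_add]; simp only [hYdef]; ring
  rw [hfin, SY]
  have k1 := abs_le.1 (q1.trans hM)
  have k2 := abs_le.1 (q2.trans hM)
  have k3 := abs_le.1 (q3.trans hM)
  have k4 := abs_le.1 Bη
  have k5 := abs_le.1 hec1.2.1
  rw [abs_le]
  constructor <;> linarith [k1.1, k1.2, k2.1, k2.2, k3.1, k3.2, k4.1, k4.2, k5.1, k5.2]

end ModC

/-- Module C -/
theorem modC {α κ θ L : ℝ} (hκ : 0 < κ) (hκ' : κ ≤ 1 / 10 ^ 12) (hθ : θ = κ ^ 24) (hL : 8 ≤ L)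
    {ω : E → ℝ} (hω : Wind κ θ ω) {Φ : E → E} (hΦ : Ret α κ θ L Φ)
    (h0 : ‖Φ 0‖ ≤ 16 * κ ^ 11) (h1 : ‖fderiv ℝ Φ 0‖ ≤ 24 * κ ^ 11)
    {ec : E → E} (hec : Small α (θ ^ 10) ec) {e : ℕ → E → E} (he : ∀ l, l ≤ 7 → Small α (θ ^ 10) (e l)) :
    Differentiable ℝ (Yc ω Φ ec e 8) ∧
    (∀ ζ, ‖ζ‖ ≤ κ ^ 10 → ‖fderiv ℝ (fun ζ => Yc ω Φ ec e 8 ζ - ζ) ζ‖ ≤ κ ^ 9) ∧
    (∀ ζ ζ', ‖ζ‖ ≤ κ ^ 10 → ‖ζ'‖ ≤ κ ^ 10 →
      ‖fderiv ℝ (fun ζ => Yc ω Φ ec e 8 ζ - ζ) ζ - fderiv ℝ (fun ζ => Yc ω Φ ec e 8 ζ - ζ) ζ'‖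
        ≤ 5 / 10 ^ 10 * ‖ζ - ζ'‖ + 10 * θ ^ 9 * pw α ‖ζ - ζ'‖) ∧
    (∀ ζ, ‖ζ‖ ≤ κ ^ 10 → |ζ.1| ≤ 7 * θ → |ζ.2.1| ≤ 7 * θ →
      |(Yc ω Φ ec e 8 ζ).2.1 - ζ.2.1| ≤ θ / 2000) := by
  have hn := ModC.near_phi hκ hκ' hθ hL hω hΦ h0 h1 hec he 8 le_rfl
  have e1 : (fun ζ => Yc ω Φ ec e 8 ζ - ζ) = ModC.phi ω Φ ec e 8 := by
    funext ζ; rw [ModC.Yc_eq]; abel
  have e2 : Yc ω Φ ec e 8 = fun ζ => ζ + ModC.phi ω Φ ec e 8 ζ := by
    funext ζ; rw [ModC.Yc_eq]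
  rw [e1]
  have p9 : 0 < κ ^ 9 := pow_pos hκ 9
  refine ⟨?_, ?_, ?_, ?_⟩
  · rw [e2]; exact differentiable_id.add hn.diff
  · intro ζ hζ
    refine (hn.b1 ζ hζ).trans ?_
    push_cast; linarith
  · intro ζ ζ' hζ hζ'
    have hθ0 : 0 < θ ^ 9 := (ModC.θ9 hκ hκ' hθ).2.2
    refine (hn.b2 ζ ζ' hζ hζ').trans (add_le_add
      (mul_le_mul_of_nonneg_right ?_ (norm_nonneg _))
      (mul_le_mul_of_nonneg_right ?_ (pw_nonneg (norm_nonneg _))))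
    · push_cast; norm_num
    · push_cast; linarith
  · intro ζ hζ h2 h3
    exact ModC.y_est hκ hκ' hθ hL hω hΦ h0 h1 hec he ζ hζ h2 h3

end Pool.Agent.Y640.CLA
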