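import Pool.Agent.Y640.CLA.NCA
import Pool.Agent.Y251.CL.Stm2

/-!
# `C²`-small perturbations are `C^{1+α}`-small
-/

open scoped Topology ContDiff
open Set
open Pool.Agent.H718R2

namespace Pool.Agent.Y640.CLA

/-- `C²`-closeness with a smaller size implies `C^{1+α}`-closeness -/
theorem exists_eps_C2 {α : ℝ} (hα : 0 < α) (hα1 : α ≤ 1) {n : ℕ} [NeZero n]
    {F : G.V n → G.V n} (hF : ContDiff ℝ 2 F) {ε : G.V n → ℝ} (hε : Continuous ε)
    (hε0 : ∀ v, 0 < ε v) :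
    ∃ ε' : G.V n → ℝ, Continuous ε' ∧ (∀ v, 0 < ε' v) ∧
      ∀ H : G.V n → G.V n, ContDiffOn ℝ 2 H {v : G.V n | 1 / 2 < v 0} →
        (∀ v : G.V n, 1 / 2 < v 0 → ∀ i : ℕ, i ≤ 2 →
          ‖iteratedFDeriv ℝ i H v - iteratedFDeriv ℝ i F v‖ < ε' v) → CloseA α ε F H := by
  obtain ⟨ε', h1, h2, h3⟩ := exists_delta ε hε hε0
  refine ⟨ε', h1, h2, fun H hH hc => ?_⟩
  have hopen : IsOpen {v : G.V n | 1 / 2 < v 0} := isOpen_lt continuous_const (by fun_prop)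
  have hconv : Convex ℝ {v : G.V n | 1 / 2 < v 0} := by
    have hlin : IsLinearMap ℝ (fun v : G.V n => v 0) := ⟨fun _ _ => rfl, fun _ _ => rfl⟩
    exact convex_halfSpace_gt hlin _
  have hHat : ∀ v : G.V n, 1 / 2 < v 0 → ContDiffAt ℝ 2 H v := fun v hv =>
    hH.contDiffAt (hopen.mem_nhds hv)
  set U : G.V n → G.V n := fun v => H v - F v with hU
  have hUat : ∀ v : G.V n, 1 / 2 < v 0 → ContDiffAt ℝ 2 U v := fun v hv =>
    (hHat v hv).sub hF.contDiffAt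
  have hUi : ∀ v : G.V n, 1 / 2 < v 0 → ∀ i : ℕ, i ≤ 2 → ‖iteratedFDeriv ℝ i U v‖ < ε' v := by
    intro v hv i hi
    have hi' : (i : WithTop ℕ∞) ≤ 2 := by exact_mod_cast hi
    have e : iteratedFDeriv ℝ i U v = iteratedFDeriv ℝ i H v - iteratedFDeriv ℝ i F v :=
      iteratedFDeriv_sub_apply ((hHat v hv).of_le hi') (hF.contDiffAt.of_le hi')
    rw [e]
    exact hc v hv i hi
  have hdH : ∀ v : G.V n, 1 / 2 < v 0 → DifferentiableAt ℝ H v := fun v hv =>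
    (hHat v hv).differentiableAt (by norm_num)
  have hdF : Differentiable ℝ F := hF.differentiable (by norm_num)
  have hfU : ∀ v : G.V n, 1 / 2 < v 0 → fderiv ℝ U v = fderiv ℝ H v - fderiv ℝ F v := fun v hv =>
    fderiv_fun_sub (hdH v hv) (hdF v)
  have hself : ∀ v : G.V n, ‖v - v‖ ≤ 2 := fun v => by simp
  refine ⟨hdH, fun v hv => ?_, fun v hv => ?_, fun v w hv hw hvw => ?_⟩
  · have := hUi v hv 0 (by norm_num)
    rw [norm_iteratedFDeriv_zero] at this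
    exact this.trans_le (h3 v v (hself v))
  · have := hUi v hv 1 (by norm_num)
    rw [norm_iteratedFDeriv_one, hfU v hv] at this
    exact this.trans_le (h3 v v (hself v))
  · rw [← hfU v hv, ← hfU w hw]
    have hdd : ∀ y : G.V n, 1 / 2 < y 0 → DifferentiableAt ℝ (fderiv ℝ U) y := fun y hy =>
      ((hUat y hy).fderiv_right (m := 1) (by norm_num)).differentiableAt (by norm_num)
    have h4 : ‖fderiv ℝ U v - fderiv ℝ U w‖ ≤ ε v * ‖v - w‖ := by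
      refine (hconv.inter (convex_closedBall v 1)).norm_image_sub_le_of_norm_fderiv_le (𝕜 := ℝ)
        (fun y hy => hdd y hy.1) (fun y hy => ?_) ⟨hw, ?_⟩
        ⟨hv, Metric.mem_closedBall_self zero_le_one⟩
      · have h5 := hUi y hy.1 2 le_rfl
        rw [← norm_iteratedFDeriv_fderiv, norm_iteratedFDeriv_one] at h5
        have h6 := hy.2
        rw [Metric.mem_closedBall, dist_eq_norm] at h6
        exact h5.le.trans (h3 y v (by linarith))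
      · rw [Metric.mem_closedBall, dist_eq_norm, norm_sub_rev]
        exact hvw
    exact h4.trans (mul_le_mul_of_nonneg_left (le_pw hα hα1 (norm_nonneg _) hvw) (hε0 v).le)

/-- both versions with the same diffeomorphism `F` and the same recurrent point `a` -/
theorem nonClosing_both {α : ℝ} (hα : 0 < α) (hα1 : α ≤ 1) {n : ℕ} [NeZero n]
    (h : NonClosingA α n) :
    ∃ (F : G.V n ≃ₜ G.V n) (a : G.V n) (ε ε' : G.V n → ℝ), 6 ≤ a 0 ∧
    ContDiff ℝ ∞ F ∧ ContDiff ℝ ∞ F.symm ∧ (∀ v : G.V n, v 0 ≤ 1 → F v = v) ∧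
    (∀ δ : ℝ, 0 < δ → ∃ k : ℕ, 1 ≤ k ∧ ‖F^[k] a - a‖ < δ) ∧ Continuous ε ∧ (∀ v, 0 < ε v) ∧
    Continuous ε' ∧ (∀ v, 0 < ε' v) ∧
    (∀ H : G.V n → G.V n, CloseA α ε F H →
      ∀ O : Set (G.V n), IsCompact O → (∃ v ∈ O, 23 / 4 < v 0) → ¬ (∀ v ∈ O, 1 ≤ v 0 → H v ∈ O)) ∧
    ∀ H : G.V n → G.V n, ContDiffOn ℝ 2 H {v : G.V n | 1 / 2 < v 0} →
      (∀ v : G.V n, 1 / 2 < v 0 → ∀ i : ℕ, i ≤ 2 →
        ‖iteratedFDeriv ℝ i H v - iteratedFDeriv ℝ i (F : G.V n → G.V n) v‖ < ε' v) →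
      CloseA α ε F H := by
  obtain ⟨F, a, ε, h1, h2, h3, h4, h5, h6, h7, h8⟩ := h
  have hF2 : ContDiff ℝ 2 F := h2.of_le (WithTop.coe_le_coe.mpr (le_top : (2 : ℕ∞) ≤ ⊤))
  obtain ⟨ε', e1, e2, e3⟩ := exists_eps_C2 hα hα1 hF2 h6 h7
  exact ⟨F, a, ε, ε', h1, h2, h3, h4, h5, h6, h7, e1, e2, h8, e3⟩

end Pool.Agent.Y640.CLA
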