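import Pool.Agent.Y640.CLA.D1

open Pool.Agent.H718R2

namespace Pool.Agent.Y640.CLA

section

variable {α κ θ : ℝ} {ω : E → ℝ} {f u : E → E}

theorem pow12 (c : Ctx α κ θ ω f u) (k : ℕ) :
    2 * θ ^ (12 * (k + 1 + 2)) + θ ^ (12 * (k + 2)) ≤ 2 * θ ^ (12 * (k + 2)) := by
  have h1 : θ ^ (12 * (k + 1 + 2)) = θ ^ (12 * (k + 2)) * θ ^ 12 := by ring
  have h2 := pow_small c.θp c.θs (a := 12) (by norm_num)
  have h3 : 0 < θ ^ (12 * (k + 2)) := pow_pos c.θp _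
  rw [h1]
  nlinarith

theorem e24 (c : Ctx α κ θ ω f u) (k : ℕ) : 2 * θ ^ (12 * (k + 2)) ≤ 1 / 10 ^ 24 * (θ ^ 10 * r θ k) := by
  unfold r
  have h1 : θ ^ (12 * (k + 2)) ≤ θ ^ 12 * (θ ^ 10 * θ ^ (k + 1)) := by
    rw [← pow_add, ← pow_add]
    exact pow_le_pow_of_le_one c.θp.le (by linarith [c.θs]) (by omega)
  have h2 : θ ^ 12 ≤ θ / 10 ^ 24 := pow_le_θ c.θp c.θs (a := 12) (by norm_num)
  have h3 : 0 < θ ^ 10 * θ ^ (k + 1) := mul_pos (pow_pos c.θp _) (pow_pos c.θp _)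
  have h4 := c.θs
  have h5 : θ ^ 12 ≤ 1 / 2 * (1 / 10 ^ 24) := by linarith
  nlinarith

theorem climbs (c : Ctx α κ θ ω f u) (j : ℕ) : ∀ (k : ℕ) (z : E), |z.1| ≤ 4 →
    |z.2.1| ≤ 8 * r θ (k + j) →
    ∃ z', (FF f u)^[j] (D (k + j) z) = D k z' ∧ ‖z' - z‖ ≤ 2 * θ ^ (12 * (k + 2)) := by
  induction j with
  | zero =>
    intro k z _ _
    refine ⟨z, rfl, ?_⟩
    rw [sub_self, norm_zero]
    have := pow_pos c.θp (12 * (k + 2)); positivity
  | succ j ih =>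
    intro k z h1 h2
    have e : k + (j + 1) = (k + 1) + j := by omega
    rw [e] at h2 ⊢
    obtain ⟨z', hz, hz'⟩ := ih (k + 1) z h1 h2
    rw [Function.iterate_succ_apply', hz]
    have hk1 : 2 * θ ^ (12 * (k + 1 + 2)) ≤ θ ^ (12 * (k + 2)) := by
      have h3 : θ ^ (12 * (k + 1 + 2)) = θ ^ (12 * (k + 2)) * θ ^ 12 := by ring
      have h4 := pow_small c.θp c.θs (a := 12) (by norm_num)
      have h5 : 0 < θ ^ (12 * (k + 2)) := pow_pos c.θp _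
      rw [h3]; nlinarith
    have hk2 := e24 c k
    have hrk := r_pos c.θp k
    have h10 := pow_small c.θp c.θs (a := 10) (by norm_num)
    have hs := c.θs
    have hk3 : θ ^ (12 * (k + 2)) ≤ 1 / 100 * r θ k := by
      have : θ ^ 10 * r θ k ≤ r θ k := by nlinarith [pow_pos c.θp 10]
      have : 0 < θ ^ 10 * r θ k := mul_pos (pow_pos c.θp 10) hrk
      nlinarith [pow_pos c.θp (12 * (k+2))]
    have hrk1 := r_le c.θp c.θs k
    have hr2 : r θ (k + 1 + j) ≤ θ * r θ k := r_lt c.θp c.θs (by omega)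
    have d1 := abs_le.1 ((n1 (z' - z)).trans hz')
    have d2 := abs_le.1 ((n2 (z' - z)).trans hz')
    have d1' : z'.1 - z.1 = (z' - z).1 := rfl
    have d2' : z'.2.1 - z.2.1 = (z' - z).2.1 := rfl
    rw [← d1'] at d1; rw [← d2'] at d2
    have a1 := abs_le.1 h1
    have a2 := abs_le.1 h2
    have b1 : |z'.1| ≤ 5 := abs_le.2 ⟨by linarith [d1.1], by linarith [d1.2]⟩
    have b2 : |z'.2.1| ≤ r θ k / 2 := by
      have : 8 * r θ (k + 1 + j) ≤ 1 / 100 * r θ k := by nlinarith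
      exact abs_le.2 ⟨by linarith [d2.1], by linarith [d2.2]⟩
    refine ⟨z' + u (D (k + 1) z'), ?_, ?_⟩
    · unfold FF
      rw [c.hS.climb k z' b1 b2, D_add]
    · have hu : ‖u (D (k + 1) z')‖ ≤ θ ^ (12 * (k + 2)) := by
        have := c.hu.b0 (D (k + 1) z') (k + 1) (by
          rw [D_s]
          have := abs_le.1 b2
          push_cast
          rw [le_abs]; right
          linarith)
        simpa [add_assoc] using this
      calc ‖z' + u (D (k + 1) z') - z‖ = ‖(z' - z) + u (D (k + 1) z')‖ := by congr 1; abel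
        _ ≤ 2 * θ ^ (12 * (k + 1 + 2)) + θ ^ (12 * (k + 2)) := (norm_add_le _ _).trans (add_le_add hz' hu)
        _ ≤ _ := pow12 c k

theorem U_lev (c : Ctx α κ θ ω f u) {m : ℕ} {l : ℕ} {z : E} (hz : |z.2.1| ≤ 1 / 100) :
    (m : ℝ) ≤ |(U θ m (r θ m • (q l + R (sg l) z))).2.1| := by
  rw [U_s, smul_s, add_s, R_s]
  obtain ⟨A1, A2⟩ := q_bd2 l
  have hz'' := abs_le.1 (sg_bd l hz)
  have h1 := uy_nonneg c.θp m
  have hr := r_pos c.θp m
  have hr1 := r_le c.θp c.θs m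
  have hs := c.θs
  have hb : |r θ m * ((q l).2.1 + sg l * z.2.1)| ≤ r θ m * 5 :=
    mul_bd hr.le (by rw [abs_le]; constructor <;> linarith)
  have hb' := abs_le.1 hb
  norm_num at hs
  rw [le_abs]; left
  linarith

/-- the gate map with perturbation, in unit coordinates -/
theorem gate_F (c : Ctx α κ θ ω f u) {p z v : E} {m l : ℕ} 
    (hp : p = U θ m (r θ m • (q l + R (sg l) z))) (hz : |z.2.1| ≤ 1 / 100)
    (hf : f p = tgt θ m l (r θ m • R (sg (l + 1)) v)) :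
    ∃ y, FF f u p = tgt θ m l (r θ m • R (sg (l + 1)) y) ∧ ‖y - v‖ ≤ θ ^ 11 := by
  have hr := r_pos c.θp m
  have hlev : (m : ℝ) - 1 ≤ |p.2.1| := by
    rw [hp]; linarith [U_lev c (m := m) (l := l) hz]
  have h1 := c.hu.b0 p m hlev
  have h2 := er_r c.θp c.θs m
  refine ⟨v + R (sg (l + 1)) ((r θ m)⁻¹ • u p), ?_, ?_⟩
  · have e : r θ m • R (sg (l + 1)) (v + R (sg (l + 1)) ((r θ m)⁻¹ • u p)) =
        r θ m • R (sg (l + 1)) v + u p := by
      rw [R_add, R_sg, smul_add, smul_smul, mul_inv_cancel₀ hr.ne', one_smul]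
    rw [e]
    unfold FF
    rw [hf]
    unfold tgt
    split
    · rw [D_add, add_assoc]
    · rw [U_add]
  · rw [add_sub_cancel_left, R_norm (abs_sg _), norm_smul, norm_inv, Real.norm_of_nonneg hr.le]
    rw [inv_mul_le_iff₀ hr]
    linarith

theorem th11 (c : Ctx α κ θ ω f u) : θ ^ 11 ≤ 1 / 10 ^ 24 := pow_small c.θp c.θs (by norm_num)

/-- landing point of a down gate climbs to a gate of level 0 -/
theorem land0 (c : Ctx α κ θ ω f u) {m l' : ℕ} (hl : l' ≤ 7) {y : E} (h1 : |y.1| ≤ 25 / 10000)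
    (h2 : |y.2.1| ≤ 25 / 10000) :
    ∃ (j l'' : ℕ) (w : E), l'' ≤ 7 ∧
      (FF f u)^[j] (D m (r θ m • (q l' + R (sg l') y))) = U θ 0 (r θ 0 • (q l'' + R (sg l'') w)) ∧
      |w.2.1| ≤ 3 / 1000 ∧
      |((FF f u)^[j] (D m (r θ m • (q l' + R (sg l') y)))).2.2
        - (D m (r θ m • (q l' + R (sg l') y))).2.2| ≤ 1 / 10 ^ 22 := by
  have hr := r_pos c.θp m
  have hr1 := r_le c.θp c.θs m
  have hs := c.θs
  have hθ := c.θp
  set ζ : E := r θ m • (q l' + R (sg l') y) with hζ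
  obtain ⟨Q1, Q1'⟩ := q_bd1 l'
  obtain ⟨Q2, Q2'⟩ := q_bd2 l'
  have y1 := abs_le.1 (sg_bd l' h1)
  have y2 := abs_le.1 (sg_bd l' h2)
  have b1 : |ζ.1| ≤ r θ m * 5 := mul_bd hr.le (by
    rw [abs_le]; constructor <;> (simp only [add_x, R_x]; linarith))
  have b2 : |ζ.2.1| ≤ r θ m * 5 := mul_bd hr.le (by
    rw [abs_le]; constructor <;> (simp only [Prod.fst_add, Prod.snd_add, R_s]; linarith))
  have b3 : |ζ.2.1 - r θ m * (q l').2.1| ≤ r θ m * (25 / 10000) := by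
    have e : ζ.2.1 - r θ m * (q l').2.1 = r θ m * (sg l' * y.2.1) := by
      rw [hζ, smul_s, add_s, R_s]; ring
    rw [e]; exact mul_bd hr.le (sg_bd l' h2)
  clear_value ζ
  obtain ⟨ζ', hc, hc'⟩ := climbs c m 0 ζ (by norm_num at hs; linarith) (by rw [zero_add]; linarith)
  rw [zero_add] at hc
  have h12 : θ ^ 12 ≤ θ / 10 ^ 24 := pow_le_θ c.θp c.θs (a := 12) (by norm_num)
  have hc24 : 2 * θ ^ (12 * (0 + 2)) ≤ θ / 10 ^ 24 := by
    have h1 : θ ^ (12 * (0 + 2)) = θ ^ 12 * θ ^ 12 := by ring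
    have h2 := pow_small c.θp c.θs (a := 12) (by norm_num)
    rw [h1]
    nlinarith [pow_pos c.θp 12]
  have dd := hc'.trans hc24
  have d1 := abs_le.1 ((n1 (ζ' - ζ)).trans dd)
  have d2 := abs_le.1 ((n2 (ζ' - ζ)).trans dd)
  have d3 := abs_le.1 ((n3 (ζ' - ζ)).trans dd)
  have d1' : ζ'.1 - ζ.1 = (ζ' - ζ).1 := rfl
  have d2' : ζ'.2.1 - ζ.2.1 = (ζ' - ζ).2.1 := rfl
  have d3' : ζ'.2.2 - ζ.2.2 = (ζ' - ζ).2.2 := rfl
  rw [← d1'] at d1; rw [← d2'] at d2; rw [← d3'] at d3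
  have b1' := abs_le.1 b1
  have b2' := abs_le.1 b2
  have z1 : |ζ'.1| ≤ 5 := by
    norm_num at hs
    rw [abs_le]; constructor <;> linarith [d1.1, d1.2, b1'.1, b1'.2]
  have z2 : |ζ'.2.1| ≤ 1 / 4 := by
    norm_num at hs
    rw [abs_le]; constructor <;> linarith [d2.1, d2.2, b2'.1, b2'.2]
  have hcore := c.hS.core ζ' z1 z2
  have hF2 : FF f u (D 0 ζ') = U θ 0 (ζ' + u (D 0 ζ')) := by
    unfold FF; rw [hcore, U_add]
  set ζ'' := ζ' + u (D 0 ζ') with hζ''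
  have w1 := u_le c (D 0 ζ')
  have w2 := abs_le.1 ((n2 (u (D 0 ζ'))).trans (w1.trans h12))
  have w3 := abs_le.1 ((n3 (u (D 0 ζ'))).trans (w1.trans h12))
  have ζ2'' : ζ''.2.1 = ζ'.2.1 + (u (D 0 ζ')).2.1 := rfl
  have ζ3'' : ζ''.2.2 = ζ'.2.2 + (u (D 0 ζ')).2.2 := rfl
  have hit : (FF f u)^[m + 1] (D m ζ) = U θ 0 ζ'' := by
    rw [Function.iterate_succ_apply', hc, hF2]
  have hr0 : 0 < r θ 0 := r_pos c.θp 0
  have x3 : |ζ''.2.2 - ζ.2.2| ≤ 1 / 10 ^ 22 := by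
    rw [ζ3'']
    norm_num at hs ⊢
    rw [abs_le]; constructor <;> linarith [d3.1, d3.2, w3.1, w3.2]
  have x2 : |ζ''.2.1 - ζ.2.1| ≤ 2 * (θ / 10 ^ 24) := by
    rw [ζ2'', abs_le]; constructor <;> linarith [d2.1, d2.2, w2.1, w2.2]
  rcases Nat.eq_zero_or_pos m with hm | hm
  · subst hm
    refine ⟨0 + 1, l', R (sg l') ((r θ 0)⁻¹ • ζ'' - q l'), hl, ?_, ?_, ?_⟩
    · rw [hit, gate_coord hr0]
    · rw [R_s]
      apply sg_bd
      change |(r θ 0)⁻¹ * ζ''.2.1 - (q l').2.1| ≤ 3 / 1000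
      rw [r_zero] at b3 ⊢
      have : θ⁻¹ * ζ''.2.1 - (q l').2.1 = (ζ''.2.1 - θ * (q l').2.1) / θ := by
        field_simp
      rw [this, abs_div, abs_of_pos hθ, div_le_iff₀ hθ]
      have x2' := abs_le.1 x2
      have b3' := abs_le.1 b3
      rw [abs_le]
      constructor <;> linarith [x2'.1, x2'.2, b3'.1, b3'.2]
    · rw [hit, U_ξ, D_ξ]; exact x3
  · refine ⟨m + 1, 0, R (sg 0) ((r θ 0)⁻¹ • ζ'' - q 0), by omega, ?_, ?_, ?_⟩
    · rw [hit, gate_coord hr0]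
    · rw [R_s]
      apply sg_bd
      change |(r θ 0)⁻¹ * ζ''.2.1 - (q 0).2.1| ≤ 3 / 1000
      have e0 : (q 0).2.1 = 0 := rfl
      have hrm : r θ m ≤ θ * r θ 0 := r_lt c.θp c.θs hm
      rw [r_zero] at hrm ⊢
      have : θ⁻¹ * ζ''.2.1 - (q 0).2.1 = ζ''.2.1 / θ := by
        rw [e0]; field_simp; ring
      rw [this, abs_div, abs_of_pos hθ, div_le_iff₀ hθ]
      have hθ2 : θ * θ ≤ θ / 10 ^ 20 := by nlinarith
      have x2' := abs_le.1 x2
      rw [abs_le]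
      constructor <;> linarith [x2'.1, x2'.2, b2'.1, b2'.2]
    · rw [hit, U_ξ, D_ξ]; exact x3

/-- bounds for the offset after a gate -/
theorem off_bd (c : Ctx α κ θ ω f u) {y v : E} (h : ‖y - v‖ ≤ θ ^ 11) {a : ℝ} (h1 : |v.1| ≤ a) (h2 : |v.2.1| ≤ a) :
    |y.1| ≤ a + θ ^ 11 ∧ |y.2.1| ≤ a + θ ^ 11 := by
  have d1 := abs_le.1 ((n1 (y - v)).trans h)
  have d2 := abs_le.1 ((n2 (y - v)).trans h)
  have d1' : (y - v).1 = y.1 - v.1 := rfl
  have d2' : (y - v).2.1 = y.2.1 - v.2.1 := rfl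
  rw [d1'] at d1; rw [d2'] at d2
  have h1' := abs_le.1 h1
  have h2' := abs_le.1 h2
  constructor <;> rw [abs_le] <;> constructor <;> linarith [d1.1, d1.2, d2.1, d2.2]

/-- after a down gate the orbit reaches a gate of level 0 with nearly the same `ξ` -/
theorem landing (c : Ctx α κ θ ω f u) {p z : E} {m l : ℕ} (hl : l ≤ 6) (h : Gt θ ω f m l z p) :
    (∃ (j l' : ℕ) (w : E), l' ≤ 7 ∧ (FF f u)^[j + 1] p = U θ 0 (r θ 0 • (q l' + R (sg l') w)) ∧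
      |w.2.1| ≤ 3 / 1000 ∧ |((FF f u)^[j + 1] p).2.2 - (FF f u p).2.2| ≤ 1 / 10 ^ 22) ∧
    p.2.2 - 1 / 10 ^ 20 ≤ (FF f u p).2.2 := by
  obtain ⟨hp, hz, hx, b, k, hb, hk, e⟩ := h
  obtain ⟨y, hy, hyv⟩ := gate_F c hp hz e
  rw [tgt_down' hl] at hy
  have t11 := th11 c
  obtain ⟨o1, o2⟩ := off_bd c hyv (a := 2 / 1000) hx hb
  norm_num at t11
  constructor
  · obtain ⟨j, l'', w, a1, a2, a3, a4⟩ := land0 c (m := m) (l' := l + 1) (y := y) (by omega)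
      (by linarith) (by linarith)
    refine ⟨j, l'', w, a1, ?_, a3, ?_⟩
    · rw [Function.iterate_succ_apply, hy]; exact a2
    · rw [Function.iterate_succ_apply, hy]; exact a4
  · have hr := r_pos c.θp m
    have hr1 := r_le c.θp c.θs m
    have hs := c.θs
    obtain ⟨Q3, Q3'⟩ := q_bd3 (l + 1)
    obtain ⟨P3, P3'⟩ := q_bd3 l
    have d3 := abs_le.1 ((n3 (y - _)).trans hyv)
    have d3' : (y - (z.1 + ω z, b, z.2.2 + k)).2.2 = y.2.2 - (z.2.2 + k) := rfl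
    rw [d3'] at d3
    have e1 : (FF f u p).2.2 = r θ m * ((q (l + 1)).2.2 + y.2.2) := by rw [hy]; rfl
    have e2 : p.2.2 = r θ m * ((q l).2.2 + z.2.2) := by rw [hp]; rfl
    rw [e1, e2]
    have h4 : -2 ≤ ((q (l + 1)).2.2 + y.2.2) - ((q l).2.2 + z.2.2) := by linarith [d3.1]
    have h5 := mul_le_mul_of_nonneg_left h4 hr.le
    rw [mul_sub] at h5
    norm_num at hs ⊢
    linarith

end

end Pool.Agent.Y640.CLA
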