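import Pool.Agent.Y640.CLA.D2
import Pool.Agent.Y640.CLA.C

open Pool.Agent.H718R2

open Topology Filter

namespace Pool.Agent.Y640.CLA

section

variable {α κ θ : ℝ} {ω : E → ℝ} {f u : E → E}

theorem FF_diff (c : Ctx α κ θ ω f u) : Differentiable ℝ (FF f u) :=
  (c.hf.differentiable (by norm_num)).add c.hu.diff

theorem u_diff (c : Ctx α κ θ ω f u) : Differentiable ℝ u := c.hu.diff

/-- derivative of a rescaled map -/
theorem scaled (c : Ctx α κ θ ω f u) {ρ : ℝ} (hρ : 0 < ρ) (a : E) {e : E → E} {z : E}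
    (h : e =ᶠ[𝓝 z] fun z => ρ⁻¹ • u (ρ • z + a)) : HasFDerivAt e (fderiv ℝ u (ρ • z + a)) z := by
  have a1 : HasFDerivAt (fun z : E => ρ • z + a) (ρ • ContinuousLinearMap.id ℝ E) z :=
    ((hasFDerivAt_id z).const_smul ρ).add_const a
  have a2 : HasFDerivAt u (fderiv ℝ u (ρ • z + a)) (ρ • z + a) := (u_diff c _).hasFDerivAt
  have a3 := (a2.comp z a1).const_smul ρ⁻¹
  refine (a3.congr_of_eventuallyEq h).congr_fderiv ?_
  apply ContinuousLinearMap.ext
  intro v
  simp [hρ.ne']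

/-- smallness of the climb error -/
theorem small_ec (c : Ctx α κ θ ω f u) (k : ℕ) : Small α (θ ^ 10) (ecF θ (FF f u) k) := by
  have hr := r_pos c.θp k
  have hr1 := r_le c.θp c.θs k
  have hs := c.θs
  have k1 : (1:ℝ) / 10 ^ 24 ≤ 1 / 100000 := by norm_num
  set a : E := (0, -((k + 1 : ℕ) : ℝ), 0) with ha
  have heq : ∀ z : E, ‖z‖ < 1 / 10 → ecF θ (FF f u) k z = (r θ k)⁻¹ • u (r θ k • z + a) := by
    intro z hz
    have z1 := (n1 z).trans hz.le
    have z2 := (n2 z).trans hz.le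
    have h1 : |(r θ k • z).1| ≤ 5 := by
      rw [smul_x]
      have := mul_bd hr.le z1
      linarith
    have h2 : |(r θ k • z).2.1| ≤ r θ k / 2 := by
      rw [smul_s]
      have := mul_bd hr.le z2
      linarith
    unfold ecF FF
    rw [c.hS.climb k _ h1 h2, D_add, Dinv_D, smul_add, smul_smul, inv_mul_cancel₀ hr.ne', one_smul,
      add_sub_cancel_left, D_eq]
  have hev : ∀ z : E, ‖z‖ < 1 / 10 →
      ecF θ (FF f u) k =ᶠ[𝓝 z] fun z => (r θ k)⁻¹ • u (r θ k • z + a) := by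
    intro z hz
    have : {w : E | ‖w‖ < 1 / 10} ∈ 𝓝 z := (isOpen_lt continuous_norm continuous_const).mem_nhds hz
    filter_upwards [this] with w hw
    exact heq w hw
  have hfd : ∀ z : E, ‖z‖ < 1 / 10 → fderiv ℝ (ecF θ (FF f u) k) z = fderiv ℝ u (r θ k • z + a) :=
    fun z hz => (scaled c hr a (hev z hz)).fderiv
  have hlev : ∀ z : E, ‖z‖ < 1 / 10 → ((k + 1 : ℕ) : ℝ) - 1 ≤ |(r θ k • z + a).2.1| := by
    intro z hz
    have e : (r θ k • z + a).2.1 = r θ k * z.2.1 + -((k + 1 : ℕ) : ℝ) := rfl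
    rw [e]
    have h1 := abs_le.1 (mul_bd hr.le ((n2 z).trans hz.le))
    push_cast
    rw [le_abs]; right
    linarith [h1.1, h1.2]
  have hpow : θ ^ (12 * (k + 1 + 1)) ≤ θ ^ 11 * r θ k := by
    unfold r
    rw [← pow_add]
    exact pow_le_pow_of_le_one c.θp.le (by linarith) (by omega)
  have h11 : θ ^ 11 ≤ θ ^ 10 := pow_le_pow_of_le_one c.θp.le (by linarith) (by norm_num)
  have h11p : 0 < θ ^ 11 := pow_pos c.θp 11
  have hr2 : r θ k ≤ 1 := by linarith
  have hlt : (1:ℝ) / 10 ^ 4 < 1 / 10 := by norm_num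
  refine ⟨?_, ?_, ?_, ?_⟩
  · unfold ecF
    have h1 : Differentiable ℝ (fun z : E => FF f u (D (k + 1) (r θ k • z))) :=
      (FF_diff c).comp ((D_diff (k + 1)).comp (differentiable_id.const_smul (r θ k)))
    have h2 : Differentiable ℝ (fun z : E => Dinv k (FF f u (D (k + 1) (r θ k • z)))) :=
      (Dinv_diff k).comp h1
    exact Differentiable.fun_sub (h2.const_smul (r θ k)⁻¹) differentiable_fun_id
  · intro z hz
    have hz' := lt_of_le_of_lt hz hlt
    rw [heq z hz', norm_smul, norm_inv, Real.norm_of_nonneg hr.le, inv_mul_le_iff₀ hr]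
    have := c.hu.b0 _ (k + 1) (hlev z hz')
    nlinarith
  · intro z hz
    have hz' := lt_of_le_of_lt hz hlt
    rw [hfd z hz']
    have := c.hu.b1 _ (k + 1) (hlev z hz')
    nlinarith
  · intro z w hz hw
    have hz' := lt_of_le_of_lt hz hlt
    have hw' := lt_of_le_of_lt hw hlt
    rw [hfd z hz', hfd w hw']
    have h2 := c.hu.b2 (r θ k • z + a) (r θ k • w + a) (k + 1) (hlev z hz') (hlev w hw')
    refine h2.trans ?_
    rw [smul_sub_add, norm_smul, Real.norm_of_nonneg hr.le]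
    have hp0 := pw_nonneg (α := α) (norm_nonneg (z - w))
    have h3 : pw α (r θ k * ‖z - w‖) ≤ pw α ‖z - w‖ := by
      apply pw_mono c.al.1 (by positivity)
      have := norm_nonneg (z - w)
      nlinarith
    have h4 : 0 < θ ^ (12 * (k + 1 + 1)) := pow_pos c.θp _
    have h5 : θ ^ (12 * (k + 1 + 1)) ≤ θ ^ 10 := by
      have : θ ^ 11 * r θ k ≤ θ ^ 11 * 1 := mul_le_mul_of_nonneg_left hr2 h11p.le
      linarith
    exact mul_le_mul h5 h3 (pw_nonneg (by positivity)) (by positivity)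

/-- base case -/
theorem HH_zero (c : Ctx α κ θ ω f u) : HH α κ θ (FF f u) 0 := by
  have hθ := c.θp
  have hs := c.θs
  have hκ := c.hκ
  have k1 : (1:ℝ) / 10 ^ 24 ≤ 1 / 100000 := by norm_num
  have hr0 : r θ 0 = θ := r_zero
  set a : E := (0, -((0 : ℕ) : ℝ), 0) with ha
  have heq : ∀ z : E, |z.1| < 8 → |z.2.1| < 8 → Ph θ (FF f u) 0 z = θ⁻¹ • u (θ • z + a) := by
    intro z z1 z2
    have h1 : |(θ • z).1| ≤ 5 := by
      rw [smul_x]
      have := mul_bd hθ.le z1.le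
      linarith
    have h2 : |(θ • z).2.1| ≤ 1 / 4 := by
      rw [smul_s]
      have := mul_bd hθ.le z2.le
      linarith
    unfold Ph
    rw [hr0]
    change θ⁻¹ • Uinv θ 0 (FF f u (D 0 (θ • z))) - z = _
    unfold FF
    rw [c.hS.core _ h1 h2, U_add, Uinv_U, smul_add, smul_smul, inv_mul_cancel₀ hθ.ne', one_smul,
      add_sub_cancel_left, D_eq]
  have hopen : ∀ z : E, |z.1| < 8 → |z.2.1| < 8 → {w : E | |w.1| < 8 ∧ |w.2.1| < 8} ∈ 𝓝 z := by
    intro z z1 z2
    have ho1 : IsOpen {w : E | |w.1| < 8} := isOpen_lt (by fun_prop) continuous_const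
    have ho2 : IsOpen {w : E | |w.2.1| < 8} := isOpen_lt (by fun_prop) continuous_const
    exact (ho1.inter ho2).mem_nhds ⟨z1, z2⟩
  have hfd : ∀ z : E, |z.1| < 8 → |z.2.1| < 8 →
      fderiv ℝ (Ph θ (FF f u) 0) z = fderiv ℝ u (θ • z + a) := by
    intro z z1 z2
    apply HasFDerivAt.fderiv
    apply scaled c hθ a
    filter_upwards [hopen z z1 z2] with w hw
    exact heq w hw.1 hw.2
  have hu1 : ∀ p, ‖fderiv ℝ u p‖ ≤ θ ^ 12 := fun p => by
    simpa using c.hu.b1 p 0 (by simp; linarith [abs_nonneg p.2.1])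
  have hu2 : ∀ p p' : E, ‖fderiv ℝ u p - fderiv ℝ u p'‖ ≤ θ ^ 12 * pw α ‖p - p'‖ := fun p p' => by
    simpa using c.hu.b2 p p' 0 (by simp; linarith [abs_nonneg p.2.1])
      (by simp; linarith [abs_nonneg p'.2.1])
  have h12 : θ ^ 12 ≤ θ / 10 ^ 24 := pow_le_θ c.θp c.θs (a := 12) (by norm_num)
  have hκ24 : θ ≤ κ ^ 9 := by
    rw [c.hθ]
    exact pow_le_pow_of_le_one hκ.le (by linarith [c.hκ', show (1:ℝ) / 10 ^ 12 ≤ 1 by norm_num]) (by norm_num)
  refine ⟨⟨c.al, ?_, ?_, ?_⟩, ?_⟩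
  · have h1 : Differentiable ℝ (fun z : E => FF f u (D 0 (r θ 0 • z))) :=
      (FF_diff c).comp ((D_diff 0).comp (differentiable_id.const_smul (r θ 0)))
    have h2 : Ph θ (FF f u) 0 = fun z => (r θ 0)⁻¹ • Uinv θ 0 (FF f u (D 0 (r θ 0 • z))) - z := rfl
    rw [h2]
    have h3 : Differentiable ℝ (fun z : E => Uinv θ 0 (FF f u (D 0 (r θ 0 • z)))) :=
      (Uinv_diff θ 0).comp h1
    exact Differentiable.fun_sub (h3.const_smul (r θ 0)⁻¹) differentiable_fun_id
  · rintro p ⟨p1, p2, _⟩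
    rw [hfd p (by linarith) (by linarith)]
    refine (hu1 _).trans ?_
    have : θ / 10 ^ 24 ≤ θ := by
      rw [div_le_iff₀ (by norm_num)]
      nlinarith
    linarith
  · rintro p ⟨p1, p2, _⟩ p' ⟨p1', p2', _⟩
    rw [hfd p (by linarith) (by linarith), hfd p' (by linarith) (by linarith)]
    refine (hu2 _ _).trans ?_
    rw [smul_sub_add, norm_smul, Real.norm_of_nonneg hθ.le]
    have h3 : pw α (θ * ‖p - p'‖) ≤ pw α ‖p - p'‖ := by
      apply pw_mono c.al.1 (by positivity)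
      have := norm_nonneg (p - p')
      nlinarith
    have h4 : θ ^ 12 ≤ θ ^ 9 := pow_le_pow_of_le_one hθ.le (by linarith) (by norm_num)
    have h5 : θ ^ 12 * pw α (θ * ‖p - p'‖) ≤ θ ^ 9 * pw α ‖p - p'‖ :=
      mul_le_mul h4 h3 (pw_nonneg (by positivity)) (by positivity)
    have h6 : 0 ≤ 5 / 10 ^ 10 * θ * ‖p - p'‖ := by positivity
    linarith
  · rintro p ⟨p1, p2, _⟩
    rw [heq p (by linarith) (by linarith)]
    refine (n2 _).trans ?_
    rw [norm_smul, norm_inv, Real.norm_of_nonneg hθ.le, inv_mul_le_iff₀ hθ]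
    refine (u_le c _).trans (h12.trans ?_)
    rw [div_le_iff₀ (by norm_num)]
    nlinarith

end

end Pool.Agent.Y640.CLA
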