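import Pool.Agent.Y640.CLA.D3j

open Pool.Agent.H718R2

open Topology Filter

namespace Pool.Agent.Y640.CLA

section

variable {α κ θ : ℝ} {ω : E → ℝ} {f u : E → E}

/-- smallness of the gate error -/
theorem small_e (c : Ctx α κ θ ω f u) (k l : ℕ) (hl : l ≤ 7) :
    Small α (θ ^ 10) (eF θ (FF f u) ω k l) := by
  have hr := r_pos c.θp k
  have hr1 := r_le c.θp c.θs k
  have hs := c.θs
  have k1 : (1:ℝ) / 10 ^ 24 ≤ 1 / 100000 := by norm_num
  set P : E → E := fun z => U θ k (r θ k • (q l + R (sg l) z)) with hP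
  have hPd : ∀ z, HasFDerivAt P (r θ k • RL (sg l)) z := by
    intro z
    have e : P = fun z => (r θ k • RL (sg l) z) + (r θ k • q l + ((0, (k : ℝ) + 1 + uy θ k, 0) : E)) := by
      funext z
      rw [hP]
      simp only
      rw [U_eq, smul_add, RL_apply]
      abel
    rw [e]
    exact (((RL (sg l)).hasFDerivAt).const_smul (r θ k)).add_const _
  have heq : ∀ z : E, ‖z‖ < 1 / 2000 →
      eF θ (FF f u) ω k l z = RL (sg (l + 1)) ((r θ k)⁻¹ • u (P z)) := by
    intro z hz
    have z1 := (n1 z).trans hz.le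
    have z2 := (n2 z).trans hz.le
    have z3 := (n3 z).trans hz.le
    have hg := c.hS.gentle k l hl z z1 (by linarith) (by linarith)
    have hn : nxt θ (FF f u) k l z = z + (ω z, 0, 0) + R (sg (l + 1)) ((r θ k)⁻¹ • u (P z)) := by
      apply nxt_eq c.θp
      change f (P z) + u (P z) = _
      have hg' : f (P z) = tgt θ k l (r θ k • R (sg (l + 1)) (z + (ω z, 0, 0))) := hg
      rw [hg']
      have e : r θ k • R (sg (l + 1)) (z + (ω z, 0, 0) + R (sg (l + 1)) ((r θ k)⁻¹ • u (P z))) =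
          r θ k • R (sg (l + 1)) (z + (ω z, 0, 0)) + u (P z) := by
        rw [R_add _ (z + (ω z, 0, 0)), R_sg, smul_add, smul_smul, mul_inv_cancel₀ hr.ne', one_smul]
      rw [e]
      unfold tgt
      split
      · rw [D_add, add_assoc]
      · rw [U_add]
    unfold eF
    rw [hn, RL_apply]
    abel
  have hev : ∀ z : E, ‖z‖ < 1 / 2000 →
      eF θ (FF f u) ω k l =ᶠ[𝓝 z] fun z => RL (sg (l + 1)) ((r θ k)⁻¹ • u (P z)) := by
    intro z hz
    have : {w : E | ‖w‖ < 1 / 2000} ∈ 𝓝 z := (isOpen_lt continuous_norm continuous_const).mem_nhds hz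
    filter_upwards [this] with w hw
    exact heq w hw
  have hfd : ∀ z : E, ‖z‖ < 1 / 2000 → fderiv ℝ (eF θ (FF f u) ω k l) z =
      (RL (sg (l + 1))).comp ((fderiv ℝ u (P z)).comp (RL (sg l))) := by
    intro z hz
    apply HasFDerivAt.fderiv
    have a2 : HasFDerivAt u (fderiv ℝ u (P z)) (P z) := (u_diff c _).hasFDerivAt
    have a3 := (a2.comp z (hPd z)).const_smul (r θ k)⁻¹
    have a4 := ((RL (sg (l + 1))).hasFDerivAt).comp z a3
    refine (a4.congr_of_eventuallyEq (hev z hz)).congr_fderiv ?_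
    apply ContinuousLinearMap.ext
    intro v
    simp [hr.ne']
  have hbd : ∀ (A : E →L[ℝ] E), ‖(RL (sg (l + 1))).comp (A.comp (RL (sg l)))‖ ≤ ‖A‖ := by
    intro A
    calc ‖(RL (sg (l + 1))).comp (A.comp (RL (sg l)))‖ ≤ ‖RL (sg (l + 1))‖ * (‖A‖ * ‖RL (sg l)‖) :=
        (ContinuousLinearMap.opNorm_comp_le _ _).trans
          (mul_le_mul_of_nonneg_left (ContinuousLinearMap.opNorm_comp_le _ _) (norm_nonneg _))
      _ ≤ 1 * (‖A‖ * 1) := by
        gcongr
        · exact RL_norm _
        · exact RL_norm _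
      _ = ‖A‖ := by ring
  have hlow : ∀ z : E, ‖z‖ < 1 / 2000 → (k : ℝ) ≤ (P z).2.1 := by
    intro z hz
    have z2 := (n2 z).trans hz.le
    have h1 := U_lev c (m := k) (l := l) (z := z) (by linarith)
    have h2 := abs_le.1 (gh (θ := θ) (k := k) (l := l) hr.le z2)
    change (k : ℝ) ≤ (U θ k (r θ k • (q l + R (sg l) z))).2.1
    rw [U_s]
    have := uy_nonneg c.θp k
    linarith [h2.1]
  have hlev : ∀ z : E, ‖z‖ < 1 / 2000 → (k : ℝ) - 1 ≤ |(P z).2.1| := by
    intro z hz
    have := hlow z hz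
    rw [le_abs]; left; linarith
  have hpow : θ ^ (12 * (k + 1)) ≤ θ ^ 11 * r θ k := er_r c.θp c.θs k
  have h11 : θ ^ 11 ≤ θ ^ 10 := pow_le_pow_of_le_one c.θp.le (by linarith) (by norm_num)
  have h11p : 0 < θ ^ 11 := pow_pos c.θp 11
  have hr2 : r θ k ≤ 1 := by linarith
  have hlt : (1:ℝ) / 10 ^ 4 < 1 / 2000 := by norm_num
  refine ⟨?_, ?_, ?_, ?_⟩
  · have hFP : Differentiable ℝ (fun z => FF f u (P z)) :=
      (FF_diff c).comp (fun z => (hPd z).differentiableAt)
    have hω : Differentiable ℝ ω := c.hω.smooth.differentiable (by norm_num)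
    have hω' : Differentiable ℝ (fun z : E => ((ω z, 0, 0) : E)) :=
      hω.prodMk (differentiable_const _)
    have hn : Differentiable ℝ (nxt θ (FF f u) k l) := by
      have e : nxt θ (FF f u) k l = fun z => if l < 7 then
        R (sg (l + 1)) ((r θ k)⁻¹ • Dinv k (FF f u (P z)) - q (l + 1))
        else R (sg (l + 1)) ((r θ k)⁻¹ • Uinv θ (k + 1) (FF f u (P z))) := rfl
      rw [e]
      by_cases h7 : l < 7
      · simp only [if_pos h7]
        have h2 : Differentiable ℝ (fun z => Dinv k (FF f u (P z))) := (Dinv_diff k).comp hFP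
        exact (R_diff _).comp ((h2.const_smul (r θ k)⁻¹).sub_const _)
      · simp only [if_neg h7]
        have h2 : Differentiable ℝ (fun z => Uinv θ (k + 1) (FF f u (P z))) :=
          (Uinv_diff θ (k + 1)).comp hFP
        exact (R_diff _).comp (h2.const_smul (r θ k)⁻¹)
    exact (hn.fun_sub differentiable_fun_id).fun_sub hω'
  · intro z hz
    have hz' := lt_of_le_of_lt hz hlt
    rw [heq z hz', RL_apply, R_norm (abs_sg _), norm_smul, norm_inv, Real.norm_of_nonneg hr.le,
      inv_mul_le_iff₀ hr]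
    have := c.hu.b0 _ k (hlev z hz')
    nlinarith
  · intro z hz
    have hz' := lt_of_le_of_lt hz hlt
    rw [hfd z hz']
    refine (hbd _).trans ?_
    have := c.hu.b1 _ k (hlev z hz')
    nlinarith
  · intro z w hz hw
    have hz' := lt_of_le_of_lt hz hlt
    have hw' := lt_of_le_of_lt hw hlt
    rw [hfd z hz', hfd w hw']
    have e1 : (RL (sg (l + 1))).comp ((fderiv ℝ u (P z)).comp (RL (sg l))) -
        (RL (sg (l + 1))).comp ((fderiv ℝ u (P w)).comp (RL (sg l))) =
        (RL (sg (l + 1))).comp ((fderiv ℝ u (P z) - fderiv ℝ u (P w)).comp (RL (sg l))) := by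
      apply ContinuousLinearMap.ext; intro v; simp
    rw [e1]
    refine (hbd _).trans ?_
    have h2 := c.hu.b2 (P z) (P w) k (hlev z hz') (hlev w hw')
    refine h2.trans ?_
    have e2 : P z - P w = r θ k • R (sg l) (z - w) := by
      change U θ k (r θ k • (q l + R (sg l) z)) - U θ k (r θ k • (q l + R (sg l) w)) = _
      rw [U_eq, U_eq, R_sub, smul_add, smul_add, smul_sub]; abel
    rw [e2, norm_smul, Real.norm_of_nonneg hr.le, R_norm (abs_sg _)]
    have hp0 := pw_nonneg (α := α) (norm_nonneg (z - w))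
    have h3 : pw α (r θ k * ‖z - w‖) ≤ pw α ‖z - w‖ := by
      apply pw_mono c.al.1 (by positivity)
      have := norm_nonneg (z - w)
      nlinarith
    have h4 : 0 < θ ^ (12 * (k + 1)) := pow_pos c.θp _
    have h5 : θ ^ (12 * (k + 1)) ≤ θ ^ 10 := by
      have : θ ^ 11 * r θ k ≤ θ ^ 11 * 1 := mul_le_mul_of_nonneg_left hr2 h11p.le
      linarith
    exact mul_le_mul h5 h3 (pw_nonneg (by positivity)) (by positivity)

end

end Pool.Agent.Y640.CLA
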