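import Pool.Agent.Y640.CL.D5

/-!
# `C^{1+α}` perturbations: definitions
-/

open Pool.Agent.H718R2

namespace Pool.Agent.Y640.CLA

/-- the modulus of continuity `t ↦ t ^ α` -/
noncomputable def pw (α t : ℝ) : ℝ := t ^ α

theorem pw_nonneg {α t : ℝ} (ht : 0 ≤ t) : 0 ≤ pw α t := Real.rpow_nonneg ht α

theorem pw_mono {α s t : ℝ} (hα : 0 < α) (hs : 0 ≤ s) (h : s ≤ t) : pw α s ≤ pw α t :=
  Real.rpow_le_rpow hs h hα.le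

theorem pw_mul {α s t : ℝ} (hs : 0 ≤ s) (ht : 0 ≤ t) : pw α (s * t) = pw α s * pw α t :=
  Real.mul_rpow hs ht

theorem pw_le {α t : ℝ} (hα : α ≤ 1) (ht : 1 ≤ t) : pw α t ≤ t := by
  have := Real.rpow_le_rpow_of_exponent_le ht hα
  rwa [Real.rpow_one] at this

theorem pw_scale {α c t : ℝ} (hα : α ≤ 1) (hc : 1 ≤ c) (ht : 0 ≤ t) : pw α (c * t) ≤ c * pw α t := by
  rw [pw_mul (by linarith) ht]
  exact mul_le_mul_of_nonneg_right (pw_le hα hc) (pw_nonneg ht)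

theorem pw_le_one {α t : ℝ} (hα : 0 < α) (ht : 0 ≤ t) (ht1 : t ≤ 1) : pw α t ≤ 1 :=
  Real.rpow_le_one ht ht1 hα.le

theorem le_pw {α t : ℝ} (hα0 : 0 < α) (hα : α ≤ 1) (ht : 0 ≤ t) (ht1 : t ≤ 1) : t ≤ pw α t := by
  rcases ht.eq_or_lt with h | h
  · rw [← h]; exact pw_nonneg le_rfl
  · have := Real.rpow_le_rpow_of_exponent_ge h ht1 hα
    rwa [Real.rpow_one] at this

theorem pw_zero {α : ℝ} (hα : 0 < α) : pw α 0 = 0 := Real.zero_rpow hα.ne'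

/-- bounds of the return map `Φ` on the box -/
structure Ret (α κ θ L : ℝ) (Φ : E → E) : Prop where
  al : 0 < α ∧ α ≤ 1
  diff : Differentiable ℝ Φ
  slope : ∀ p ∈ Box L, ‖fderiv ℝ Φ p‖ ≤ κ ^ 9
  lip : ∀ p ∈ Box L, ∀ p' ∈ Box L, ‖fderiv ℝ Φ p - fderiv ℝ Φ p'‖ ≤
    5 / 10 ^ 10 * θ * ‖p - p'‖ + θ ^ 9 * pw α ‖p - p'‖

/-- small error terms -/
structure Small (α c : ℝ) (e : E → E) : Prop where
  diff : Differentiable ℝ e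
  b0 : ∀ z, ‖z‖ ≤ 1 / 10 ^ 4 → ‖e z‖ ≤ c
  b1 : ∀ z, ‖z‖ ≤ 1 / 10 ^ 4 → ‖fderiv ℝ e z‖ ≤ c
  b2 : ∀ z w, ‖z‖ ≤ 1 / 10 ^ 4 → ‖w‖ ≤ 1 / 10 ^ 4 →
    ‖fderiv ℝ e z - fderiv ℝ e w‖ ≤ c * pw α ‖z - w‖

/-- induction hypothesis on the return map of level `k` -/
structure HH (α κ θ : ℝ) (F : E → E) (k : ℕ) : Prop where
  ret : Ret α κ θ (LL κ k) (Ph θ F k)
  yb : ∀ ζ ∈ Box (LL κ k), |(Ph θ F k ζ).2.1| ≤ 1 / 2000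

/-- allowed perturbations: `u` of class `C^{1+α}` -/
structure PertA (α θ : ℝ) (u : E → E) : Prop where
  diff : Differentiable ℝ u
  b0 : ∀ (p : E) (m : ℕ), (m : ℝ) - 1 ≤ |p.2.1| → ‖u p‖ ≤ θ ^ (12 * (m + 1))
  b1 : ∀ (p : E) (m : ℕ), (m : ℝ) - 1 ≤ |p.2.1| → ‖fderiv ℝ u p‖ ≤ θ ^ (12 * (m + 1))
  b2 : ∀ (p p' : E) (m : ℕ), (m : ℝ) - 1 ≤ |p.2.1| → (m : ℝ) - 1 ≤ |p'.2.1| →
    ‖fderiv ℝ u p - fderiv ℝ u p'‖ ≤ θ ^ (12 * (m + 1)) * pw α ‖p - p'‖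

structure Ctx (α κ θ : ℝ) (ω : E → ℝ) (f u : E → E) : Prop where
  al : 0 < α ∧ α ≤ 1
  alθ : pw α θ ≤ 1 / 10
  hκ : 0 < κ
  hκ' : κ ≤ 1 / 10 ^ 12
  hθ : θ = κ ^ 24
  hω : Wind κ θ ω
  hf : ContDiff ℝ 2 f
  hS : Sys θ ω f
  hu : PertA α θ u

end Pool.Agent.Y640.CLA
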