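import Pool.Agent.H718R2.K1a
import Pool.Agent.Y640.CLA.Defs

/-!
# Graph transform in class `C^{1+α}`
-/

open scoped ContDiff Topology
open Set Filter

namespace Pool.Agent.Y640.CLA

section sm
variable {X Y Z : Type*} [NormedAddCommGroup X] [NormedSpace ℝ X] [NormedAddCommGroup Y]
  [NormedSpace ℝ Y] [NormedAddCommGroup Z] [NormedSpace ℝ Z]

/-- maps which are `C^{1+α}`-small of size `δ` -/
structure SmA (α : ℝ) (δ : X → ℝ) (u : X → Y) : Prop where
  diff : Differentiable ℝ u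
  b0 : ∀ z, ‖u z‖ ≤ δ z
  b1 : ∀ z, ‖fderiv ℝ u z‖ ≤ δ z
  b2 : ∀ z z', ‖z - z'‖ ≤ 1 → ‖fderiv ℝ u z - fderiv ℝ u z'‖ ≤ δ z * pw α ‖z - z'‖

theorem SmA.mono {α : ℝ} {δ δ' : X → ℝ} {u : X → Y} (h : SmA α δ u) (hδ : ∀ z, δ z ≤ δ' z) :
    SmA α δ' u :=
  ⟨h.diff, fun z => (h.b0 z).trans (hδ z), fun z => (h.b1 z).trans (hδ z), fun z z' hz =>
    (h.b2 z z' hz).trans (mul_le_mul_of_nonneg_right (hδ z) (pw_nonneg (norm_nonneg _)))⟩

theorem SmA.nonneg {α : ℝ} {δ : X → ℝ} {u : X → Y} (h : SmA α δ u) (z : X) : 0 ≤ δ z :=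
  (norm_nonneg _).trans (h.b0 z)

theorem SmA.clm {α : ℝ} {δ : X → ℝ} {u : X → Y} (h : SmA α δ u) (L : Y →L[ℝ] Z) (hL : ‖L‖ ≤ 1) :
    SmA α δ (fun z => L (u z)) := by
  have hd : ∀ z, fderiv ℝ (fun z => L (u z)) z = L.comp (fderiv ℝ u z) := fun z =>
    (L.hasFDerivAt.comp z (h.diff z).hasFDerivAt).fderiv
  have hn : ∀ T : X →L[ℝ] Y, ‖L.comp T‖ ≤ ‖T‖ := fun T => by
    refine (L.opNorm_comp_le T).trans ?_
    calc ‖L‖ * ‖T‖ ≤ 1 * ‖T‖ := by gcongr
      _ = ‖T‖ := one_mul _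
  refine ⟨fun z => (L.differentiable _).comp z (h.diff z), fun z => ?_, fun z => ?_,
    fun z z' hz => ?_⟩
  · refine (L.le_opNorm _).trans ?_
    calc ‖L‖ * ‖u z‖ ≤ 1 * ‖u z‖ := by gcongr
      _ ≤ δ z := by rw [one_mul]; exact h.b0 z
  · rw [hd]; exact (hn _).trans (h.b1 z)
  · rw [hd, hd, ← ContinuousLinearMap.comp_sub]
    exact (hn _).trans (h.b2 z z' hz)

theorem SmA.lip {α c : ℝ} {δ : X → ℝ} {u : X → Y} (h : SmA α δ u) (hc : ∀ z, δ z ≤ c) (z z' : X) :
    ‖u z - u z'‖ ≤ c * ‖z - z'‖ :=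
  Convex.norm_image_sub_le_of_norm_fderiv_le (𝕜 := ℝ) (s := univ) (fun z _ => h.diff z)
    (fun z _ => (h.b1 z).trans (hc z)) convex_univ (mem_univ _) (mem_univ _)

/-- Landau's inequality -/
theorem landauA {w : X → Y} (hw : Differentiable ℝ w) {α B a : ℝ} (hα : 0 < α) (ha : 0 ≤ a)
    (h2 : ∀ p q, ‖p - q‖ ≤ 1 → ‖fderiv ℝ w p - fderiv ℝ w q‖ ≤ B * pw α ‖p - q‖)
    (h0 : ∀ p, ‖w p‖ ≤ a) (hB : 0 ≤ B) {s : ℝ} (hs : 0 < s) (hs1 : s ≤ 1) (p : X) :
    ‖fderiv ℝ w p‖ ≤ B * pw α s + 2 * a / s := by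
  have hps : 0 ≤ pw α s := pw_nonneg hs.le
  apply ContinuousLinearMap.opNorm_le_bound _ (by positivity)
  intro e
  rcases eq_or_ne e 0 with rfl | he
  · simp
  have he' : 0 < ‖e‖ := norm_pos_iff.2 he
  set t : ℝ := s / ‖e‖ with ht
  have ht0 : 0 < t := by positivity
  have hte : ‖t • e‖ = s := by
    rw [norm_smul, Real.norm_of_nonneg ht0.le, ht]
    field_simp
  set φ : X → Y := fun y => w y - fderiv ℝ w p y with hφ
  have hφd : ∀ y, HasFDerivAt φ (fderiv ℝ w y - fderiv ℝ w p) y := fun y =>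
    (hw y).hasFDerivAt.sub (fderiv ℝ w p).hasFDerivAt
  have h1 : ‖φ (p + t • e) - φ p‖ ≤ (B * pw α s) * ‖(p + t • e) - p‖ := by
    refine Convex.norm_image_sub_le_of_norm_hasFDerivWithin_le (𝕜 := ℝ) (s := Metric.closedBall p s)
      (f' := fun y => fderiv ℝ w y - fderiv ℝ w p)
      (fun y _ => (hφd y).hasFDerivWithinAt) ?_ (convex_closedBall _ _)
      (Metric.mem_closedBall_self hs.le) ?_
    · intro y hy
      rw [Metric.mem_closedBall, dist_eq_norm] at hy
      refine (h2 y p (hy.trans hs1)).trans ?_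
      exact mul_le_mul_of_nonneg_left (pw_mono hα (norm_nonneg _) hy) hB
    · rw [Metric.mem_closedBall, dist_eq_norm, add_sub_cancel_left, hte]
  rw [add_sub_cancel_left, hte] at h1
  have e1 : φ (p + t • e) - φ p = w (p + t • e) - w p - t • fderiv ℝ w p e := by
    simp only [hφ, map_add, map_smul]
    abel
  rw [e1] at h1
  have h3 : ‖t • fderiv ℝ w p e‖ ≤ B * pw α s * s + 2 * a := by
    have : t • fderiv ℝ w p e = (w (p + t • e) - w p) -
        (w (p + t • e) - w p - t • fderiv ℝ w p e) := by abel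
    rw [this]
    refine (norm_sub_le _ _).trans ?_
    have := norm_sub_le (w (p + t • e)) (w p)
    have := h0 (p + t • e)
    have := h0 p
    linarith
  rw [norm_smul, Real.norm_of_nonneg ht0.le] at h3
  have h4 : ‖fderiv ℝ w p e‖ ≤ (B * pw α s * s + 2 * a) / t := by
    rw [le_div_iff₀ ht0, mul_comm]; exact h3
  refine h4.trans (le_of_eq ?_)
  rw [ht]
  field_simp

/-- limits of uniformly `C^{1+α}`-small maps -/
theorem lim_A [CompleteSpace Y] {α : ℝ} (hα : 0 < α) {δ : X → ℝ} (hδ : ∀ p, δ p ≤ 1)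
    (v : ℕ → X → Y) (hv : ∀ N, SmA α δ (v N)) {A : ℝ} (hA : 0 ≤ A)
    (h0 : ∀ N p, ‖v (N + 1) p - v N p‖ ≤ A * (1 / 2) ^ N) :
    ∃ w : X → Y, SmA α δ w ∧ ∀ p, Tendsto (fun N => v N p) atTop (𝓝 (w p)) := by
  set ρ : ℝ := max (pw α (3 / 4)) (2 / 3) with hρ
  have hρ0 : 0 < ρ := lt_of_lt_of_le (by norm_num) (le_max_right _ _)
  have hρ1 : ρ < 1 := max_lt (Real.rpow_lt_one (by norm_num) (by norm_num) hα) (by norm_num)
  have h1 : ∀ N p, ‖fderiv ℝ (v (N + 1)) p - fderiv ℝ (v N) p‖ ≤ (2 * (1 + A)) * ρ ^ N := by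
    intro N p
    have hdw : Differentiable ℝ (fun p => v (N + 1) p - v N p) := (hv _).diff.sub (hv _).diff
    have hfd : ∀ p, fderiv ℝ (fun p => v (N + 1) p - v N p) p =
        fderiv ℝ (v (N + 1)) p - fderiv ℝ (v N) p := fun p => by
      exact fderiv_fun_sub ((hv _).diff p) ((hv _).diff p)
    have hL : ∀ p q, ‖p - q‖ ≤ 1 → ‖fderiv ℝ (fun p => v (N + 1) p - v N p) p -
        fderiv ℝ (fun p => v (N + 1) p - v N p) q‖ ≤ 2 * pw α ‖p - q‖ := by
      intro p q hpq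
      rw [hfd, hfd]
      have a1 := (hv (N + 1)).b2 p q hpq
      have a2 := (hv N).b2 p q hpq
      have a0 := pw_nonneg (α := α) (norm_nonneg (p - q))
      have a3 : δ p * pw α ‖p - q‖ ≤ 1 * pw α ‖p - q‖ := mul_le_mul_of_nonneg_right (hδ p) a0
      have e : (fderiv ℝ (v (N + 1)) p - fderiv ℝ (v N) p) - (fderiv ℝ (v (N + 1)) q - fderiv ℝ (v N) q) =
        (fderiv ℝ (v (N + 1)) p - fderiv ℝ (v (N + 1)) q) - (fderiv ℝ (v N) p - fderiv ℝ (v N) q) := by
        abel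
      rw [e]
      refine (norm_sub_le _ _).trans ?_
      linarith
    have h3 := landauA hdw hα (a := A * (1 / 2) ^ N) (by positivity) hL (h0 N) (by norm_num)
      (s := (3 / 4) ^ N) (by positivity) (pow_le_one₀ (by norm_num) (by norm_num)) p
    rw [hfd] at h3
    refine h3.trans ?_
    have e1 : 2 * (A * (1 / 2) ^ N) / (3 / 4) ^ N = 2 * A * (2 / 3) ^ N := by
      have : ((1:ℝ) / 2) ^ N = (2 / 3) ^ N * (3 / 4) ^ N := by
        rw [← mul_pow]; norm_num
      rw [this]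
      field_simp
    have e0 : pw α ((3 / 4) ^ N) = (pw α (3 / 4)) ^ N := by
      unfold pw
      rw [Real.rpow_pow_comm (by norm_num)]
    rw [e1, e0]
    have e2 : ((2:ℝ) / 3) ^ N ≤ ρ ^ N := pow_le_pow_left₀ (by norm_num) (le_max_right _ _) N
    have e3 : (pw α (3 / 4)) ^ N ≤ ρ ^ N :=
      pow_le_pow_left₀ (pw_nonneg (by norm_num)) (le_max_left _ _) N
    have e4 : 2 * A * ((2:ℝ) / 3) ^ N ≤ 2 * A * ρ ^ N :=
      mul_le_mul_of_nonneg_left e2 (by positivity)
    calc 2 * (pw α (3 / 4)) ^ N + 2 * A * (2 / 3) ^ N ≤ 2 * ρ ^ N + 2 * A * ρ ^ N := by linarith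
      _ = _ := by ring
  have hdist1 : ∀ p, ∀ N, dist (fderiv ℝ (v N) p) (fderiv ℝ (v (N + 1)) p) ≤
      (2 * (1 + A)) * ρ ^ N := by
    intro p N
    rw [dist_comm, dist_eq_norm]; exact h1 N p
  have hdist0 : ∀ p, ∀ N, dist (v N p) (v (N + 1) p) ≤ A * (1 / 2) ^ N := by
    intro p N
    rw [dist_comm, dist_eq_norm]; exact h0 N p
  have hc0 : ∀ p, ∃ w, Tendsto (fun N => v N p) atTop (𝓝 w) := fun p =>
    cauchySeq_tendsto_of_complete (cauchySeq_of_le_geometric _ _ (by norm_num) (hdist0 p))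
  have hc1 : ∀ p, ∃ w, Tendsto (fun N => fderiv ℝ (v N) p) atTop (𝓝 w) := fun p =>
    cauchySeq_tendsto_of_complete (cauchySeq_of_le_geometric _ _ hρ1 (hdist1 p))
  choose w hw using hc0
  choose w' hw' using hc1
  have hder : ∀ p, HasFDerivAt w (w' p) p := by
    apply hasFDerivAt_of_tendstoUniformly (l := atTop) (f := v) (f' := fun N => fderiv ℝ (v N))
    · rw [Metric.tendstoUniformly_iff]
      intro ε hε
      have ht : Tendsto (fun N : ℕ => (2 * (1 + A)) * ρ ^ N / (1 - ρ)) atTop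
          (𝓝 ((2 * (1 + A)) * 0 / (1 - ρ))) :=
        ((tendsto_pow_atTop_nhds_zero_of_lt_one hρ0.le hρ1).const_mul _).div_const _
      rw [mul_zero, zero_div] at ht
      filter_upwards [ht.eventually (gt_mem_nhds hε)] with N hN p
      rw [dist_comm]
      exact (dist_le_of_le_geometric_of_tendsto _ _ hρ1 (hdist1 p) (hw' p) N).trans_lt hN
    · exact fun N p => ((hv N).diff p).hasFDerivAt
    · exact hw
  have hfw : ∀ p, fderiv ℝ w p = w' p := fun p => (hder p).fderiv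
  refine ⟨w, ⟨fun p => (hder p).differentiableAt, fun p => ?_, fun p => ?_, fun p q hpq => ?_⟩, hw⟩
  · exact le_of_tendsto' (hw p).norm fun N => (hv N).b0 p
  · rw [hfw]
    exact le_of_tendsto' (hw' p).norm fun N => (hv N).b1 p
  · rw [hfw, hfw]
    exact le_of_tendsto' ((hw' p).sub (hw' q)).norm fun N => (hv N).b2 p q hpq

end sm

section gt
variable {E W : Type*} [NormedAddCommGroup E] [NormedSpace ℝ E] [NormedAddCommGroup W]
  [NormedSpace ℝ W]

/-- the class of graphs -/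
structure HA (α : ℝ) (h : E → W) : Prop where
  diff : Differentiable ℝ h
  b0 : ∀ p, ‖h p‖ ≤ 1 / 2
  b1 : ∀ p, ‖fderiv ℝ h p‖ ≤ 1 / 2
  b2 : ∀ p q, ‖fderiv ℝ h p - fderiv ℝ h q‖ ≤ pw α ‖p - q‖

theorem HA.lip {α : ℝ} {h : E → W} (hh : HA α h) (p q : E) : ‖h p - h q‖ ≤ 1 / 2 * ‖p - q‖ :=
  Convex.norm_image_sub_le_of_norm_fderiv_le (𝕜 := ℝ) (s := univ) (fun z _ => hh.diff z)
    (fun z _ => hh.b1 z) convex_univ (mem_univ _) (mem_univ _)

theorem graph_SmA {X : Type*} [NormedAddCommGroup X] [NormedSpace ℝ X] {α : ℝ} {δ : E → ℝ}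
    {u : E × W → X} (hu : SmA α (fun z => δ z.1) u) {h : E → W} (hh : HA α h) :
    SmA α (fun p => 2 * δ p) (fun p => u (p, h p)) := by
  have hδ : ∀ p, 0 ≤ δ p := fun p => hu.nonneg (p, h p)
  set Γ : E → E →L[ℝ] E × W := fun p => (ContinuousLinearMap.id ℝ E).prod (fderiv ℝ h p) with hΓ
  have hΓn : ∀ p, ‖Γ p‖ ≤ 1 := by
    intro p
    rw [hΓ]
    apply ContinuousLinearMap.opNorm_le_bound _ zero_le_one
    intro v
    rw [one_mul]
    refine max_le le_rfl ?_
    refine ((fderiv ℝ h p).le_opNorm v).trans ?_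
    have := hh.b1 p
    have := norm_nonneg v
    nlinarith
  have hΓd : ∀ p q, ‖Γ p - Γ q‖ ≤ pw α ‖p - q‖ := by
    intro p q
    apply ContinuousLinearMap.opNorm_le_bound _ (pw_nonneg (norm_nonneg _))
    intro v
    have e : (Γ p - Γ q) v = (0, (fderiv ℝ h p - fderiv ℝ h q) v) := by
      simp [hΓ]
    rw [e, Prod.norm_mk, norm_zero, max_eq_right (norm_nonneg _)]
    refine ((fderiv ℝ h p - fderiv ℝ h q).le_opNorm v).trans ?_
    exact mul_le_mul_of_nonneg_right (hh.b2 p q) (norm_nonneg _)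
  have hd : ∀ p, HasFDerivAt (fun p => u (p, h p)) ((fderiv ℝ u (p, h p)).comp (Γ p)) p := by
    intro p
    have h1 : HasFDerivAt (fun p => (p, h p)) (Γ p) p :=
      (hasFDerivAt_id p).prodMk (hh.diff p).hasFDerivAt
    exact (hu.diff (p, h p)).hasFDerivAt.comp p h1
  have hpq : ∀ p q, ‖((p, h p) : E × W) - (q, h q)‖ = ‖p - q‖ := by
    intro p q
    rw [Prod.mk_sub_mk, Prod.norm_mk]
    apply max_eq_left
    have := hh.lip p q
    have := norm_nonneg (p - q)
    linarith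
  refine ⟨fun p => (hd p).differentiableAt, fun p => ?_, fun p => ?_, fun p q hpq1 => ?_⟩
  · have := hu.b0 (p, h p)
    have := hδ p
    simp only at *
    linarith
  · rw [(hd p).fderiv]
    refine (ContinuousLinearMap.opNorm_comp_le _ _).trans ?_
    have h1 := hu.b1 (p, h p)
    have h2 := hδ p
    calc ‖fderiv ℝ u (p, h p)‖ * ‖Γ p‖ ≤ δ p * 1 := mul_le_mul h1 (hΓn p) (norm_nonneg _) h2
      _ ≤ 2 * δ p := by linarith
  · rw [(hd p).fderiv, (hd q).fderiv]
    have e : (fderiv ℝ u (p, h p)).comp (Γ p) - (fderiv ℝ u (q, h q)).comp (Γ q) =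
        (fderiv ℝ u (p, h p) - fderiv ℝ u (q, h q)).comp (Γ q) +
          (fderiv ℝ u (p, h p)).comp (Γ p - Γ q) := by
      ext v <;> simp
    rw [e]
    refine (norm_add_le _ _).trans ?_
    have h0 := pw_nonneg (α := α) (norm_nonneg (p - q))
    have h1 := hu.b2 (p, h p) (q, h q) (by rw [hpq]; exact hpq1)
    rw [hpq] at h1
    have h2 : ‖(fderiv ℝ u (p, h p) - fderiv ℝ u (q, h q)).comp (Γ q)‖ ≤ δ p * pw α ‖p - q‖ := by
      refine (ContinuousLinearMap.opNorm_comp_le _ _).trans ?_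
      calc _ ≤ (δ p * pw α ‖p - q‖) * 1 :=
            mul_le_mul h1 (hΓn q) (norm_nonneg _) (mul_nonneg (hδ p) h0)
        _ = _ := mul_one _
    have h3 : ‖(fderiv ℝ u (p, h p)).comp (Γ p - Γ q)‖ ≤ δ p * pw α ‖p - q‖ := by
      refine (ContinuousLinearMap.opNorm_comp_le _ _).trans ?_
      exact mul_le_mul (hu.b1 (p, h p)) (hΓd p q) (norm_nonneg _) (hδ p)
    calc _ ≤ δ p * pw α ‖p - q‖ + δ p * pw α ‖p - q‖ := add_le_add h2 h3
      _ = _ := by ring

/-- local bounds for `f` and `b` near `p` -/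
structure Loc (f : E → E) (b : E → ℝ) (A β : ℝ) (p : E) : Prop where
  A1 : 1 ≤ A
  β0 : 0 ≤ β
  Aβ : 40 * A ^ 2 * β ≤ 1
  f1 : ∀ q, ‖p - q‖ ≤ 1 → ‖fderiv ℝ f q‖ + 1 ≤ A
  f2 : ∀ q, ‖p - q‖ ≤ 1 → ‖fderiv ℝ f p - fderiv ℝ f q‖ ≤ A * ‖p - q‖
  b0 : ∀ q, ‖p - q‖ ≤ 1 → |b q| ≤ β
  b1 : ∀ q, ‖p - q‖ ≤ 1 → ‖fderiv ℝ b q‖ ≤ β
  b2 : ∀ q, ‖p - q‖ ≤ 1 → ‖fderiv ℝ b p - fderiv ℝ b q‖ ≤ β * ‖p - q‖

theorem gt_HA {α : ℝ} (hα : 0 < α) (hα1 : α ≤ 1) {f : E → E} (hf : Differentiable ℝ f) {b : E → ℝ}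
    (hb : Differentiable ℝ b) {A β : E → ℝ} (hloc : ∀ p, Loc f b (A p) (β p) p)
    {u : E × W → E × W} (hu : SmA α (fun _ => 1 / 16) u) {h : E → W} (hh : HA α h) :
    HA α (fun p => b p • (h (f p + (u (p, h p)).1) - (u (p, h p)).2)) := by
  have hU : SmA α (fun _ => 1 / 8) (fun p => u (p, h p)) :=
    (graph_SmA (δ := fun _ => 1 / 16) hu hh).mono (fun _ => by norm_num)
  set v1 : E → E := fun p => (u (p, h p)).1 with hv1
  set v2 : E → W := fun p => (u (p, h p)).2 with hv2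
  have h1 : SmA α (fun _ => 1 / 8) v1 :=
    hU.clm (ContinuousLinearMap.fst ℝ E W) (ContinuousLinearMap.norm_fst_le ℝ E W)
  have h2 : SmA α (fun _ => 1 / 8) v2 :=
    hU.clm (ContinuousLinearMap.snd ℝ E W) (ContinuousLinearMap.norm_snd_le ℝ E W)
  set X : E → E := fun p => f p + v1 p with hX
  have hXd : ∀ p, HasFDerivAt X (fderiv ℝ f p + fderiv ℝ v1 p) p := fun p =>
    (hf p).hasFDerivAt.add (h1.diff p).hasFDerivAt
  set DX : E → E →L[ℝ] E := fun p => fderiv ℝ f p + fderiv ℝ v1 p with hDX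
  set K : E → W := fun p => h (X p) - v2 p with hK
  set DK : E → E →L[ℝ] W := fun p => (fderiv ℝ h (X p)).comp (DX p) - fderiv ℝ v2 p with hDK
  have hKd : ∀ p, HasFDerivAt K (DK p) p := fun p =>
    ((hh.diff (X p)).hasFDerivAt.comp p (hXd p)).sub (h2.diff p).hasFDerivAt
  have hGd : ∀ p, HasFDerivAt (fun p => b p • K p)
      (b p • DK p + (fderiv ℝ b p).smulRight (K p)) p := fun p =>
    (hb p).hasFDerivAt.smul (hKd p)
  have hK0 : ∀ p, ‖K p‖ ≤ 1 := by
    intro p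
    refine (norm_sub_le _ _).trans ?_
    have := hh.b0 (X p)
    have := h2.b0 p
    linarith
  have hDXn : ∀ p q, ‖p - q‖ ≤ 1 → ‖DX q‖ ≤ A p := by
    intro p q hpq
    refine (norm_add_le _ _).trans ?_
    have := (hloc p).f1 q hpq
    have := h1.b1 q
    linarith
  have hDKn : ∀ p q, ‖p - q‖ ≤ 1 → ‖DK q‖ ≤ A p := by
    intro p q hpq
    refine (norm_sub_le _ _).trans ?_
    have a1 : ‖(fderiv ℝ h (X q)).comp (DX q)‖ ≤ 1 / 2 * A p :=
      (ContinuousLinearMap.opNorm_comp_le _ _).trans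
        (mul_le_mul (hh.b1 _) (hDXn p q hpq) (norm_nonneg _) (by norm_num))
    have a2 := h2.b1 q
    have a3 := (hloc p).A1
    linarith
  have hself : ∀ p : E, ‖p - p‖ ≤ 1 := fun p => by simp
  have hmul : ∀ (c x y : ℝ), 0 ≤ c → x ≤ y → c * x ≤ c * y := fun c x y hc hxy =>
    mul_le_mul_of_nonneg_left hxy hc
  -- bound of the derivative
  have hG1 : ∀ p, ‖b p • DK p + (fderiv ℝ b p).smulRight (K p)‖ ≤ 1 / 2 := by
    intro p
    have l := hloc p
    refine (norm_add_le _ _).trans ?_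
    rw [norm_smul, ContinuousLinearMap.norm_smulRight_apply]
    have a1 : ‖b p‖ * ‖DK p‖ ≤ β p * A p :=
      mul_le_mul (l.b0 p (hself p)) (hDKn p p (hself p)) (norm_nonneg _) l.β0
    have a2 : ‖fderiv ℝ b p‖ * ‖K p‖ ≤ β p * 1 :=
      mul_le_mul (l.b1 p (hself p)) (hK0 p) (norm_nonneg _) l.β0
    have a3 := l.A1
    have a4 := l.β0
    have a5 := l.Aβ
    have a6 : β p * A p ≤ β p * A p ^ 2 := by
      apply hmul _ _ _ a4
      nlinarith
    have a7 : β p * 1 ≤ β p * A p ^ 2 := by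
      apply hmul _ _ _ a4
      nlinarith
    linarith
  refine ⟨fun p => (hGd p).differentiableAt, fun p => ?_, fun p => ?_, fun p q => ?_⟩
  · have l := hloc p
    change ‖b p • K p‖ ≤ 1 / 2
    rw [norm_smul]
    have a2 : ‖b p‖ * ‖K p‖ ≤ β p * 1 :=
      mul_le_mul (l.b0 p (hself p)) (hK0 p) (norm_nonneg _) l.β0
    have a7 : β p * 1 ≤ β p * A p ^ 2 := by
      apply hmul _ _ _ l.β0
      have := l.A1
      nlinarith
    have a5 := l.Aβ
    linarith
  · change ‖fderiv ℝ (fun p => b p • K p) p‖ ≤ 1 / 2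
    rw [(hGd p).fderiv]
    exact hG1 p
  · change ‖fderiv ℝ (fun p => b p • K p) p - fderiv ℝ (fun p => b p • K p) q‖ ≤ _
    rw [(hGd p).fderiv, (hGd q).fderiv]
    rcases lt_or_ge 1 ‖p - q‖ with hgt | hle
    · refine (norm_sub_le _ _).trans ?_
      have a1 := hG1 p
      have a2 := hG1 q
      have a3 : 1 ≤ pw α ‖p - q‖ := Real.one_le_rpow hgt.le hα.le
      linarith
    · have l := hloc p
      set t := ‖p - q‖ with ht
      have t0 : 0 ≤ t := norm_nonneg _
      set P := pw α t with hP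
      have htP : t ≤ P := le_pw hα hα1 t0 hle
      have P0 : 0 ≤ P := pw_nonneg t0
      set a := A p with ha
      set β' := β p with hβ
      have a1 : 1 ≤ a := l.A1
      have β0 : 0 ≤ β' := l.β0
      have hconv : Convex ℝ (Metric.closedBall p 1) := convex_closedBall _ _
      have hpm : p ∈ Metric.closedBall p 1 := Metric.mem_closedBall_self zero_le_one
      have hqm : q ∈ Metric.closedBall p 1 := by
        rw [Metric.mem_closedBall, dist_eq_norm, norm_sub_rev]; exact hle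
      have hmem : ∀ y ∈ Metric.closedBall p 1, ‖p - y‖ ≤ 1 := by
        intro y hy
        rwa [Metric.mem_closedBall, dist_eq_norm, norm_sub_rev] at hy
      have hXl : ‖X p - X q‖ ≤ a * t :=
        hconv.norm_image_sub_le_of_norm_hasFDerivWithin_le (𝕜 := ℝ) (f' := DX)
          (fun y _ => (hXd y).hasFDerivWithinAt) (fun y hy => hDXn p y (hmem y hy)) hqm hpm
      have hKl : ‖K p - K q‖ ≤ a * t :=
        hconv.norm_image_sub_le_of_norm_hasFDerivWithin_le (𝕜 := ℝ) (f' := DK)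
          (fun y _ => (hKd y).hasFDerivWithinAt) (fun y hy => hDKn p y (hmem y hy)) hqm hpm
      have hbl : ‖b p - b q‖ ≤ β' * t :=
        hconv.norm_image_sub_le_of_norm_hasFDerivWithin_le (𝕜 := ℝ) (f' := fderiv ℝ b)
          (fun y _ => (hb y).hasFDerivAt.hasFDerivWithinAt) (fun y hy => l.b1 y (hmem y hy)) hqm hpm
      have hDXl : ‖DX p - DX q‖ ≤ a * t + 1 / 8 * P := by
        have e : DX p - DX q = (fderiv ℝ f p - fderiv ℝ f q) + (fderiv ℝ v1 p - fderiv ℝ v1 q) := by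
          simp only [hDX]; abel
        rw [e]
        exact (norm_add_le _ _).trans (add_le_add (l.f2 q hle) (h1.b2 p q hle))
      have hhl : ‖fderiv ℝ h (X p) - fderiv ℝ h (X q)‖ ≤ a * P := by
        refine (hh.b2 _ _).trans ?_
        exact (pw_mono hα (norm_nonneg _) hXl).trans (pw_scale hα1 a1 t0)
      have hDKl : ‖DK p - DK q‖ ≤ 2 * a ^ 2 * P := by
        have e : DK p - DK q = (fderiv ℝ h (X p) - fderiv ℝ h (X q)).comp (DX p) +
            (fderiv ℝ h (X q)).comp (DX p - DX q) - (fderiv ℝ v2 p - fderiv ℝ v2 q) := by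
          simp only [hDK]
          ext v
          simp
          abel
        rw [e]
        refine (norm_sub_le _ _).trans ?_
        have c1 : ‖(fderiv ℝ h (X p) - fderiv ℝ h (X q)).comp (DX p)‖ ≤ (a * P) * a :=
          (ContinuousLinearMap.opNorm_comp_le _ _).trans
            (mul_le_mul hhl (hDXn p p (hself p)) (norm_nonneg _) (by positivity))
        have c2 : ‖(fderiv ℝ h (X q)).comp (DX p - DX q)‖ ≤ 1 / 2 * (a * t + 1 / 8 * P) :=
          (ContinuousLinearMap.opNorm_comp_le _ _).trans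
            (mul_le_mul (hh.b1 _) hDXl (norm_nonneg _) (by norm_num))
        have c3 := h2.b2 p q hle
        have c4 := norm_add_le ((fderiv ℝ h (X p) - fderiv ℝ h (X q)).comp (DX p))
          ((fderiv ℝ h (X q)).comp (DX p - DX q))
        have c5 : a * t ≤ a ^ 2 * P := by
          calc a * t ≤ a * P := by gcongr
            _ ≤ a ^ 2 * P := by
              apply mul_le_mul_of_nonneg_right _ P0
              nlinarith
        have c6 : P ≤ a ^ 2 * P := by
          have : 1 ≤ a ^ 2 := one_le_pow₀ a1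
          nlinarith
        have c7 : a * P * a = a ^ 2 * P := by ring
        rw [c7] at c1
        linarith
      have e : (b p • DK p + (fderiv ℝ b p).smulRight (K p)) -
          (b q • DK q + (fderiv ℝ b q).smulRight (K q)) =
          b q • (DK p - DK q) + (b p - b q) • DK p +
            ((fderiv ℝ b p - fderiv ℝ b q).smulRight (K q) +
              (fderiv ℝ b p).smulRight (K p - K q)) := by
        ext v
        simp only [sub_apply, add_apply,
          smul_apply, ContinuousLinearMap.smulRight_apply, smul_sub, sub_smul]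
        abel
      rw [e]
      have d1 : ‖b q • (DK p - DK q)‖ ≤ β' * (2 * a ^ 2 * P) := by
        rw [norm_smul]
        exact mul_le_mul (l.b0 q hle) hDKl (norm_nonneg _) β0
      have d2 : ‖(b p - b q) • DK p‖ ≤ β' * t * a := by
        rw [norm_smul]
        exact mul_le_mul hbl (hDKn p p (hself p)) (norm_nonneg _) (by positivity)
      have d3 : ‖(fderiv ℝ b p - fderiv ℝ b q).smulRight (K q)‖ ≤ β' * t * 1 := by
        rw [ContinuousLinearMap.norm_smulRight_apply]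
        exact mul_le_mul (l.b2 q hle) (hK0 q) (norm_nonneg _) (by positivity)
      have d4 : ‖(fderiv ℝ b p).smulRight (K p - K q)‖ ≤ β' * (a * t) := by
        rw [ContinuousLinearMap.norm_smulRight_apply]
        exact mul_le_mul (l.b1 p (hself p)) hKl (norm_nonneg _) β0
      have d5 := norm_add_le (b q • (DK p - DK q)) ((b p - b q) • DK p)
      have d6 := norm_add_le ((fderiv ℝ b p - fderiv ℝ b q).smulRight (K q))
        ((fderiv ℝ b p).smulRight (K p - K q))
      have d7 := norm_add_le (b q • (DK p - DK q) + (b p - b q) • DK p)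
        ((fderiv ℝ b p - fderiv ℝ b q).smulRight (K q) + (fderiv ℝ b p).smulRight (K p - K q))
      have g1 : β' * t * a ≤ β' * (a ^ 2 * P) := by
        calc β' * t * a = β' * (a * t) := by ring
          _ ≤ β' * (a ^ 2 * P) := by
            apply mul_le_mul_of_nonneg_left _ β0
            calc a * t ≤ a * P := by gcongr
              _ ≤ a ^ 2 * P := by
                apply mul_le_mul_of_nonneg_right _ P0
                nlinarith
      have g2 : β' * t * 1 ≤ β' * (a ^ 2 * P) := by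
        calc β' * t * 1 = β' * t := by ring
          _ ≤ β' * (a ^ 2 * P) := by
            apply mul_le_mul_of_nonneg_left _ β0
            have : 1 ≤ a ^ 2 := one_le_pow₀ a1
            nlinarith
      have g3 : β' * (a * t) = β' * t * a := by ring
      have g4 : 40 * a ^ 2 * β' * P ≤ 1 * P := mul_le_mul_of_nonneg_right l.Aβ P0
      have g5 : β' * (2 * a ^ 2 * P) = 2 * (β' * (a ^ 2 * P)) := by ring
      have g6 : 40 * a ^ 2 * β' * P = 40 * (β' * (a ^ 2 * P)) := by ring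
      have g7 : 0 ≤ β' * (a ^ 2 * P) := by positivity
      linarith

end gt

end Pool.Agent.Y640.CLA
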