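import Pool.Agent.Y251.CL.Stm3
import Pool.Agent.Y640.CLA.C2

/-!
# From the chart level to the manifold level, `C^{1+α}` version
-/

open scoped Manifold ContDiff Topology
open Set

namespace Pool.Agent.Y640.CLA

open Pool.Agent.H718R2.G Pool.Agent.Y251.CL

section K4

set_option linter.unusedSectionVars false

variable {n : ℕ} [NeZero n] {M : Type*} [TopologicalSpace M] [T2Space M]
    [ChartedSpace (V n) M] [IsManifold (𝓡 n) ∞ M]

/-- closed half-annuli (overlapping) -/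
def Ca (n : ℕ) [NeZero n] (m : ℕ) : Set (V n) :=
  {v | 1 / 2 ≤ v 0 ∧ (m : ℝ) ≤ ‖v‖ ∧ ‖v‖ ≤ m + 2}

/-- open enlarged half-annuli -/
def Oa (n : ℕ) [NeZero n] (m : ℕ) : Set (V n) :=
  {v | 1 / 4 < v 0 ∧ (m : ℝ) - 1 < ‖v‖ ∧ ‖v‖ < m + 3}

lemma Ca_sub_Oa (m : ℕ) : Ca n m ⊆ Oa n m := by
  intro v hv
  obtain ⟨h1, h2, h3⟩ := hv
  exact ⟨by linarith, by linarith, by linarith⟩

lemma Oa_open (m : ℕ) : IsOpen (Oa n m) := by
  have h1 : IsOpen {v : V n | 1 / 4 < v 0} := isOpen_lt continuous_const coord_cont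
  have h2 : IsOpen {v : V n | (m : ℝ) - 1 < ‖v‖} := isOpen_lt continuous_const continuous_norm
  have h3 : IsOpen {v : V n | ‖v‖ < (m : ℝ) + 3} := isOpen_lt continuous_norm continuous_const
  exact h1.inter (h2.inter h3)

lemma Ca_compact (m : ℕ) : IsCompact (Ca n m) := by
  have h1 : IsClosed {v : V n | 1 / 2 ≤ v 0} := isClosed_le continuous_const coord_cont
  have h2 : IsClosed {v : V n | (m : ℝ) ≤ ‖v‖} := isClosed_le continuous_const continuous_norm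
  have h3 : IsClosed {v : V n | ‖v‖ ≤ (m : ℝ) + 2} := isClosed_le continuous_norm continuous_const
  refine Metric.isCompact_of_isClosed_isBounded (h1.inter (h2.inter h3)) ?_
  refine (Metric.isBounded_closedBall (x := (0 : V n)) (r := (m : ℝ) + 2)).subset ?_
  intro v hv
  rw [mem_closedBall_zero_iff]
  exact hv.2.2

lemma Oa_sub (m : ℕ) : Oa n m ⊆ {v : V n | 0 ≤ v 0} := by
  intro v hv
  have := hv.1
  show 0 ≤ v 0
  linarith

lemma domA_open (φ : OpenPartialHomeomorph M (V n)) (m : ℕ) :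
    IsOpen (φ.source ∩ φ ⁻¹' (Oa n m)) :=
  φ.continuousOn.isOpen_inter_preimage φ.open_source (Oa_open m)

lemma domA_source (φ : OpenPartialHomeomorph M (V n)) (m : ℕ) :
    (φ.restr (φ.source ∩ φ ⁻¹' (Oa n m))).source = φ.source ∩ φ ⁻¹' (Oa n m) := by
  rw [φ.restr_source' _ (domA_open φ m), ← inter_assoc, inter_self]

lemma sdA_lf (φ : OpenPartialHomeomorph M (V n))
    (hcl : IsClosed (φ.symm '' {v : V n | 0 ≤ v 0})) (hA : {v : V n | 0 ≤ v 0} ⊆ φ.target) :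
    LocallyFinite fun m : ℕ => (φ.restr (φ.source ∩ φ ⁻¹' (Oa n m))).source := by
  intro y
  by_cases hy : y ∈ φ.symm '' {v : V n | 0 ≤ v 0}
  · have hys : y ∈ φ.source := by
      obtain ⟨v, hv, rfl⟩ := hy
      exact φ.map_target (hA hv)
    refine ⟨φ.source ∩ φ ⁻¹' (Metric.ball 0 (‖φ y‖ + 1)),
      (φ.continuousOn.isOpen_inter_preimage φ.open_source Metric.isOpen_ball).mem_nhds
        ⟨hys, by simp⟩, ?_⟩
    refine (Set.finite_lt_nat ⌈‖φ y‖ + 2⌉₊).subset ?_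
    rintro m ⟨z, hz1, hz2⟩
    simp only [domA_source] at hz1
    have h1 : (m : ℝ) - 1 < ‖φ z‖ := hz1.2.2.1
    have h2 : ‖φ z‖ < ‖φ y‖ + 1 := by
      have := hz2.2
      rwa [mem_preimage, mem_ball_zero_iff] at this
    show m < _
    rw [Nat.lt_ceil]
    linarith
  · refine ⟨(φ.symm '' {v : V n | 0 ≤ v 0})ᶜ, hcl.isOpen_compl.mem_nhds hy, ?_⟩
    convert Set.finite_empty (α := ℕ)
    rw [Set.eq_empty_iff_forall_notMem]
    rintro m ⟨z, hz1, hz2⟩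
    simp only [domA_source] at hz1
    exact hz2 ⟨φ z, Oa_sub m hz1.2, φ.left_inv hz1.1⟩

/-- the neighbourhood data -/
noncomputable def sdA (φ : OpenPartialHomeomorph M (V n))
    (hφ : φ ∈ IsManifold.maximalAtlas (𝓡 n) ∞ M)
    (hA : {v : V n | 0 ≤ v 0} ⊆ φ.target) (hcl : IsClosed (φ.symm '' {v : V n | 0 ≤ v 0}))
    (e : ℕ → ℝ) (he : ∀ m, 0 < e m) : StrongData n M where
  ι := ℕ
  φ m := φ.restr (φ.source ∩ φ ⁻¹' (Oa n m))
  ψ _ := φ
  K m := φ.symm '' (Ca n m)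
  ε := e
  φ_mem m := restr_mem_maximalAtlas (contDiffGroupoid ∞ (𝓡 n)) hφ (domA_open φ m)
  ψ_mem _ := hφ
  lf := sdA_lf φ hcl hA
  compact m := (Ca_compact m).image_of_continuousOn
    (φ.continuousOn_symm.mono (((Ca_sub_Oa m).trans (Oa_sub m)).trans hA))
  sub m := by
    rw [domA_source]
    rintro _ ⟨v, hv, rfl⟩
    have hvt : v ∈ φ.target := hA (Oa_sub m (Ca_sub_Oa m hv))
    refine ⟨φ.map_target hvt, ?_⟩
    rw [mem_preimage, φ.right_inv hvt]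
    exact Ca_sub_Oa m hv
  pos := he

lemma exists_epsA (ε : V n → ℝ) (hε : Continuous ε) (hpos : ∀ v, 0 < ε v) (m : ℕ) :
    ∃ e : ℝ, 0 < e ∧ ∀ v ∈ Ca n m, e ≤ ε v := by
  obtain ⟨v₀, -, hv₀⟩ := (isCompact_closedBall (0 : V n) ((m : ℝ) + 2)).exists_isMinOn
    ⟨0, by simp; positivity⟩ hε.continuousOn
  refine ⟨ε v₀, hpos v₀, ?_⟩
  intro v hv
  exact hv₀ (by rw [mem_closedBall_zero_iff]; exact hv.2.2)

/-- the compact set step -/
lemma disj_of_close {φ : OpenPartialHomeomorph M (V n)}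
    (hA : {v : V n | 0 ≤ v 0} ⊆ φ.target) (hcl : IsClosed (φ.symm '' {v : V n | 0 ≤ v 0}))
    {F : V n ≃ₜ V n} (hid : ∀ v : V n, v 0 ≤ 1 → F v = v) {g : M → M}
    (hO : ∀ O : Set (V n), IsCompact O → (∃ v ∈ O, 23 / 4 < v 0) →
      ¬ (∀ v ∈ O, 1 ≤ v 0 → (φ ∘ g ∘ φ.symm) v ∈ O))
    (hgs : ∀ v : V n, 1 / 2 ≤ v 0 → g (φ.symm v) ∈ φ.source)
    (h0 : ∀ v : V n, 1 / 2 < v 0 → ‖(φ ∘ g ∘ φ.symm) v - F v‖ < 1 / 2)
    {C : Set M} (hC : IsCompact C) (hCC : MapsTo g C C) :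
    Disjoint C (φ.symm '' {v : V n | 47 / 8 ≤ v 0}) := by
  rw [Set.disjoint_left]
  rintro _ hyC ⟨b, hb0, rfl⟩
  have hb1 : 47 / 8 ≤ b 0 := hb0
  have hbt : b ∈ φ.target := hA (show 0 ≤ b 0 by linarith)
  have hFge : ∀ v : V n, 1 ≤ v 0 → 1 ≤ F v 0 := by
    intro v hv
    by_contra h
    have h1 := hid (F v) (by linarith)
    rw [F.injective h1] at h
    exact h hv
  refine hO (φ '' (C ∩ φ.symm '' {v : V n | 0 ≤ v 0})) ?_ ?_ ?_
  · refine (hC.inter_right hcl).image_of_continuousOn (φ.continuousOn.mono ?_)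
    rintro _ ⟨-, ⟨v, hv, rfl⟩⟩
    exact φ.map_target (hA hv)
  · exact ⟨b, ⟨φ.symm b, ⟨hyC, ⟨b, (show (0 : ℝ) ≤ b 0 by linarith), rfl⟩⟩, φ.right_inv hbt⟩,
      by linarith⟩
  · rintro _ ⟨_, ⟨hzC, ⟨v, hv, rfl⟩⟩, rfl⟩ hv1
    have hvt : v ∈ φ.target := hA hv
    rw [φ.right_inv hvt] at hv1 ⊢
    have hgz := hgs v (by linarith)
    have h1 := h0 v (by linarith)
    have h2 : |((φ ∘ g ∘ φ.symm) v - F v) 0| ≤ ‖(φ ∘ g ∘ φ.symm) v - F v‖ :=
      PiLp.norm_apply_le ((φ ∘ g ∘ φ.symm) v - F v) 0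
    have h3 := hFge v hv1
    have h4 : ((φ ∘ g ∘ φ.symm) v - F v) 0 = (φ ∘ g ∘ φ.symm) v 0 - F v 0 := rfl
    rw [h4] at h2
    have h5 : 0 ≤ (φ ∘ g ∘ φ.symm) v 0 := by
      have := (abs_lt.1 (h2.trans_lt h1)).1
      linarith
    exact ⟨g (φ.symm v), ⟨hCC hzC, ⟨φ (g (φ.symm v)), h5, φ.left_inv hgz⟩⟩, rfl⟩

end K4

/-- the `C^{1+α}` version of `strongC` -/
theorem stra.{u} : Pool.Agent.Y251.CL.S_STRA.{u} := by
  intro n _ M _ _ _ _ g₀ φ α hφ hA hcl hg₀ hα hα1 hN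
  obtain ⟨F, a, ε, ε', ha, hF, hF', hid, hrec, hεc, hεp, hεc', hεp', hG, hC2⟩ :=
    nonClosing_both hα hα1 hN
  have hid' : ∀ v ∉ {v : V n | 0 ≤ v 0}, F v = v := by
    intro v hv
    apply hid
    have : ¬ (0 ≤ v 0) := hv
    linarith [not_le.1 this]
  obtain ⟨f₁, hf1, hf2⟩ := transplant hφ hA hcl F hF hF' hid'
  have haA : a ∈ {v : V n | 0 ≤ v 0} := by show 0 ≤ a 0; linarith
  have hat : a ∈ φ.target := hA haA
  have hxs : φ.symm a ∈ φ.source := φ.map_target hat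
  set f : DiffM n M ⊤ := f₁.trans g₀ with hf
  have hfe : ∀ y, f y = g₀ (f₁ y) := fun y => rfl
  have hft : ∀ v : V n, 0 ≤ v 0 → f (φ.symm v) = φ.symm (F v) := by
    intro v hv
    rw [hfe, hf1 _ (φ.map_target (hA hv)), φ.right_inv (hA hv)]
    apply hg₀
    exact ⟨F v, F_half F hid hv, rfl⟩
  have hiter : ∀ k : ℕ, 0 ≤ (F^[k] a) 0 ∧ (f : M → M)^[k] (φ.symm a) = φ.symm (F^[k] a) := by
    intro k
    induction k with
    | zero => exact ⟨haA, rfl⟩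
    | succ k ih =>
      rw [Function.iterate_succ_apply', Function.iterate_succ_apply', ih.2, hft _ ih.1]
      exact ⟨F_half F hid ih.1, rfl⟩
  have hrec2 : ∀ W ∈ 𝓝 (φ.symm a), ∃ k : ℕ, 1 ≤ k ∧ (f : M → M)^[k] (φ.symm a) ∈ W := by
    intro W hW
    have hc : ContinuousAt φ.symm a := φ.continuousAt_symm hat
    have h1 : ∀ᶠ v in 𝓝 a, φ.symm v ∈ W := hc.eventually hW
    obtain ⟨δ, hδ, h2⟩ := Metric.eventually_nhds_iff.1 h1
    obtain ⟨k, hk1, hk2⟩ := hrec δ hδ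
    refine ⟨k, hk1, ?_⟩
    rw [(hiter k).2]
    exact h2 (by rw [dist_eq_norm]; exact hk2)
  choose e1 he11 he12 using exists_epsA ε hεc hεp
  choose e2 he21 he22 using exists_epsA ε' hεc' hεp'
  set e : ℕ → ℝ := fun m => min (min (e1 m) (e2 m)) (1 / 2) with he
  have he1 : ∀ m, 0 < e m := fun m => lt_min (lt_min (he11 m) (he21 m)) (by norm_num)
  have he2 : ∀ m, ∀ v ∈ Ca n m, e m ≤ ε v := fun m v hv =>
    ((min_le_left _ _).trans (min_le_left _ _)).trans (he12 m v hv)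
  have he2' : ∀ m, ∀ v ∈ Ca n m, e m ≤ ε' v := fun m v hv =>
    ((min_le_left _ _).trans (min_le_right _ _)).trans (he22 m v hv)
  have he3 : ∀ m, e m ≤ 1 / 2 := fun m => min_le_right _ _
  have hCA : ∀ m, Ca n m ⊆ {v : V n | 0 ≤ v 0} := fun m => (Ca_sub_Oa m).trans (Oa_sub m)
  have hself : ∀ m, ∀ x ∈ φ.symm '' (Ca n m), f x ∈ φ.source := by
    rintro m _ ⟨v, hv, rfl⟩
    rw [hft v (hCA m hv)]
    exact φ.map_target (hA (F_half F hid (hCA m hv)))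
  have hnearA : NearA α (sdA φ hφ hA hcl e he1) f f := by
    intro m
    refine ⟨fun x hx => ⟨hself m x hx, ?_, ?_⟩, fun x _ y _ => ?_⟩
    · rw [sub_self, norm_zero]
      exact he1 m
    · rw [sub_self, norm_zero]
      exact he1 m
    · rw [sub_self, sub_self, sub_self, norm_zero]
      exact mul_nonneg (he1 m).le (Real.rpow_nonneg (norm_nonneg _) _)
  have hnear2 : Near2 (sdA φ hφ hA hcl e he1) f f := by
    intro m x hx
    refine ⟨hself m x hx, ?_⟩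
    intro i _
    rw [sub_self, norm_zero]
    exact he1 m
  have hint : ∀ v : V n, 0 < v 0 → φ.symm v ∈ interior (φ.symm '' {v : V n | 0 ≤ v 0}) :=
    fun v hv => mem_int hA le_rfl hv
  -- every point of the half space is in a piece
  have hpiece : ∀ v : V n, 1 / 2 ≤ v 0 → v ∈ Ca n ⌊‖v‖⌋₊ := by
    intro v hv
    exact ⟨hv, Nat.floor_le (norm_nonneg v), (Nat.lt_floor_add_one ‖v‖).le.trans (by linarith)⟩
  have hsmooth : ∀ r : ℕ, 1 ≤ r → r ≤ 2 → ∀ g : M → M,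
      ContMDiffOn (𝓡 n) (𝓡 n) r g (interior (φ.symm '' {v : V n | 0 ≤ v 0})) →
      (∀ v : V n, 1 / 2 ≤ v 0 → g (φ.symm v) ∈ φ.source) →
      ∀ v : V n, 1 / 2 < v 0 → ContDiffAt ℝ r (φ ∘ g ∘ φ.symm) v := by
    intro r hr1 hr2 g hgs2 hgs v hv
    have h2i : (r : WithTop ℕ∞) ≤ ∞ := by
      have h : ((r : ℕ∞) : WithTop ℕ∞) ≤ ((⊤ : ℕ∞) : WithTop ℕ∞) := WithTop.coe_le_coe.mpr le_top
      exact_mod_cast h
    have hvt : v ∈ φ.target := hA (show 0 ≤ v 0 by linarith)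
    have h1 : ContMDiffAt (𝓡 n) (𝓡 n) r φ.symm v :=
      ((contMDiffOn_symm_of_mem_maximalAtlas hφ v hvt).contMDiffAt
        (φ.open_target.mem_nhds hvt)).of_le h2i
    have h2 : ContMDiffAt (𝓡 n) (𝓡 n) r g (φ.symm v) :=
      (hgs2 _ (hint v (by linarith))).contMDiffAt
        (isOpen_interior.mem_nhds (hint v (by linarith)))
    have h3 : ContMDiffAt (𝓡 n) (𝓡 n) r φ (g (φ.symm v)) :=
      ((contMDiffOn_of_mem_maximalAtlas hφ _ (hgs v hv.le)).contMDiffAt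
        (φ.open_source.mem_nhds (hgs v hv.le))).of_le h2i
    have h4 : ContMDiffAt (𝓡 n) (𝓡 n) r (φ ∘ g ∘ φ.symm) v :=
      ContMDiffAt.comp v (g := φ) (f := g ∘ φ.symm) h3 (ContMDiffAt.comp v h2 h1)
    exact contMDiffAt_iff_contDiffAt.1 h4
  have hev : ∀ v : V n, 1 / 2 ≤ v 0 →
      (φ ∘ f ∘ φ.symm : V n → V n) =ᶠ[𝓝 v] (F : V n → V n) := by
    intro v hv
    have ho : IsOpen {v : V n | 0 < v 0} := isOpen_lt continuous_const coord_cont
    filter_upwards [ho.mem_nhds (show 0 < v 0 by linarith)] with w hw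
    have hw' : 0 ≤ w 0 := le_of_lt hw
    simp only [Function.comp_apply]
    rw [hft w hw', φ.right_inv (hA (F_half F hid hw'))]
  refine ⟨f, φ.symm a, sdA φ hφ hA hcl e he1, ?_, ?_, hrec2,
    mem_int hA (by norm_num) (by linarith), ?_, hnearA, hnear2, ?_, ?_⟩
  · intro y hy
    rw [hfe, hf2 y hy]
  · -- recurrence
    intro hemb
    obtain ⟨W, hW, hW'⟩ := hemb.isInducing.isOpen_iff.mp (isOpen_discrete ({0} : Set ℤ))
    have h0 : φ.symm a ∈ W := by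
      have : (0 : ℤ) ∈ (fun m : ℤ => (f.toHomeomorph ^ m) (φ.symm a)) ⁻¹' W := by rw [hW']; rfl
      simpa using this
    obtain ⟨k, hk1, hk2⟩ := hrec2 W (hW.mem_nhds h0)
    have h4 : (k : ℤ) ∈ (fun m : ℤ => (f.toHomeomorph ^ m) (φ.symm a)) ⁻¹' W := by
      show (f.toHomeomorph ^ (k : ℤ)) (φ.symm a) ∈ W
      rw [zpow_natCast, homeo_pow_apply]
      have h5 : ((f.toHomeomorph : M ≃ₜ M) : M → M) = f := rfl
      rw [h5]
      exact hk2
    rw [hW'] at h4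
    have : (k : ℤ) = 0 := h4
    omega
  · rintro i _ ⟨v, hv, rfl⟩
    exact ⟨v, hCA _ hv, rfl⟩
  · -- `C^{1+α}`
    intro g hgs2 hg C hC hCC
    have hgs : ∀ v : V n, 1 / 2 ≤ v 0 → g (φ.symm v) ∈ φ.source := by
      intro v hv
      exact ((hg ⌊‖v‖⌋₊).1 (φ.symm v) ⟨v, hpiece v hv, rfl⟩).1
    have hval : ∀ m : ℕ, ∀ v ∈ Ca n m, ‖(φ ∘ g ∘ φ.symm) v - F v‖ < e m ∧
        ‖fderiv ℝ (φ ∘ g ∘ φ.symm) v - fderiv ℝ (F : V n → V n) v‖ < e m := by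
      intro m v hv
      have hv2 : 1 / 2 ≤ v 0 := hv.1
      have hvt : v ∈ φ.target := hA (show 0 ≤ v 0 by linarith)
      obtain ⟨-, h1, h2⟩ := (hg m).1 (φ.symm v) ⟨v, hv, rfl⟩
      have h3 : ‖(φ ∘ g ∘ φ.symm) (φ (φ.symm v)) - (φ ∘ f ∘ φ.symm) (φ (φ.symm v))‖ < e m := h1
      have h4 : ‖fderiv ℝ (φ ∘ g ∘ φ.symm) (φ (φ.symm v)) -
        fderiv ℝ (φ ∘ f ∘ φ.symm) (φ (φ.symm v))‖ < e m := h2
      rw [φ.right_inv hvt] at h3 h4
      rw [(hev v hv2).eq_of_nhds] at h3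
      rw [(hev v hv2).fderiv_eq] at h4
      exact ⟨h3, h4⟩
    have hhol : ∀ m : ℕ, ∀ v ∈ Ca n m, ∀ w ∈ Ca n m,
        ‖(fderiv ℝ (φ ∘ g ∘ φ.symm) v - fderiv ℝ (F : V n → V n) v) -
          (fderiv ℝ (φ ∘ g ∘ φ.symm) w - fderiv ℝ (F : V n → V n) w)‖ ≤ e m * ‖v - w‖ ^ α := by
      intro m v hv w hw
      have hv2 : 1 / 2 ≤ v 0 := hv.1
      have hw2 : 1 / 2 ≤ w 0 := hw.1
      have hvt : v ∈ φ.target := hA (show 0 ≤ v 0 by linarith)
      have hwt : w ∈ φ.target := hA (show 0 ≤ w 0 by linarith)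
      have h1 := (hg m).2 (φ.symm v) ⟨v, hv, rfl⟩ (φ.symm w) ⟨w, hw, rfl⟩
      have h4 : ‖(fderiv ℝ (φ ∘ g ∘ φ.symm) (φ (φ.symm v)) -
            fderiv ℝ (φ ∘ f ∘ φ.symm) (φ (φ.symm v))) -
          (fderiv ℝ (φ ∘ g ∘ φ.symm) (φ (φ.symm w)) -
            fderiv ℝ (φ ∘ f ∘ φ.symm) (φ (φ.symm w)))‖ ≤
          e m * ‖φ (φ.symm v) - φ (φ.symm w)‖ ^ α := h1
      rw [φ.right_inv hvt, φ.right_inv hwt, (hev v hv2).fderiv_eq, (hev w hw2).fderiv_eq] at h4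
      exact h4
    have hclose : CloseA α ε F (φ ∘ g ∘ φ.symm) := by
      refine ⟨fun v hv => ?_, fun v hv => ?_, fun v hv => ?_, fun v w hv hw hvw => ?_⟩
      · exact (hsmooth 1 le_rfl (by norm_num) g (by exact_mod_cast hgs2) hgs v hv).differentiableAt
          (by norm_num)
      · exact (hval _ v (hpiece v hv.le)).1.trans_le (he2 _ v (hpiece v hv.le))
      · exact (hval _ v (hpiece v hv.le)).2.trans_le (he2 _ v (hpiece v hv.le))
      · obtain ⟨m, hm1, hm2⟩ : ∃ m : ℕ, v ∈ Ca n m ∧ w ∈ Ca n m := by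
          have h1 : |‖v‖ - ‖w‖| ≤ 1 := (abs_norm_sub_norm_le v w).trans hvw
          obtain ⟨h2, h3⟩ := abs_le.1 h1
          rcases le_total ‖v‖ ‖w‖ with h | h
          · have h4 := Nat.floor_le (norm_nonneg v)
            have h5 := (Nat.lt_floor_add_one ‖v‖).le
            exact ⟨⌊‖v‖⌋₊, hpiece v hv.le, hw.le, by linarith, by linarith⟩
          · have h4 := Nat.floor_le (norm_nonneg w)
            have h5 := (Nat.lt_floor_add_one ‖w‖).le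
            exact ⟨⌊‖w‖⌋₊, ⟨hv.le, by linarith, by linarith⟩, hpiece w hw.le⟩
        exact (hhol m v hm1 w hm2).trans (mul_le_mul_of_nonneg_right (he2 m v hm1)
          (Real.rpow_nonneg (norm_nonneg _) _))
    exact disj_of_close hA hcl hid (hG _ hclose) hgs
      (fun v hv => (hval _ v (hpiece v hv.le)).1.trans_le (he3 _)) hC hCC
  · -- `C²`
    intro g hgs2 hg C hC hCC
    have hgs : ∀ v : V n, 1 / 2 ≤ v 0 → g (φ.symm v) ∈ φ.source := by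
      intro v hv
      exact (hg ⌊‖v‖⌋₊ (φ.symm v) ⟨v, hpiece v hv, rfl⟩).1
    have hclose : ∀ v : V n, 1 / 2 < v 0 → ∀ i : ℕ, i ≤ 2 →
        ‖iteratedFDeriv ℝ i (φ ∘ g ∘ φ.symm) v - iteratedFDeriv ℝ i (F : V n → V n) v‖ <
          e ⌊‖v‖⌋₊ := by
      intro v hv i hi
      have hvt : v ∈ φ.target := hA (show 0 ≤ v 0 by linarith)
      have h1 := (hg ⌊‖v‖⌋₊ (φ.symm v) ⟨v, hpiece v hv.le, rfl⟩).2 i hi
      have h3 : iteratedFDeriv ℝ i (φ ∘ f ∘ φ.symm) v = iteratedFDeriv ℝ i (F : V n → V n) v :=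
        ((hev v hv.le).iteratedFDeriv (𝕜 := ℝ) i).eq_of_nhds
      have h4 : ‖iteratedFDeriv ℝ i (φ ∘ g ∘ φ.symm) (φ (φ.symm v))
          - iteratedFDeriv ℝ i (φ ∘ f ∘ φ.symm) (φ (φ.symm v))‖ < e ⌊‖v‖⌋₊ := h1
      rw [φ.right_inv hvt, h3] at h4
      exact h4
    have hcl' : CloseA α ε F (φ ∘ g ∘ φ.symm) := by
      refine hC2 _ ?_ ?_
      · intro v hv
        exact (hsmooth 2 (by norm_num) le_rfl g (by exact_mod_cast hgs2) hgs v hv).contDiffWithinAt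
      · intro v hv i hi
        exact (hclose v hv i hi).trans_le (he2' _ v (hpiece v hv.le))
    refine disj_of_close hA hcl hid (hG _ hcl') hgs (fun v hv => ?_) hC hCC
    have h0 := (hclose v hv 0 (by norm_num)).trans_le (he3 _)
    have e1 : ‖(φ ∘ g ∘ φ.symm) v - F v‖ = ‖iteratedFDeriv ℝ 0 (φ ∘ g ∘ φ.symm) v -
        iteratedFDeriv ℝ 0 (F : V n → V n) v‖ := by
      have e2 : iteratedFDeriv ℝ 0 (φ ∘ g ∘ φ.symm) v -
        iteratedFDeriv ℝ 0 (F : V n → V n) v =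
        iteratedFDeriv ℝ 0 (fun w => (φ ∘ g ∘ φ.symm) w - F w) v := by
        ext m
        simp [iteratedFDeriv_zero_apply]
      rw [e2, norm_iteratedFDeriv_zero]
    rw [e1]
    exact h0

end Pool.Agent.Y640.CLA
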