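import Pool.Agent.H718R2.K6b
import Pool.Agent.Y640.CLA.D5

/-!
# The system for small `κ`, and the 3D data for `C^{1+α}` perturbations
-/

open Pool.Agent.H718R2

namespace Pool.Agent.Y640.CLA

/-- the system with arbitrarily small `κ` -/
theorem exists_sysA {κ₀ : ℝ} (hκ₀ : 0 < κ₀) : ∃ κ θ : ℝ, 0 < κ ∧ κ ≤ 1 / 10 ^ 12 ∧ κ ≤ κ₀ ∧
    θ = κ ^ 24 ∧ ∃ ω : E → ℝ, Wind κ θ ω ∧
    ∃ (A : Atoms θ ω) (f : E ≃ₜ E), ContDiff ℝ (⊤ : ℕ∞) f ∧ ContDiff ℝ (⊤ : ℕ∞) f.symm ∧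
      f = theMap A ∧ Sys θ ω f := by
  obtain ⟨C, hC⟩ := ψ_lip
  obtain ⟨κ, hκ, hκ', ω, hs, hW, hev, hl, hCω⟩ := exists_wind (C + 1 / κ₀)
  obtain ⟨hθ, hθ'⟩ := θ_small hκ hκ' rfl
  have h0 : 0 < 1 / κ₀ := by positivity
  have hC0 : (0 : ℝ) ≤ C := C.coe_nonneg
  have hCω' : ∀ z, C * ω z ≤ 1 / 10 ^ 11 := by
    intro z
    have h1 := hCω z
    have h2 := hW.nonneg z
    have h3 : 0 ≤ 1 / κ₀ * ω z := mul_nonneg h0.le h2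
    have h4 : ((C : ℝ) + 1 / κ₀) * ω z = C * ω z + 1 / κ₀ * ω z := by ring
    rw [h4] at h1
    linarith
  have hκ1 : κ ≤ κ₀ := by
    have h1 := hCω (1, 0, 0)
    have h2 := hW.low' (1, 0, 0) (by simp [Prod.norm_def])
    have h3 : 1 / κ₀ * (κ / 4) ≤ (C + 1 / κ₀) * ω (1, 0, 0) := by
      apply mul_le_mul (by linarith) h2 (by positivity) (by positivity)
    have h4 : 1 / κ₀ * (κ / 4) ≤ 1 / 10 ^ 11 := h3.trans h1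
    rw [div_mul_eq_mul_div, one_mul, div_le_iff₀ hκ₀] at h4
    linarith
  obtain ⟨A⟩ := exists_atoms hθ hθ' hs hW.nonneg hW.up hl hC hCω'
  obtain ⟨f, hf, hf', hfe⟩ := homeo_of_atoms A
  refine ⟨κ, κ ^ 24, hκ, hκ', hκ1, rfl, ω, hW, A, f, hf, hf', hfe, ?_⟩
  rw [hfe]
  exact sys_of_atoms hθ hθ' hW.nonneg hW.up hev A

/-- the full 3D data needed: the map, its localisation, absence of bounded forward orbits of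
`C^{1+α}` perturbations, forward bounds -/
theorem exists_dataA {α : ℝ} (hα : 0 < α) (hα1 : α ≤ 1) :
    ∃ (θ : ℝ) (f f₀ : E ≃ₜ E), 0 < θ ∧ θ ≤ 1 ∧ ContDiff ℝ (⊤ : ℕ∞) f ∧
    ContDiff ℝ (⊤ : ℕ∞) f₀ ∧ ContDiff ℝ (⊤ : ℕ∞) f₀.symm ∧
    (∀ p : E, -2 ≤ p.2.2 → f₀ p = f p) ∧ (∀ p : E, p.2.2 ≤ -5 → f₀ p = p) ∧
    (∀ j, |(f^[j] (0 : E)).2.2| ≤ 1) ∧ (∀ δ : ℝ, 0 < δ → ∃ n : ℕ, 1 ≤ n ∧ ‖f^[n] (0 : E)‖ < δ) ∧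
    (∀ v : E → E, PertA α θ v → ∀ O : Set E, (∀ p ∈ O, f p + v p ∈ O) → ∀ pm ∈ O,
      (∀ p ∈ O, p.2.2 ≤ pm.2.2) → (∃ S : ℝ, ∀ p ∈ O, p.2.1 ≤ S) → False) ∧
    (∀ (Q : ℕ → E) (P : ℕ → Prop), (∀ i, ‖Q (i + 1) - f (Q i)‖ ≤ E2.epsf θ (Q i)) → P 0 →
      (∀ i, P i → -1 ≤ (Q i).2.2 → P (i + 1)) → (∀ i, P i → (Q i).2.2 ≤ (Q 0).2.2) →
      -(1 / 4) ≤ (Q 0).2.2 → (∃ B : ℝ, ∀ i, P i → (Q i).2.1 ≤ B) → ∀ i, P i ∧ -(1 / 10) ≤ (Q i).2.2) := by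
  obtain ⟨κ, θ, hκ, hκ', hκ₀, hθ, ω, hW, A, f, hf, hf', hfe, hS⟩ :=
    exists_sysA (κ₀ := (1 / 10 : ℝ) ^ (1 / α)) (by positivity)
  obtain ⟨hp, hle⟩ := θ_small hκ hκ' hθ
  have hpw : pw α θ ≤ 1 / 10 := by
    have h1 : θ ≤ (1 / 10 : ℝ) ^ (1 / α) := by
      refine le_trans ?_ hκ₀
      rw [hθ]
      calc κ ^ 24 ≤ κ ^ 1 := pow_le_pow_of_le_one hκ.le (hκ'.trans (by norm_num)) (by norm_num)
        _ = κ := pow_one κ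
    refine (pw_mono hα hp.le h1).trans (le_of_eq ?_)
    unfold pw
    rw [← Real.rpow_mul (by norm_num), one_div_mul_cancel hα.ne', Real.rpow_one]
  obtain ⟨f₀, h1, h2, h3, h4⟩ := loc_of_atoms hp hle hW.nonneg hW.up A
  have hf2 : ContDiff ℝ 2 f := hf.of_le (WithTop.coe_le_coe.mpr (le_top : (2 : ℕ∞) ≤ ⊤))
  refine ⟨θ, f, f₀, hp, by linarith, hf, h1, h2, ?_, h4, orb_zero_bd hκ hκ' hθ hW hS, ?_, ?_, ?_⟩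
  · intro p hp'
    rw [h3 p hp', hfe]
  · intro δ hδ
    obtain ⟨n, hn, h⟩ := rec_strong hκ hκ' hθ hW hS δ hδ
    rw [E2.pow_apply] at h
    exact ⟨n, hn, h⟩
  · intro v hv O hinv pm hpm hm hS'
    have c : Ctx α κ θ ω f v := ⟨⟨hα, hα1⟩, hpw, hκ, hκ', hθ, hW, hf2, hS, hv⟩
    exact no_inv c (fun p hp => hinv p hp) hpm hm hS'
  · intro Q P herr hP0 hP hmax h0 hB
    refine forward_bd hκ hκ' hθ hW hf2 hS Q P ?_ hP0 hP hmax h0 hB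
    intro i m hm
    exact (herr i).trans (E2.epsf_le hp (by linarith) _ m hm)

end Pool.Agent.Y640.CLA
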